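import Pool.Agent.P.MP_c47a54_pr.Semi

namespace Pool.Agent.P.MP_c47a54_pr

open Equiv Finset Module
open scoped RealInnerProductSpace

variable {V : Type} [Fintype V] [DecidableEq V]

/-- permutations supported in `A` -/
def Gam (A : Finset V) : Finset (Perm V) := univ.filter fun u => ∀ v, v ∉ A → u v = v

lemma mem_Gam {A : Finset V} {u : Perm V} : u ∈ Gam A ↔ ∀ v, v ∉ A → u v = v := by simp [Gam]

lemma one_mem_Gam (A : Finset V) : (1 : Perm V) ∈ Gam A := mem_Gam.2 fun _ _ => rfl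

lemma mul_mem_Gam {A : Finset V} {u h : Perm V} (hu : u ∈ Gam A) (hh : h ∈ Gam A) :
    u * h ∈ Gam A := mem_Gam.2 fun v hv => by
  rw [Perm.mul_apply, mem_Gam.1 hh v hv, mem_Gam.1 hu v hv]

lemma inv_mem_Gam {A : Finset V} {u : Perm V} (hu : u ∈ Gam A) : u⁻¹ ∈ Gam A :=
  mem_Gam.2 fun v hv => by rw [Perm.inv_eq_iff_eq, mem_Gam.1 hu v hv]

lemma Gam_mono {A B : Finset V} (h : A ⊆ B) : Gam A ⊆ Gam B := fun _ hu =>
  mem_Gam.2 fun v hv => mem_Gam.1 hu v fun hv' => hv (h hv')

lemma swap_mem_Gam {A : Finset V} {a b : V} (ha : a ∈ A) (hb : b ∈ A) : swap a b ∈ Gam A :=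
  mem_Gam.2 fun v hv => swap_apply_of_ne_of_ne (fun e => hv (e ▸ ha)) (fun e => hv (e ▸ hb))

lemma Gam_apply_mem {A : Finset V} {u : Perm V} (hu : u ∈ Gam A) {v : V} (hv : v ∈ A) :
    u v ∈ A := by
  by_contra h
  have := u.injective (mem_Gam.1 hu _ h)
  exact h (this.symm ▸ hv)

lemma card_Gam_pos (A : Finset V) : (0 : ℝ) < (Gam A).card := by
  exact_mod_cast card_pos.2 ⟨1, one_mem_Gam A⟩

lemma sum_Gam_left {M : Type*} [AddCommMonoid M] {A : Finset V} {u : Perm V} (hu : u ∈ Gam A)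
    (f : Perm V → M) : ∑ h ∈ Gam A, f (u * h) = ∑ h ∈ Gam A, f h :=
  sum_equiv (Equiv.mulLeft u) (fun h => ⟨fun hh => mul_mem_Gam hu hh, fun hh => by
    simpa using mul_mem_Gam (inv_mem_Gam hu) hh⟩) fun _ _ => rfl

lemma sum_Gam_right {M : Type*} [AddCommMonoid M] {A : Finset V} {u : Perm V} (hu : u ∈ Gam A)
    (f : Perm V → M) : ∑ h ∈ Gam A, f (h * u) = ∑ h ∈ Gam A, f h :=
  sum_equiv (Equiv.mulRight u) (fun h => ⟨fun hh => mul_mem_Gam hh hu, fun hh => by
    simpa using mul_mem_Gam hh (inv_mem_Gam hu)⟩) fun _ _ => rfl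

lemma sum_Gam_inv {M : Type*} [AddCommMonoid M] (A : Finset V) (f : Perm V → M) :
    ∑ h ∈ Gam A, f h⁻¹ = ∑ h ∈ Gam A, f h :=
  sum_equiv (Equiv.inv _) (fun h => ⟨fun hh => inv_mem_Gam hh, fun hh => by
    simpa using inv_mem_Gam hh⟩) fun _ _ => rfl

lemma conj_mem_Gam {A : Finset V} (g h : Perm V) :
    h ∈ Gam A ↔ g * h * g⁻¹ ∈ Gam (A.map g.toEmbedding) := by
  simp only [mem_Gam, mem_map_equiv]
  constructor
  · intro hh v hv
    have := hh _ hv
    simp only [Perm.mul_apply, Perm.inv_def, this, apply_symm_apply]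
  · intro hh v hv
    have := hh (g v) (by simpa using hv)
    simpa using this

section
variable {W : Type} [AddCommGroup W] [Module ℝ W] (ρ : Representation ℝ (Perm V) W)

/-- average over the permutations supported in `A` -/
noncomputable def Q (A : Finset V) : End ℝ W := ((Gam A).card : ℝ)⁻¹ • ∑ u ∈ Gam A, ρ u

variable {ρ}

lemma mul_Q {A : Finset V} {u : Perm V} (hu : u ∈ Gam A) : ρ u * Q ρ A = Q ρ A := by
  simp only [Q, mul_smul_comm, mul_sum, ← map_mul]
  rw [sum_Gam_left hu (fun h => ρ h)]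

lemma Q_mul {A : Finset V} {u : Perm V} (hu : u ∈ Gam A) : Q ρ A * ρ u = Q ρ A := by
  simp only [Q, smul_mul_assoc, sum_mul, ← map_mul]
  rw [sum_Gam_right hu (fun h => ρ h)]

lemma Q_mul_of_fix {A : Finset V} {T : End ℝ W} (h : ∀ u ∈ Gam A, ρ u * T = T) :
    Q ρ A * T = T := by
  rw [Q, smul_mul_assoc, sum_mul, sum_congr rfl h, sum_const, ← Nat.cast_smul_eq_nsmul ℝ, smul_smul,
    inv_mul_cancel₀ (card_Gam_pos A).ne', one_smul]

lemma mul_Q_of_fix {A : Finset V} {T : End ℝ W} (h : ∀ u ∈ Gam A, T * ρ u = T) :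
    T * Q ρ A = T := by
  rw [Q, mul_smul_comm, mul_sum, sum_congr rfl h, sum_const, ← Nat.cast_smul_eq_nsmul ℝ, smul_smul,
    inv_mul_cancel₀ (card_Gam_pos A).ne', one_smul]

lemma Q_mul_Q {A B : Finset V} (h : A ⊆ B) : Q ρ A * Q ρ B = Q ρ B :=
  Q_mul_of_fix fun _ hu => mul_Q (Gam_mono h hu)

lemma Q_mul_Q' {A B : Finset V} (h : A ⊆ B) : Q ρ B * Q ρ A = Q ρ B :=
  mul_Q_of_fix fun _ hu => Q_mul (Gam_mono h hu)

lemma Q_conj (g : Perm V) (A : Finset V) : ρ g * Q ρ A = Q ρ (A.map g.toEmbedding) * ρ g := by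
  have h : ∀ {M : Type} [AddCommMonoid M] (f : Perm V → M),
      ∑ h ∈ Gam A, f (g * h * g⁻¹) = ∑ h ∈ Gam (A.map g.toEmbedding), f h := fun f =>
    sum_equiv (MulAut.conj g).toEquiv (fun h => conj_mem_Gam g h) fun _ _ => rfl
  have hc : (Gam A).card = (Gam (A.map g.toEmbedding)).card := by
    simpa using h (fun _ => (1 : ℕ))
  simp only [Q, mul_smul_comm, smul_mul_assoc, mul_sum, sum_mul, ← map_mul, hc]
  rw [← h (fun u => ρ (u * g))]
  simp

lemma Q_card_le_one {A : Finset V} (h : A.card ≤ 1) : Q ρ A = 1 := by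
  have : Gam A = {1} := by
    refine eq_singleton_iff_unique_mem.2 ⟨one_mem_Gam A, fun u hu => Equiv.ext fun v => ?_⟩
    by_cases hv : v ∈ A
    · exact card_le_one.1 h _ (Gam_apply_mem hu hv) _ hv
    · exact mem_Gam.1 hu v hv
  simp [Q, this]

lemma Q_insert {A : Finset V} {a : V} (ha : a ∉ A) :
    Q ρ (insert a A) = ((A.card : ℝ) + 1)⁻¹ • ((1 + ∑ c ∈ A, ρ (swap a c)) * Q ρ A) := by
  have e : (1 + ∑ c ∈ A, ρ (swap a c)) = ∑ c ∈ insert a A, ρ (swap a c) := by
    rw [sum_insert ha, swap_self]; exact congrArg (· + _) (map_one ρ).symm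
  rw [e]
  have h1 : Q ρ (insert a A) * ((∑ c ∈ insert a A, ρ (swap a c)) * Q ρ A) =
      (∑ c ∈ insert a A, ρ (swap a c)) * Q ρ A := by
    refine Q_mul_of_fix fun u hu => ?_
    simp only [sum_mul, mul_sum]
    refine sum_equiv u (fun c => ⟨Gam_apply_mem hu, fun h => ?_⟩) fun c hc => ?_
    · simpa using Gam_apply_mem (inv_mem_Gam hu) h
    · have h2 : swap a (u c) * u * swap a c ∈ Gam A := mem_Gam.2 fun v hv => by
        by_cases e : v = a
        · subst e; simp
        · have hv' : v ∉ insert a A := by simp [e, hv]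
          have h3 : v ≠ c := fun e => hv' (e ▸ hc)
          have h4 : v ≠ u c := fun e => hv' (e ▸ Gam_apply_mem hu hc)
          simp only [Perm.mul_apply, swap_apply_of_ne_of_ne e h3, mem_Gam.1 hu v hv',
            swap_apply_of_ne_of_ne e h4]
      have h5 : u * swap a c = swap a (u c) * (swap a (u c) * u * swap a c) := by
        simp only [← mul_assoc, swap_mul_self, one_mul]
      rw [← mul_assoc, ← map_mul, h5, map_mul, mul_assoc, mul_Q h2]
  have h2 : Q ρ (insert a A) * ∑ c ∈ insert a A, ρ (swap a c) =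
      ((A.card : ℝ) + 1) • Q ρ (insert a A) := by
    rw [mul_sum, sum_congr rfl fun c hc => Q_mul (swap_mem_Gam (mem_insert_self _ _) hc),
      sum_const, card_insert_of_notMem ha, ← Nat.cast_smul_eq_nsmul ℝ]
    push_cast; rfl
  rw [← h1, ← mul_assoc, h2, smul_mul_assoc, Q_mul_Q' (subset_insert _ _), smul_smul,
    inv_mul_cancel₀ (by positivity), one_smul]

lemma Q_triple {A : Finset V} {a b : V} (ha : a ∉ A) (hb : b ∉ A) (hab : a ≠ b) :
    Q ρ (insert a A) * Q ρ (insert b A) * Q ρ (insert a A) =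
      (1 / ((A.card : ℝ) + 1) ^ 2) • Q ρ (insert a A) +
        (1 - 1 / ((A.card : ℝ) + 1) ^ 2) • Q ρ (insert b (insert a A)) := by
  set P := Q ρ (insert a A) with hP
  have hT : ∀ c ∈ insert a A, P * ρ (swap b c) * P = P * ρ (swap b a) * P := by
    intro c hc
    have hs := swap_mem_Gam (mem_insert_self a A) hc
    have hbc : b ≠ c := fun e => by
      subst e
      rcases mem_insert.1 hc with h | h
      · exact hab h.symm
      · exact hb h
    have e : swap b c = swap a c * swap b a * (swap a c)⁻¹ := by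
      rw [← swap_apply_apply, swap_apply_left, swap_apply_of_ne_of_ne hab.symm hbc]
    rw [e, map_mul, map_mul, ← mul_assoc, ← mul_assoc, Q_mul hs, mul_assoc, mul_Q (inv_mem_Gam hs)]
  have hPP : P * P = P := Q_mul_Q subset_rfl
  have h1 : P * Q ρ (insert b A) * P =
      ((A.card : ℝ) + 1)⁻¹ • (P + (A.card : ℝ) • (P * ρ (swap b a) * P)) := by
    rw [Q_insert hb, mul_smul_comm, smul_mul_assoc, mul_assoc, mul_assoc,
      Q_mul_Q (subset_insert _ _), ← hP, add_mul, one_mul, mul_add, hPP, sum_mul, mul_sum,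
      sum_congr rfl fun c hc => (mul_assoc _ _ _).symm.trans (hT c (mem_insert_of_mem hc)),
      sum_const, ← Nat.cast_smul_eq_nsmul ℝ]
  have hb' : b ∉ insert a A := by simp [hb, hab.symm]
  have h2 : Q ρ (insert b (insert a A)) =
      ((A.card : ℝ) + 1 + 1)⁻¹ • (P + ((A.card : ℝ) + 1) • (P * ρ (swap b a) * P)) := by
    rw [← Q_mul_Q (ρ := ρ) (subset_insert b (insert a A)), Q_insert hb', mul_smul_comm, ← hP,
      add_mul, one_mul, mul_add, hPP, sum_mul, mul_sum,
      sum_congr rfl fun c hc => (mul_assoc _ _ _).symm.trans (hT c hc),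
      sum_const, ← Nat.cast_smul_eq_nsmul ℝ, card_insert_of_notMem ha]
    push_cast; rfl
  rw [h1, h2]
  have hm : (0 : ℝ) ≤ A.card := by positivity
  simp only [smul_add, smul_smul]
  rw [← add_assoc, ← add_smul]
  congr 2
  · field_simp; ring
  · field_simp; ring

/-- sum of all transpositions, over ordered pairs -/
noncomputable def Zt (ρ : Representation ℝ (Perm V) W) : End ℝ W :=
  ∑ x ∈ (univ : Finset V).offDiag, ρ (swap x.1 x.2)

lemma Zt_comm (g : Perm V) : ρ g * Zt ρ = Zt ρ * ρ g := by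
  simp only [Zt, mul_sum, sum_mul, ← map_mul]
  refine sum_equiv (Equiv.prodCongr g g) (fun x => by simp) fun x _ => ?_
  rw [mul_swap_eq_swap_mul]; rfl

/-- sum of the averages over all sets of size `m` -/
noncomputable def Yt (ρ : Representation ℝ (Perm V) W) (m : ℕ) : End ℝ W :=
  ∑ A ∈ powersetCard m (univ : Finset V), Q ρ A

lemma Yt_comm (m : ℕ) (g : Perm V) : ρ g * Yt ρ m = Yt ρ m * ρ g := by
  simp only [Yt, mul_sum, sum_mul, Q_conj]
  exact sum_equiv g.finsetCongr (fun A => by simp) fun A _ => rfl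

lemma Q_sub {U : Submodule ℝ W} (h : ∀ g, U ≤ U.comap (ρ g)) (A : Finset V) (w : U) :
    (Q (ρ.subrepresentation U h) A w : W) = Q ρ A w := by
  simp [Q, Representation.subrepresentation, LinearMap.sum_apply]

lemma Zt_sub {U : Submodule ℝ W} (h : ∀ g, U ≤ U.comap (ρ g)) (w : U) :
    (Zt (ρ.subrepresentation U h) w : W) = Zt ρ w := by
  simp [Zt, Representation.subrepresentation, LinearMap.sum_apply]

lemma Yt_sub {U : Submodule ℝ W} (h : ∀ g, U ≤ U.comap (ρ g)) (m : ℕ) (w : U) :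
    (Yt (ρ.subrepresentation U h) m w : W) = Yt ρ m w := by
  simp [Yt, LinearMap.sum_apply, Q_sub]

lemma eigenspace_inv {X : End ℝ W} (hX : ∀ g, ρ g * X = X * ρ g) (z : ℝ) (g : Perm V) :
    X.eigenspace z ≤ (X.eigenspace z).comap (ρ g) := fun w hw => by
  rw [Submodule.mem_comap, End.mem_eigenspace_iff] at *
  rw [← End.mul_apply, ← hX, End.mul_apply, hw, map_smul]

lemma trace_Q_eq [Module.Finite ℝ W] {A B : Finset V} (h : A.card = B.card) :
    LinearMap.trace ℝ W (Q ρ A) = LinearMap.trace ℝ W (Q ρ B) := by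
  obtain ⟨g, rfl⟩ := Perm.exists_map_finset_eq A B h
  have : Q ρ A = ρ g⁻¹ * (Q ρ (A.map g.toEmbedding) * ρ g) := by
    rw [← Q_conj, ← mul_assoc, ← map_mul, inv_mul_cancel, map_one, one_mul]
  rw [this, LinearMap.trace_mul_comm, mul_assoc, ← map_mul, mul_inv_cancel, map_one, mul_one]

/-- dimension of the vectors fixed by the permutations of `m` points -/
noncomputable def tau (ρ : Representation ℝ (Perm V) W) (m : ℕ) : ℝ :=
  LinearMap.trace ℝ W (Q ρ (Classical.epsilon fun A : Finset V => A.card = m))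

lemma trace_Q [Module.Finite ℝ W] (A : Finset V) :
    LinearMap.trace ℝ W (Q ρ A) = tau ρ A.card :=
  trace_Q_eq (Classical.epsilon_spec (p := fun B : Finset V => B.card = A.card) ⟨A, rfl⟩).symm

end

section
variable {W : Type} [NormedAddCommGroup W] [InnerProductSpace ℝ W] [FiniteDimensional ℝ W]
  {ρ : Representation ℝ (Perm V) W}

/-- orthogonal representation -/
def Orth (ρ : Representation ℝ (Perm V) W) : Prop := ∀ u x y, ⟪ρ u x, y⟫ = ⟪x, ρ u⁻¹ y⟫

lemma Orth.sub (h : Orth ρ) {U : Submodule ℝ W} (hU : ∀ g, U ≤ U.comap (ρ g)) :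
    Orth (ρ.subrepresentation U hU) := fun u x y => h u x y

lemma Orth.Q_symm (h : Orth ρ) (A : Finset V) : (Q ρ A).IsSymmetric := fun x y => by
  simp only [Q, LinearMap.smul_apply, LinearMap.sum_apply, inner_smul_left, inner_smul_right,
    sum_inner, inner_sum, h _ x y, conj_trivial]
  rw [sum_Gam_inv A fun u => ⟪x, ρ u y⟫]

lemma Orth.Zt_symm (h : Orth ρ) : (Zt ρ).IsSymmetric := fun x y => by
  simp only [Zt, LinearMap.sum_apply, sum_inner, inner_sum, h _ x y, swap_inv]

lemma Orth.Yt_symm (h : Orth ρ) (m : ℕ) : (Yt ρ m).IsSymmetric := fun x y => by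
  simp only [Yt, LinearMap.sum_apply, sum_inner, inner_sum, h.Q_symm _ x y]

lemma trace_sq_nonneg {X : End ℝ W} (hX : X.IsSymmetric) : 0 ≤ LinearMap.trace ℝ W (X * X) := by
  rw [LinearMap.trace_eq_sum_inner _ (stdOrthonormalBasis ℝ W)]
  exact sum_nonneg fun i _ => by rw [End.mul_apply, ← hX]; exact real_inner_self_nonneg

lemma rayleigh {X : End ℝ W} (hX : X.IsSymmetric) {c : ℝ} (h : ∀ z, X.HasEigenvalue z → z ≤ c)
    (w : W) : ⟪X w, w⟫ ≤ c * ‖w‖ ^ 2 := by
  by_cases hw : w = 0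
  · simp [hw]
  have : Nontrivial W := ⟨w, 0, hw⟩
  have h1 := h _ hX.hasEigenvalue_iSup_of_finiteDimensional
  have hb : BddAbove (Set.range fun x : { x : W // x ≠ 0 } =>
      (RCLike.re ⟪X x, x⟫ / ‖(x : W)‖ ^ 2 : ℝ)) := by
    refine ⟨‖LinearMap.toContinuousLinearMap X‖, ?_⟩
    rintro _ ⟨x, rfl⟩
    have hx : 0 < ‖(x : W)‖ := norm_pos_iff.2 x.2
    rw [div_le_iff₀ (by positivity)]
    refine (real_inner_le_norm _ _).trans ?_
    have := (LinearMap.toContinuousLinearMap X).le_opNorm x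
    rw [pow_two, ← mul_assoc]
    exact mul_le_mul_of_nonneg_right this hx.le
  have h2 := (le_ciSup hb ⟨w, hw⟩).trans h1
  rwa [div_le_iff₀ (by have := norm_pos_iff.2 hw; positivity)] at h2

lemma Orth.tau_rec (h : Orth ρ) {m : ℕ} (hm : m + 2 ≤ Fintype.card V) (h0 : 0 < tau ρ m) :
    ((Fintype.card V : ℝ) - m) * tau ρ (m + 1) ^ 2 ≤ tau ρ m * (tau ρ (m + 1) +
      ((Fintype.card V : ℝ) - m - 1) * (tau ρ (m + 2) +
        (tau ρ (m + 1) - tau ρ (m + 2)) / ((m : ℝ) + 1) ^ 2)) := by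
  obtain ⟨A, -, hA⟩ := exists_subset_card_eq (s := (univ : Finset V)) (n := m)
    (by rw [card_univ]; omega)
  set L : ℝ := (Fintype.card V : ℝ) - m with hL
  have hc : ((Aᶜ).card : ℝ) = L := by rw [card_compl, Nat.cast_sub (by omega), hA]
  have hL0 : 0 < L := by
    have : (m : ℝ) + 2 ≤ Fintype.card V := by exact_mod_cast hm
    linarith
  set Y : End ℝ W := ∑ a ∈ Aᶜ, Q ρ (insert a A) with hY
  have tr1 : ∀ a ∈ Aᶜ, LinearMap.trace ℝ W (Q ρ (insert a A)) = tau ρ (m + 1) := fun a ha => by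
    rw [trace_Q, card_insert_of_notMem (mem_compl.1 ha), hA]
  have trY : LinearMap.trace ℝ W Y = L * tau ρ (m + 1) := by
    rw [hY, map_sum, sum_congr rfl tr1, sum_const, nsmul_eq_mul, hc]
  have tr2 : ∀ a ∈ Aᶜ, ∀ b ∈ Aᶜ.erase a, LinearMap.trace ℝ W (Q ρ (insert a A) * Q ρ (insert b A)) =
      tau ρ (m + 2) + (tau ρ (m + 1) - tau ρ (m + 2)) / ((m : ℝ) + 1) ^ 2 := by
    intro a ha b hb
    obtain ⟨hab, hb⟩ := mem_erase.1 hb
    have hb' : b ∉ insert a A := by simp [mem_compl.1 hb, hab]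
    conv_lhs => rw [← Q_mul_Q (ρ := ρ) (A := insert a A) subset_rfl, mul_assoc,
      LinearMap.trace_mul_comm]
    rw [Q_triple (mem_compl.1 ha) (mem_compl.1 hb) hab.symm, map_add, map_smul, map_smul, tr1 a ha,
      trace_Q, card_insert_of_notMem hb', card_insert_of_notMem (mem_compl.1 ha), hA]
    simp only [smul_eq_mul]; ring
  have trYY : LinearMap.trace ℝ W (Y * Y) = L * (tau ρ (m + 1) + (L - 1) * (tau ρ (m + 2) +
      (tau ρ (m + 1) - tau ρ (m + 2)) / ((m : ℝ) + 1) ^ 2)) := by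
    rw [hY, sum_mul_sum, map_sum, ← hc, ← nsmul_eq_mul, ← sum_const]
    refine sum_congr rfl fun a ha => ?_
    rw [map_sum, ← add_sum_erase _ _ ha, Q_mul_Q subset_rfl, tr1 a ha, sum_congr rfl (tr2 a ha),
      sum_const, nsmul_eq_mul, card_erase_of_mem ha, Nat.cast_sub (card_pos.2 ⟨a, ha⟩), Nat.cast_one]
  have hYQ : Y * Q ρ A = Y := by
    rw [hY, sum_mul]; exact sum_congr rfl fun a _ => Q_mul_Q' (subset_insert _ _)
  have hQY : Q ρ A * Y = Y := by
    rw [hY, mul_sum]; exact sum_congr rfl fun a _ => Q_mul_Q (subset_insert _ _)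
  have sY : Y.IsSymmetric := fun x y => by
    simp only [hY, LinearMap.sum_apply, sum_inner, inner_sum, h.Q_symm _ x y]
  set l := L * tau ρ (m + 1) / tau ρ m with hl
  have := trace_sq_nonneg (sY.sub ((h.Q_symm A).smul (c := l) (conj_trivial l)))
  simp only [sub_mul, mul_sub, mul_smul_comm, smul_mul_assoc, hYQ, hQY, Q_mul_Q subset_rfl, map_sub,
    map_smul, smul_eq_mul, trY, trYY, trace_Q, hA] at this
  have e : l * tau ρ m = L * tau ρ (m + 1) := by rw [hl]; field_simp
  have h2 := mul_nonneg h0.le this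
  refine le_of_mul_le_mul_left ?_ hL0
  have e2 : tau ρ m * (l * (L * tau ρ (m + 1))) = (L * tau ρ (m + 1)) ^ 2 := by
    rw [← mul_assoc, mul_comm (tau ρ m) l, e]; ring
  nlinarith

lemma Orth.eig_Zt (h : Orth ρ) [Nontrivial W] {z : ℝ} (hz : ∀ w, Zt ρ w = z • w) {k : ℕ}
    (hk : k + 2 ≤ Fintype.card V) (hQ : ∀ A : Finset V, A.card + k = Fintype.card V → Q ρ A = 0) :
    z ≤ Fintype.card V * (Fintype.card V - 1) - Fintype.card V * (k + 1) := by
  set N : ℝ := (Fintype.card V : ℝ) with hN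
  have hk' : (k : ℝ) + 2 ≤ N := by rw [hN]; exact_mod_cast hk
  have hk0 : (0 : ℝ) ≤ k := by positivity
  have hN0 : 0 < N := by linarith
  obtain ⟨a⟩ : Nonempty V := Fintype.card_pos_iff.1 (by omega)
  have t1 : tau ρ 1 = finrank ℝ W := by
    rw [← card_singleton a, ← trace_Q, Q_card_le_one (by simp), LinearMap.trace_one]
  have t1p : 0 < tau ρ 1 := by rw [t1]; exact_mod_cast finrank_pos
  have t2 : z * tau ρ 1 = N * (N - 1) * (2 * tau ρ 2 - tau ρ 1) := by
    have e1 : Zt ρ = z • (1 : End ℝ W) := LinearMap.ext hz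
    have e2 : LinearMap.trace ℝ W (Zt ρ) = z * tau ρ 1 := by
      rw [e1, map_smul, LinearMap.trace_one, t1, smul_eq_mul]
    rw [← e2, Zt, map_sum, sum_congr rfl (g := fun _ => 2 * tau ρ 2 - tau ρ 1), sum_const,
      nsmul_eq_mul, offDiag_card, card_univ, Nat.cast_sub (Nat.le_mul_self _)]
    · push_cast; ring
    · intro x hx
      have hx' : x.1 ∉ ({x.2} : Finset V) := by simpa using hx
      have := trace_Q (ρ := ρ) (insert x.1 {x.2})
      rw [card_insert_of_notMem hx', Q_insert hx', Q_card_le_one (by simp), card_singleton,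
        sum_singleton, mul_one, map_smul, map_add, LinearMap.trace_one, ← t1, smul_eq_mul] at this
      norm_num at this
      linarith
  by_contra hcon
  push Not at hcon
  set e := (N * (N - 1) - z) / N with he
  have he1 : e < k + 1 := by rw [he, div_lt_iff₀ hN0]; linarith
  have pos : ∀ m : ℕ, m + 1 + k ≤ Fintype.card V → 0 < tau ρ m →
      (tau ρ m - tau ρ (m + 1)) * (N - m) * (m + 1) ≤ e * m * tau ρ m → 0 < tau ρ (m + 1) := by
    intro m hm h0 h1
    have hm' : (m : ℝ) + 1 + k ≤ N := by rw [hN]; exact_mod_cast hm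
    have hm0 : (0 : ℝ) ≤ m := by positivity
    by_contra hb
    push Not at hb
    have h2 : tau ρ m * (N - m) * (m + 1) ≤ (tau ρ m - tau ρ (m + 1)) * (N - m) * (m + 1) := by
      gcongr
      · linarith
      · linarith
    have h3 : e * m ≤ (N - m) * m := mul_le_mul_of_nonneg_right (by linarith) hm0
    have h4 : 0 < tau ρ m * (N - m) := mul_pos h0 (by linarith)
    nlinarith
  have key : ∀ m : ℕ, 1 ≤ m → m + 1 + k ≤ Fintype.card V → 0 < tau ρ m ∧
      (tau ρ m - tau ρ (m + 1)) * (N - m) * (m + 1) ≤ e * m * tau ρ m := by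
    intro m hm
    induction m, hm using Nat.le_induction with
    | base =>
      intro _
      refine ⟨t1p, le_of_eq ?_⟩
      rw [he]; field_simp; push_cast; linarith
    | succ m hm ih =>
      intro hm2
      obtain ⟨h0, h1⟩ := ih (by omega)
      have hb := pos m (by omega) h0 h1
      refine ⟨hb, ?_⟩
      have hr := h.tau_rec (m := m) (by omega) h0
      rw [← hN] at hr
      have hm1 : (1 : ℝ) ≤ m := by exact_mod_cast hm
      set a := tau ρ m
      set b := tau ρ (m + 1)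
      set c := tau ρ (m + 2)
      have e1 : c + (b - c) / ((m : ℝ) + 1) ^ 2 = b - (b - c) * (m * (m + 2)) / ((m : ℝ) + 1) ^ 2 := by
        field_simp; ring
      rw [e1] at hr
      have h2 : a * ((N - m - 1) * ((b - c) * (m * (m + 2)) / ((m : ℝ) + 1) ^ 2)) ≤
          (N - m) * b * (a - b) := by nlinarith
      have h3 : (N - m) * b * (a - b) * (m + 1) ≤ b * (e * m * a) := by nlinarith
      have h4 : a * ((N - m - 1) * ((b - c) * (m * (m + 2)) / ((m : ℝ) + 1) ^ 2)) * (m + 1) ≤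
          b * (e * m * a) := (mul_le_mul_of_nonneg_right h2 (by positivity)).trans h3
      have h5 : a * ((N - m - 1) * ((b - c) * (m * (m + 2)) / ((m : ℝ) + 1) ^ 2)) * (m + 1) =
          a * m / (m + 1) * ((b - c) * (N - (m + 1)) * (m + 1 + 1)) := by field_simp; ring
      have h6 : b * (e * m * a) = a * m / (m + 1) * (e * (m + 1) * b) := by field_simp
      rw [h5, h6] at h4
      push_cast
      exact le_of_mul_le_mul_left h4 (by positivity)
  obtain ⟨m, hm⟩ : ∃ m, m + 1 + k = Fintype.card V := ⟨Fintype.card V - k - 1, by omega⟩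
  obtain ⟨h0, h1⟩ := key m (by omega) hm.le
  have h2 := pos m hm.le h0 h1
  obtain ⟨A, -, hA⟩ := exists_subset_card_eq (s := (univ : Finset V)) (n := m + 1)
    (by rw [card_univ]; omega)
  rw [← hA, ← trace_Q, hQ A (by omega), map_zero] at h2
  exact lt_irrefl _ h2

/-- spectral gap of random transpositions on high levels -/
theorem Orth.gap_Zt (h : Orth ρ) {k : ℕ} (hk : k + 2 ≤ Fintype.card V)
    (hQ : ∀ A : Finset V, A.card + k = Fintype.card V → Q ρ A = 0) (w : W) :
    ⟪Zt ρ w, w⟫ ≤ (Fintype.card V * (Fintype.card V - 1) - Fintype.card V * (k + 1)) * ‖w‖ ^ 2 := by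
  refine rayleigh h.Zt_symm (fun z hz => ?_) w
  have hU := eigenspace_inv (ρ := ρ) Zt_comm z
  have : Nontrivial ((Zt ρ).eigenspace z) := Submodule.nontrivial_iff_ne_bot.2 hz
  refine (h.sub hU).eig_Zt (fun w => Subtype.ext ?_) hk fun A hA => LinearMap.ext fun w =>
    Subtype.ext ?_
  · rw [Zt_sub]; exact End.mem_eigenspace_iff.1 w.2
  · rw [Q_sub, hQ A hA]; rfl

/-- the averages over sets of size `m` control the norm -/
theorem Orth.norm_le (h : Orth ρ) {m : ℕ}
    (hQ : ∀ w, (∀ A : Finset V, A.card = m → Q ρ A w = 0) → w = 0) (w : W) :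
    ‖w‖ ^ 2 ≤ ∑ A ∈ powersetCard m (univ : Finset V), ‖Q ρ A w‖ ^ 2 := by
  have hs : (-Yt ρ m).IsSymmetric := fun x y => by
    simp [inner_neg_left, inner_neg_right, h.Yt_symm m x y]
  have h1 := rayleigh hs (c := -1) (fun z hz => ?_) w
  · have e : ⟪Yt ρ m w, w⟫ = ∑ A ∈ powersetCard m (univ : Finset V), ‖Q ρ A w‖ ^ 2 := by
      simp only [Yt, LinearMap.sum_apply, sum_inner]
      refine sum_congr rfl fun A _ => ?_
      rw [← real_inner_self_eq_norm_sq, h.Q_symm A w (Q ρ A w), ← End.mul_apply, Q_mul_Q subset_rfl,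
        real_inner_comm]
    rw [LinearMap.neg_apply, inner_neg_left, e] at h1
    linarith
  have hU := eigenspace_inv (ρ := ρ) (X := -Yt ρ m)
    (fun g => by rw [mul_neg, neg_mul, Yt_comm]) z
  set U := End.eigenspace (-Yt ρ m) z with hUd
  have : Nontrivial U := Submodule.nontrivial_iff_ne_bot.2 hz
  set ρ' := ρ.subrepresentation U hU with hρ'
  have e1 : Yt ρ' m = (-z) • (1 : End ℝ U) := LinearMap.ext fun w => Subtype.ext (by
    rw [Yt_sub]
    have := End.mem_eigenspace_iff.1 w.2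
    rw [LinearMap.neg_apply, neg_eq_iff_eq_neg] at this
    simp [this])
  have e2 : -z * finrank ℝ U =
      ∑ A ∈ powersetCard m (univ : Finset V), (finrank ℝ (LinearMap.range (Q ρ' A)) : ℝ) := by
    have := congrArg (LinearMap.trace ℝ U) e1
    rw [map_smul, LinearMap.trace_one, smul_eq_mul, Yt, map_sum] at this
    rw [← this]
    exact sum_congr rfl fun A _ =>
      (LinearMap.IsIdempotentElem.isProj_range _ (Q_mul_Q subset_rfl)).trace
  have e3 : finrank ℝ U ≤
      ∑ A ∈ powersetCard m (univ : Finset V), finrank ℝ (LinearMap.range (Q ρ' A)) := by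
    rw [← sum_coe_sort, ← finrank_pi_fintype]
    refine LinearMap.finrank_le_finrank_of_injective
      (f := LinearMap.pi fun A : powersetCard m (univ : Finset V) => (Q ρ' A.1).rangeRestrict) ?_
    rw [injective_iff_map_eq_zero]
    intro w hw
    refine Subtype.ext (hQ _ fun A hA => ?_)
    have := congrArg (fun x => ((x ⟨A, by simpa using hA⟩ : U) : W)) hw
    rw [← Q_sub hU]
    exact this
  have e4 : (finrank ℝ U : ℝ) ≤ -z * finrank ℝ U := by rw [e2]; exact_mod_cast e3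
  have e5 : (0 : ℝ) < finrank ℝ U := by exact_mod_cast finrank_pos
  nlinarith

end

end Pool.Agent.P.MP_c47a54_pr
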