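import Pool.Agent.P.MP_c47a54_pr.Semi
import Pool.Agent.K.MP_c47a54_pr.C1
import Pool.Agent.K.MP_c47a54_pr.C0
import Pool.Agent.P.MP_c47a54_pr.Base

-- part Pool.Agent.P.MP_c47a54_pr.Tensor
section

namespace Pool.Agent.P.MP_c47a54_pr

open Equiv Finset Matrix Function

variable {ι V Ω : Type} [Fintype ι] [DecidableEq ι] [Fintype V] [DecidableEq V] [Fintype Ω]

/-- tensor product of matrices -/
def ten (F : ι → Matrix V V ℝ) : Matrix (ι → V) (ι → V) ℝ := fun y z => ∏ a, F a (y a) (z a)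

lemma ten_mul (F G : ι → Matrix V V ℝ) : ten F * ten G = ten fun a => F a * G a := by
  ext y z
  simp only [ten, mul_apply, ← prod_mul_distrib]
  rw [prod_univ_sum, Fintype.piFinset_univ]

lemma ten_add (F G : ι → Matrix V V ℝ) :
    ten (fun a => F a + G a) = ∑ T : Finset ι, ten fun a => if a ∈ T then F a else G a := by
  ext y z
  simp only [ten, Matrix.add_apply, Matrix.sum_apply]
  rw [prod_add, powerset_univ]
  refine sum_congr rfl fun T _ => ?_
  rw [← prod_mul_prod_compl T, compl_eq_univ_sdiff]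
  congr 1
  · exact prod_congr rfl fun a ha => by rw [if_pos ha]
  · exact prod_congr rfl fun a ha => by rw [if_neg (mem_sdiff.1 ha).2]

/-- `F` on the coordinates in `T`, `G` on the others -/
def tn (T : Finset ι) (F G : Matrix V V ℝ) : Matrix (ι → V) (ι → V) ℝ :=
  ten fun a => if a ∈ T then F else G

lemma tn_mul (T : Finset ι) (F G F' G' : Matrix V V ℝ) :
    tn T F G * tn T F' G' = tn T (F * F') (G * G') := by
  rw [tn, tn, ten_mul]; congr 1; funext a; split_ifs <;> rfl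

lemma tn_transpose (T : Finset ι) (F G : Matrix V V ℝ) : (tn T F G)ᵀ = tn T Fᵀ Gᵀ := by
  ext y z
  simp only [tn, ten, transpose_apply]
  exact prod_congr rfl fun a _ => by split_ifs <;> rfl

lemma tn_same (T : Finset ι) (F : Matrix V V ℝ) : tn T F F = ten fun _ => F := by simp [tn]

lemma tn_compl (T : Finset ι) (F G : Matrix V V ℝ) : tn Tᶜ F G = tn T G F := by
  simp [tn]

lemma ten_one : ten (fun _ : ι => (1 : Matrix V V ℝ)) = 1 := by
  ext y z
  simp only [ten, one_apply, prod_boole, mem_univ, true_imp_iff, funext_iff]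

lemma tn_apply (T : Finset ι) (F G : Matrix V V ℝ) (y z : ι → V) :
    tn T F G y z = (∏ a ∈ T, F (y a) (z a)) * ∏ a ∈ Tᶜ, G (y a) (z a) := by
  rw [tn, ten, ← prod_mul_prod_compl T]
  congr 1
  · exact prod_congr rfl fun a ha => by rw [if_pos ha]
  · exact prod_congr rfl fun a ha => by rw [if_neg (mem_compl.1 ha)]

lemma tn_insert {T : Finset ι} {a : ι} (ha : a ∉ T) (F : Matrix V V ℝ) :
    tn (insert a T) F 1 = tn {a} F 1 * tn T F 1 := by
  rw [tn, tn, tn, ten_mul]; congr 1; funext c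
  by_cases h : c = a
  · subst h; simp [ha]
  · simp [h]

lemma tn_single_mulVec (a : ι) (F : Matrix V V ℝ) (φ : (ι → V) → ℝ) (y : ι → V) :
    (tn {a} F 1 *ᵥ φ) y = ∑ v, F (y a) v * φ (update y a v) := by
  simp only [mulVec, dotProduct, tn_apply, prod_singleton, one_apply, prod_boole]
  rw [← sum_fiberwise (s := univ) (g := fun z : ι → V => z a)]
  refine sum_congr rfl fun v _ => ?_
  rw [sum_eq_single (update y a v)]
  · rw [update_self, if_pos, mul_one]
    intro c hc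
    rw [update_of_ne (by simpa using hc)]
  · intro z hz hne
    rw [if_neg, mul_zero, zero_mul]
    intro h
    refine hne (funext fun c => ?_)
    by_cases hc : c = a
    · subst hc; simpa using hz
    · rw [update_of_ne hc]; exact (h c (by simpa using hc)).symm
  · simp

lemma sum_update (a : ι) (F : (ι → V) → ℝ) :
    ∑ y, ∑ v, F (update y a v) = Fintype.card V * ∑ y, F y := by
  have : ∑ x : (ι → V) × V, F (update x.1 a x.2) = ∑ x : (ι → V) × V, F x.1 := by
    refine Fintype.sum_bijective (fun x => (update x.1 a x.2, x.1 a))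
      (Involutive.bijective fun x => ?_) _ _ fun _ => rfl
    simp
  rw [Fintype.sum_prod_type, Fintype.sum_prod_type] at this
  simp only [this, sum_const, card_univ, nsmul_eq_mul, mul_sum]

lemma form_single (a : ι) (F : Matrix V V ℝ) (φ : (ι → V) → ℝ) :
    Fintype.card V * (φ ⬝ᵥ tn {a} F 1 *ᵥ φ) =
      ∑ y, (fun v => φ (update y a v)) ⬝ᵥ F *ᵥ fun v => φ (update y a v) := by
  rw [dotProduct, ← sum_update a]
  refine sum_congr rfl fun y _ => sum_congr rfl fun v _ => ?_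
  simp only [tn_single_mulVec, update_self, update_idem]
  rfl

lemma form_single_le [Nonempty V] (a : ι) {F G : Matrix V V ℝ} {φ : (ι → V) → ℝ}
    (h : ∀ y, ((fun v => φ (update y a v)) ⬝ᵥ F *ᵥ fun v => φ (update y a v)) ≤
      (fun v => φ (update y a v)) ⬝ᵥ G *ᵥ fun v => φ (update y a v)) :
    φ ⬝ᵥ tn {a} F 1 *ᵥ φ ≤ φ ⬝ᵥ tn {a} G 1 *ᵥ φ := by
  have : (0 : ℝ) < Fintype.card V := by exact_mod_cast Fintype.card_pos
  refine le_of_mul_le_mul_left ?_ this
  rw [form_single, form_single]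
  exact sum_le_sum fun y _ => h y

lemma tn_single_add (a : ι) (F F' G : Matrix V V ℝ) :
    tn {a} (F + F') G = tn {a} F G + tn {a} F' G := by
  ext y z; simp [tn_apply, add_mul]

lemma tn_single_smul (a : ι) (c : ℝ) (F G : Matrix V V ℝ) :
    tn {a} (c • F) G = c • tn {a} F G := by
  ext y z; simp [tn_apply, mul_assoc]

lemma tn_single_sum (a : ι) (F : Ω → Matrix V V ℝ) (G : Matrix V V ℝ) :
    tn {a} (∑ ω, F ω) G = ∑ ω, tn {a} (F ω) G := by
  ext y z; simp [tn_apply, Matrix.sum_apply, sum_mul]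

lemma dot_tr {Y : Type} [Fintype Y] (A B : Matrix Y Y ℝ) (u v : Y → ℝ) :
    A *ᵥ u ⬝ᵥ B *ᵥ v = u ⬝ᵥ (Aᵀ * B) *ᵥ v := by
  rw [← mulVec_mulVec, dotProduct_mulVec u, vecMul_transpose]

lemma dot_self_nonneg {Y : Type} [Fintype Y] (u : Y → ℝ) : 0 ≤ u ⬝ᵥ u :=
  sum_nonneg fun _ _ => mul_self_nonneg _

lemma norm_tn_le [Nonempty V] {S : Matrix V V ℝ} {κ : ℝ} (hκ : 0 ≤ κ)
    (h : ∀ u, S *ᵥ u ⬝ᵥ S *ᵥ u ≤ κ * (u ⬝ᵥ u)) (T : Finset ι) (φ : (ι → V) → ℝ) :
    tn T S 1 *ᵥ φ ⬝ᵥ tn T S 1 *ᵥ φ ≤ κ ^ T.card * (φ ⬝ᵥ φ) := by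
  induction T using Finset.induction_on with
  | empty => simp [tn, ten_one]
  | insert a T ha ih =>
    rw [tn_insert ha, ← mulVec_mulVec, dot_tr, tn_transpose, tn_mul, card_insert_of_notMem ha,
      pow_succ', mul_assoc]
    refine le_trans ?_ (mul_le_mul_of_nonneg_left ih hκ)
    have := form_single_le a (F := Sᵀ * S) (G := κ • 1) (φ := tn T S 1 *ᵥ φ) fun y => by
      rw [← dot_tr]; simpa [smul_mulVec] using h _
    simpa [tn_single_smul, tn_same, ten_one, smul_mulVec] using this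

lemma norm_tn_ge [Nonempty V] {S : Matrix V V ℝ} (h : ∀ u, u ⬝ᵥ u ≤ S *ᵥ u ⬝ᵥ S *ᵥ u)
    (T : Finset ι) (φ : (ι → V) → ℝ) : φ ⬝ᵥ φ ≤ tn T S 1 *ᵥ φ ⬝ᵥ tn T S 1 *ᵥ φ := by
  induction T using Finset.induction_on with
  | empty => simp [tn, ten_one]
  | insert a T ha ih =>
    rw [tn_insert ha, ← mulVec_mulVec, dot_tr (tn {a} S 1), tn_transpose, tn_mul]
    refine ih.trans ?_
    have := form_single_le a (F := 1) (G := Sᵀ * S) (φ := tn T S 1 *ᵥ φ) fun y => by
      rw [← dot_tr]; simpa using h _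
    simpa [tn_same, ten_one] using this

lemma schur {Y : Type} [Fintype Y] {p : Ω → ℝ} (hp : ∀ ω, 0 ≤ p ω) (H : Ω → Matrix Y Y ℝ)
    {φ : Y → ℝ} {r : ℝ} (h1 : ∀ y, φ y ≠ 0 → ∑ ω, p ω * ∑ z, |H ω y z| ≤ r)
    (h2 : ∀ y, φ y ≠ 0 → ∑ ω, p ω * ∑ z, |H ω z y| ≤ r) :
    ∑ ω, p ω * (φ ⬝ᵥ H ω *ᵥ φ) ≤ r * (φ ⬝ᵥ φ) := by
  have a1 : ∀ ω, φ ⬝ᵥ H ω *ᵥ φ ≤
      (∑ y, φ y ^ 2 * ∑ z, |H ω y z| + ∑ y, φ y ^ 2 * ∑ z, |H ω z y|) / 2 := by
    intro ω
    simp only [dotProduct, mulVec, mul_sum]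
    rw [sum_comm (f := fun y z => φ y ^ 2 * |H ω z y|), ← sum_add_distrib, sum_div]
    refine sum_le_sum fun y _ => ?_
    rw [← sum_add_distrib, sum_div]
    refine sum_le_sum fun z _ => ?_
    rcases abs_cases (H ω y z) with h | h <;> rw [h.1] <;>
      nlinarith [sq_nonneg (φ y - φ z), sq_nonneg (φ y + φ z)]
  have a2 : ∀ G : Ω → Y → ℝ, (∀ y, φ y ≠ 0 → ∑ ω, p ω * G ω y ≤ r) →
      ∑ ω, p ω * ∑ y, φ y ^ 2 * G ω y ≤ r * (φ ⬝ᵥ φ) := by
    intro G hG
    simp only [mul_sum, dotProduct]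
    rw [sum_comm]
    refine sum_le_sum fun y _ => ?_
    by_cases h : φ y = 0
    · simp [h]
    · have := mul_le_mul_of_nonneg_left (hG y h) (sq_nonneg (φ y))
      rw [mul_sum] at this
      simp only [mul_left_comm (p _)]
      linarith
  refine (sum_le_sum fun ω _ => mul_le_mul_of_nonneg_left (a1 ω) (hp ω)).trans ?_
  simp only [← mul_div_assoc, mul_add, ← sum_div, sum_add_distrib]
  linarith [a2 _ h1, a2 _ h2]

lemma row_tn (T : Finset ι) (H : Matrix V V ℝ) (y : ι → V) :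
    ∑ z, |tn T H 1 y z| = ∏ a ∈ T, ∑ v, |H (y a) v| := by
  simp only [tn, ten, abs_prod]
  rw [← Fintype.piFinset_univ,
    ← prod_univ_sum (fun _ => univ) fun a v => |(if a ∈ T then H else 1) (y a) v|,
    ← prod_mul_prod_compl T, prod_eq_one (s := Tᶜ), mul_one]
  · exact prod_congr rfl fun a ha => by rw [if_pos ha]
  · intro a ha
    rw [if_neg (mem_compl.1 ha)]
    simp [one_apply, apply_ite abs]

lemma col_tn (T : Finset ι) (H : Matrix V V ℝ) (y : ι → V) :
    ∑ z, |tn T H 1 z y| = ∏ a ∈ T, ∑ v, |H v (y a)| := by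
  have := row_tn T Hᵀ y
  rw [← transpose_one, ← tn_transpose] at this
  exact this

lemma supp_tn {T : Finset ι} (S : Matrix V V ℝ) {φ : (ι → V) → ℝ}
    (h : ∀ y, φ y ≠ 0 → Injective y) {y : ι → V} (hy : (tn T 1 S *ᵥ φ) y ≠ 0) :
    Set.InjOn y T := by
  obtain ⟨z, -, hz⟩ := exists_ne_zero_of_sum_ne_zero hy
  have h1 := h z (right_ne_zero_of_mul hz)
  have h0 : tn T 1 S y z ≠ 0 := left_ne_zero_of_mul hz
  rw [tn_apply] at h0
  have h2 := left_ne_zero_of_mul h0
  have h3 : ∀ a ∈ T, y a = z a := fun a ha => by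
    by_contra hne
    exact prod_ne_zero_iff.1 h2 a ha (one_apply_ne hne)
  intro a ha b hb hab
  exact h1 (by rw [← h3 a ha, ← h3 b hb, hab])

lemma marg_tn (a : ι) (S : Matrix V V ℝ) {φ : (ι → V) → ℝ}
    (h : ∀ y, ∑ v, φ (update y a v) = 0) (y : ι → V) :
    ∑ v, (tn {a} 1 S *ᵥ φ) (update y a v) = 0 := by
  have h1 : ∀ (ψ : (ι → V) → ℝ) y, (tn {a} (of fun _ _ => 1) 1 *ᵥ ψ) y = ∑ v, ψ (update y a v) :=
    fun ψ y => by simp [tn_single_mulVec]
  have h2 : tn {a} (of fun _ _ => 1) 1 *ᵥ φ = 0 := funext fun y => by rw [h1, h]; rfl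
  rw [← h1, mulVec_mulVec, tn_mul, mul_one, one_mul, ← one_mul (of fun _ _ => (1 : ℝ)),
    ← mul_one S, ← tn_mul, ← mulVec_mulVec, h2]
  simp

lemma sum_pow_card (b : ℝ) : ∑ T : Finset ι, b ^ T.card = (1 + b) ^ Fintype.card ι := by
  have := prod_one_add (s := (univ : Finset ι)) (f := fun _ => b)
  simpa using this.symm

/-- the matrix of a permutation acting on functions -/
def pm (g : Perm V) : Matrix V V ℝ := fun v w => if g v = w then 1 else 0

lemma ten_pm (g : Perm V) (φ : (ι → V) → ℝ) (y : ι → V) :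
    (ten (fun _ : ι => pm g) *ᵥ φ) y = φ (fun a => g (y a)) := by
  simp only [ten, pm, mulVec, dotProduct, prod_boole, mem_univ, true_imp_iff]
  simp only [← funext_iff]
  simp

/-- counting the coordinates with a nonconstant factor -/
lemma pattern {S P : Matrix V V ℝ} (hP : Pᵀ = P) (hPP : P * P = P)
    (hM : Sᵀ * S = Sᵀ * S * P + (1 - P)) {φ : (ι → V) → ℝ} {j : ℕ}
    (hj : ∀ A : Finset ι, A.card < j → tn A 1 P *ᵥ φ = 0) :
    j * (φ ⬝ᵥ ten (fun _ => Sᵀ * S) *ᵥ φ) ≤ ∑ a, φ ⬝ᵥ tn {a} (1 - P) (Sᵀ * S) *ᵥ φ := by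
  set M := Sᵀ * S with hMd
  have hMs : Mᵀ = M := by rw [hMd, transpose_mul, transpose_transpose]
  have e0 : P * M * P = M * P := by
    have : (1 - P) * (M * P) = 0 := by
      have h := congrArg transpose hM
      rw [hMs, transpose_add, transpose_mul, hMs, transpose_sub, hP, transpose_one] at h
      have h2 : M * P = P * M := add_right_cancel (hM.symm.trans h)
      rw [h2, ← mul_assoc, sub_mul, one_mul, hPP, sub_self, zero_mul]
    rw [sub_mul, one_mul, sub_eq_zero] at this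
    rw [mul_assoc, ← this]
  have e1 : ∀ A : Finset ι, φ ⬝ᵥ tn A (1 - P) (M * P) *ᵥ φ =
      tn A (1 - P) (S * P) *ᵥ φ ⬝ᵥ tn A (1 - P) (S * P) *ᵥ φ := fun A => by
    rw [dot_tr, tn_transpose, tn_mul, transpose_mul, hP, transpose_sub, hP, transpose_one,
      mul_assoc P, ← mul_assoc Sᵀ, ← hMd, ← mul_assoc, e0]
    congr 3
    rw [sub_mul, mul_sub, mul_sub, hPP]; simp
  have e2 : ten (fun _ : ι => M) = ∑ A : Finset ι, tn A (1 - P) (M * P) := by
    rw [show (fun _ : ι => M) = fun _ => (1 - P) + M * P from funext fun _ => by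
      rw [add_comm]; exact hM, ten_add]
    rfl
  have e3 : ∀ a : ι, tn {a} (1 - P) M =
      ∑ A : Finset ι, if a ∈ A then tn A (1 - P) (M * P) else 0 := fun a => by
    have : (fun c : ι => if c ∈ ({a} : Finset ι) then 1 - P else M) =
        fun c => (1 - P) + if c = a then 0 else M * P := funext fun c => by
      by_cases h : c = a
      · simp [h]
      · simp only [mem_singleton, h, if_false]; rw [add_comm]; exact hM
    rw [tn, this, ten_add]
    refine sum_congr rfl fun A _ => ?_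
    split_ifs with h
    · rw [tn]; congr 1; funext c
      by_cases hc : c ∈ A
      · simp [hc]
      · have : c ≠ a := fun e => hc (e ▸ h)
        simp [hc, this]
    · ext y z
      exact prod_eq_zero (mem_univ a) (by simp [h])
  simp only [e2, e3, sum_mulVec, dotProduct_sum, mul_sum]
  rw [sum_comm]
  refine sum_le_sum fun A _ => ?_
  have e4 : ∑ a, φ ⬝ᵥ (if a ∈ A then tn A (1 - P) (M * P) else 0) *ᵥ φ =
      A.card * (φ ⬝ᵥ tn A (1 - P) (M * P) *ᵥ φ) := by
    simp [apply_ite (fun X => φ ⬝ᵥ X *ᵥ φ)]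
  rw [e4]
  by_cases h : A.card < j
  · rw [← mul_one (1 - P), ← tn_mul, ← mulVec_mulVec, hj A h]; simp
  · exact mul_le_mul_of_nonneg_right (by exact_mod_cast not_lt.1 h) (e1 A ▸ dot_self_nonneg _)

/-- the quadratic form estimate for `k` balls -/
theorem main_form [Nonempty V] {p : Ω → ℝ} (hp : ∀ ω, 0 ≤ p ω)
    (g : Ω → Perm V) {S P : Matrix V V ℝ} (hP : Pᵀ = P) (hPP : P * P = P)
    (hM : Sᵀ * S = Sᵀ * S * P + (1 - P)) (hS : ∀ u, u ⬝ᵥ u ≤ S *ᵥ u ⬝ᵥ S *ᵥ u)
    {α β b : ℝ} (hβ : 0 ≤ β) (hb : 0 ≤ b) (hbk : Fintype.card ι * b ≤ 1)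
    (hL : ∀ u : V → ℝ, ∑ v, u v = 0 → u ⬝ᵥ (∑ ω, p ω • (Sᵀ * S * (pm (g ω) - 1))) *ᵥ u ≤
      u ⬝ᵥ ((-α) • (Sᵀ * S) + (-β) • (1 - P)) *ᵥ u)
    {r : Ω → V → ℝ} (hr1 : ∀ ω v, ∑ w, |(Sᵀ * S * (pm (g ω) - 1)) v w| ≤ r ω v)
    (hr2 : ∀ ω v, ∑ w, |(Sᵀ * S * (pm (g ω) - 1)) w v| ≤ r ω v)
    (hr : ∀ (T : Finset ι) (y : ι → V), Set.InjOn y T → ∑ ω, p ω * ∏ a ∈ T, r ω (y a) ≤ b ^ T.card)
    {φ : (ι → V) → ℝ} (h1 : ∀ y, φ y ≠ 0 → Injective y)
    (h2 : ∀ a y, ∑ v, φ (update y a v) = 0) {j : ℕ}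
    (hj : ∀ A : Finset ι, A.card < j → tn A 1 P *ᵥ φ = 0) :
    φ ⬝ᵥ ten (fun _ => Sᵀ * S) *ᵥ (Kup p (fun ω y a => g ω (y a)) φ) ≤
      (1 - (α * Fintype.card ι + β * j - (Fintype.card ι * b) ^ 2)) *
        (φ ⬝ᵥ ten (fun _ => Sᵀ * S) *ᵥ φ) := by
  set M := Sᵀ * S with hMd
  set B := φ ⬝ᵥ ten (fun _ => M) *ᵥ φ with hB
  set k : ℝ := (Fintype.card ι : ℝ) with hk
  have eS : ∀ (T : Finset ι) (H : Matrix V V ℝ), φ ⬝ᵥ tn T H M *ᵥ φ =
      tn T 1 S *ᵥ φ ⬝ᵥ tn T H 1 *ᵥ (tn T 1 S *ᵥ φ) := fun T H => by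
    rw [mulVec_mulVec, dot_tr, tn_transpose, tn_mul, tn_mul]; simp [hMd]
  have nS : ∀ T : Finset ι, tn T 1 S *ᵥ φ ⬝ᵥ tn T 1 S *ᵥ φ ≤ B := fun T => by
    refine (norm_tn_ge hS T _).trans_eq ?_
    rw [mulVec_mulVec, dot_tr, tn_mul, tn_transpose, tn_mul]
    simp [hB, hMd, tn_same]
  have B0 : 0 ≤ B := (dot_self_nonneg _).trans (nS ∅)
  set E : Finset ι → ℝ := fun T => ∑ ω, p ω * (φ ⬝ᵥ tn T (M * (pm (g ω) - 1)) M *ᵥ φ) with hE
  have e1 : φ ⬝ᵥ ten (fun _ => M) *ᵥ (Kup p (fun ω y a => g ω (y a)) φ) = ∑ T, E T := by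
    have : Kup p (fun ω y a => g ω (y a)) φ = ∑ ω, p ω • ten (fun _ : ι => pm (g ω)) *ᵥ φ := by
      funext y; simp [Kup_apply, ten_pm]
    rw [this, mulVec_sum, dotProduct_sum, hE, sum_comm]
    refine sum_congr rfl fun ω _ => ?_
    rw [mulVec_smul, dotProduct_smul, smul_eq_mul, ← mul_sum, mulVec_mulVec, ten_mul,
      show (fun _ : ι => M * pm (g ω)) = fun _ => M * (pm (g ω) - 1) + M from
        funext fun _ => by rw [mul_sub]; simp, ten_add, sum_mulVec, dotProduct_sum]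
    rfl
  have a1 : ∀ T, E T ≤ b ^ T.card * B := fun T => by
    simp only [hE, eS]
    refine (schur hp _ (r := b ^ T.card) (fun y hy => ?_) fun y hy => ?_).trans
      (mul_le_mul_of_nonneg_left (nS T) (by positivity))
    · refine le_trans (sum_le_sum fun ω _ => mul_le_mul_of_nonneg_left ?_ (hp ω))
        (hr T y (supp_tn S h1 hy))
      rw [row_tn]
      exact prod_le_prod (fun _ _ => by positivity) fun a _ => hr1 ω _
    · refine le_trans (sum_le_sum fun ω _ => mul_le_mul_of_nonneg_left ?_ (hp ω))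
        (hr T y (supp_tn S h1 hy))
      rw [col_tn]
      exact prod_le_prod (fun _ _ => by positivity) fun a _ => hr2 ω _
  have a2 : ∀ a, E {a} ≤ -α * B - β * (φ ⬝ᵥ tn {a} (1 - P) M *ᵥ φ) := fun a => by
    have := form_single_le a (φ := tn {a} 1 S *ᵥ φ) fun y => hL _ (marg_tn a S (h2 a) y)
    rw [← eS, ← eS] at this
    simp only [tn_single_sum, tn_single_add, tn_single_smul, tn_same, sum_mulVec, dotProduct_sum,
      smul_mulVec, add_mulVec, dotProduct_add, dotProduct_smul, smul_eq_mul] at this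
    simp only [hE]; linarith
  have a3 := pattern hP hPP hM hj
  rw [← hMd, ← hB] at a3
  have a4 : ∑ T, (b ^ T.card * B - E T) ≥ ∑ a : ι, (b * B - E {a}) := by
    have := sum_le_sum_of_subset_of_nonneg (subset_univ (univ.map ⟨fun a : ι => ({a} : Finset ι),
      singleton_injective⟩)) (f := fun T => b ^ T.card * B - E T) fun T _ _ => sub_nonneg.2 (a1 T)
    simpa using this
  have a5 : ∑ a, E {a} ≤ -α * k * B - β * (j * B) := by
    refine (sum_le_sum fun a _ => a2 a).trans ?_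
    rw [sum_sub_distrib, sum_const, card_univ, nsmul_eq_mul, ← mul_sum, ← hk]
    nlinarith [mul_le_mul_of_nonneg_left a3 hβ]
  have a6 : (1 + b) ^ Fintype.card ι ≤ 1 + k * b + (k * b) ^ 2 := by
    have h := Real.abs_exp_sub_one_sub_id_le (x := k * b) (by rwa [abs_of_nonneg (by positivity)])
    have h' : (1 + b) ^ Fintype.card ι ≤ Real.exp (k * b) := by
      rw [hk, Real.exp_nat_mul]
      exact pow_le_pow_left₀ (by positivity) (by linarith [Real.add_one_le_exp b]) _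
    linarith [(abs_le.1 h).2]
  rw [sum_sub_distrib, sum_sub_distrib, ← sum_mul, sum_pow_card, sum_const, card_univ,
    nsmul_eq_mul, ← hk] at a4
  rw [e1]
  nlinarith

end Pool.Agent.P.MP_c47a54_pr
end

-- part Pool.Agent.P.MP_c47a54_pr.Lev
section

namespace Pool.Agent.P.MP_c47a54_pr

open Equiv Finset Module WithLp
open scoped RealInnerProductSpace

variable {V : Type} [Fintype V] [DecidableEq V]

/-- functions on permutations orthogonal to all functions of `k` balls -/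
def Hi (V : Type) [Fintype V] [DecidableEq V] (k : ℕ) : Submodule ℝ (Perm V → ℝ) where
  carrier := {w | ∀ A : Finset V, A.card + k = Fintype.card V → ∀ η, ∑ u ∈ Gam A, w (η * u) = 0}
  add_mem' := fun ha hb A hA η => by simp [sum_add_distrib, ha A hA η, hb A hA η]
  zero_mem' := fun A hA η => by simp
  smul_mem' := fun c w hw A hA η => by simp [← mul_sum, hw A hA η]

lemma mem_Hi {k : ℕ} {w : Perm V → ℝ} : w ∈ Hi V k ↔
    ∀ A : Finset V, A.card + k = Fintype.card V → ∀ η, ∑ u ∈ Gam A, w (η * u) = 0 := Iff.rfl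

/-- `Hi` is stable under left translations -/
lemma left_mem_Hi {k : ℕ} {w : Perm V → ℝ} (hw : w ∈ Hi V k) (g : Perm V) :
    (fun η => w (g * η)) ∈ Hi V k := fun A hA η => by
  simpa only [mul_assoc] using hw A hA (g * η)

abbrev EP (V : Type) := EuclideanSpace ℝ (Perm V)

/-- the right regular representation -/
def rho (V : Type) [Fintype V] [DecidableEq V] : Representation ℝ (Perm V) (EP V) where
  toFun u :=
    { toFun := fun w => toLp 2 fun η => w (η * u)
      map_add' := fun _ _ => rfl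
      map_smul' := fun _ _ => rfl }
  map_one' := by ext w η; simp
  map_mul' u v := by ext w η; simp [mul_assoc]

lemma rho_apply (u : Perm V) (w : EP V) (η : Perm V) : rho V u w η = w (η * u) := rfl

lemma inner_EP (x y : EP V) : ⟪x, y⟫ = ∑ η, x η * y η := by
  simp [PiLp.inner_apply, mul_comm]

lemma norm_sq_EP (x : EP V) : ‖x‖ ^ 2 = x.ofLp ⬝ᵥ x.ofLp := by
  rw [← real_inner_self_eq_norm_sq, inner_EP]; rfl

lemma orth_rho : Orth (rho V) := fun u x y => by
  simp only [inner_EP, rho_apply]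
  exact (sum_equiv (Equiv.mulRight u) (by simp) fun η _ => by simp)

lemma Q_rho_apply (A : Finset V) (w : EP V) (η : Perm V) :
    Q (rho V) A w η = ((Gam A).card : ℝ)⁻¹ * ∑ u ∈ Gam A, w (η * u) := by
  simp [Q, LinearMap.sum_apply, rho_apply]

lemma Zt_rho_apply (w : EP V) (η : Perm V) :
    Zt (rho V) w η = ∑ x ∈ (univ : Finset V).offDiag, w (η * swap x.1 x.2) := by
  simp [Zt, LinearMap.sum_apply, rho_apply]

/-- `Hi` inside the Euclidean space -/
def HiE (V : Type) [Fintype V] [DecidableEq V] (k : ℕ) : Submodule ℝ (EP V) :=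
  (Hi V k).comap (WithLp.linearEquiv 2 ℝ (Perm V → ℝ)).toLinearMap

lemma mem_HiE {k : ℕ} {w : EP V} : w ∈ HiE V k ↔ w.ofLp ∈ Hi V k := Iff.rfl

lemma mem_HiE' {k : ℕ} {w : EP V} :
    w ∈ HiE V k ↔ ∀ A : Finset V, A.card + k = Fintype.card V → Q (rho V) A w = 0 := by
  rw [mem_HiE, mem_Hi]
  refine forall₂_congr fun A hA => ⟨fun h => ?_, fun h η => ?_⟩
  · ext η; rw [Q_rho_apply, h η]; simp
  · have := congrArg (fun x : EP V => x η) h
    simpa [Q_rho_apply, (card_Gam_pos A).ne'] using this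

lemma HiE_inv (k : ℕ) (g : Perm V) : HiE V k ≤ (HiE V k).comap (rho V g) := fun w hw => by
  rw [Submodule.mem_comap, mem_HiE'] at *
  intro A hA
  have := Q_conj (ρ := rho V) g (A.map g⁻¹.toEmbedding)
  have e : (A.map g⁻¹.toEmbedding).map g.toEmbedding = A := by ext v; simp [Perm.inv_def]
  rw [e] at this
  rw [← End.mul_apply, ← this, End.mul_apply, hw _ (by simpa using hA), map_zero]

/-- sums over all transpositions are central -/
lemma sum_swap_left (w : Perm V → ℝ) (η : Perm V) :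
    ∑ x ∈ (univ : Finset V).offDiag, w (η * swap x.1 x.2) =
      ∑ x ∈ (univ : Finset V).offDiag, w (swap x.1 x.2 * η) :=
  sum_equiv (Equiv.prodCongr η η) (fun x => by simp) fun x _ => by
    rw [mul_swap_eq_swap_mul]; rfl

/-- spectral gap of random transpositions on `Hi k` -/
theorem gap_Hi {k : ℕ} (hk : k + 2 ≤ Fintype.card V) {w : Perm V → ℝ} (hw : w ∈ Hi V k) :
    ∑ x ∈ (univ : Finset V).offDiag, ∑ η, w (swap x.1 x.2 * η) * w η ≤
      (Fintype.card V * (Fintype.card V - 1) - Fintype.card V * (k + 1)) * (w ⬝ᵥ w) := by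
  have h := (orth_rho.sub (HiE_inv (V := V) k)).gap_Zt hk (fun A hA => LinearMap.ext fun x =>
    Subtype.ext (by rw [Q_sub]; exact mem_HiE'.1 x.2 A hA)) ⟨toLp 2 w, hw⟩
  rw [Submodule.coe_inner, Zt_sub, inner_EP, Submodule.coe_norm, norm_sq_EP] at h
  simp only [Zt_rho_apply, sum_swap_left, sum_mul] at h
  rwa [sum_comm]

end Pool.Agent.P.MP_c47a54_pr
end

-- part Pool.Agent.P.MP_c47a54_pr.LowX
section

namespace Pool.Agent.P.MP_c47a54_pr

open Filter Equiv Finset

namespace LowX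

section general

variable {S : Type} [Fintype S]

/-- a test function bounds total variation from below -/
lemma tv_ge [DecidableEq S] (p : S → ℝ) (hp : ∑ y, p y = 1) (A : Finset S) (hA : A.Nonempty)
    (φ : S → ℝ) (h0 : ∀ y, 0 ≤ φ y) (h1 : ∀ y, φ y ≤ 1) :
    ∑ y, φ y * p y - (∑ y ∈ A, φ y) / A.card ≤ tv p A := by
  have hc : (0 : ℝ) < A.card := by exact_mod_cast hA.card_pos
  set π : S → ℝ := fun y => if y ∈ A then 1 / (A.card : ℝ) else 0 with hπ
  have hs : ∑ y, π y = 1 := by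
    simp only [hπ]
    rw [sum_ite_mem, univ_inter, sum_const, nsmul_eq_mul]
    field_simp
  have e1 : (∑ y ∈ A, φ y) / A.card = ∑ y, φ y * π y := by
    simp only [hπ, mul_ite, mul_zero]
    rw [sum_ite_mem, univ_inter, sum_div]
    exact sum_congr rfl fun y _ => by ring
  have e2 : ∑ y, φ y * p y - ∑ y, φ y * π y = ∑ y, (φ y - 1 / 2) * (p y - π y) := by
    simp only [sub_mul, mul_sub, sum_sub_distrib, ← mul_sum, hp, hs]
    ring
  rw [e1, e2, tv, mul_sum]
  refine sum_le_sum fun y _ => ?_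
  refine (le_abs_self _).trans ?_
  rw [abs_mul]
  refine mul_le_mul_of_nonneg_right ?_ (abs_nonneg _)
  rw [abs_le]; constructor <;> linarith [h0 y, h1 y]

/-- Chebyshev's inequality for a Markov operator -/
lemma cheb {P : Op S} (hP : Markov P) (x : S) (F G φ : S → ℝ) {m B : ℝ} (hm : 0 < m)
    (h1 : P F x = m) (h2 : P (fun y => F y ^ 2) x ≤ m ^ 2 + B) (hG : P G x ≤ 0)
    (hφ : ∀ y, 1 - 4 / m ^ 2 * (F y - m) ^ 2 - G y ≤ φ y) : 1 - 4 / m ^ 2 * B ≤ P φ x := by
  refine le_trans ?_ (hP.mono _ _ hφ x)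
  have e : (fun y => 1 - 4 / m ^ 2 * (F y - m) ^ 2 - G y) =
      fun y => ((1 - 4 / m ^ 2 * m ^ 2) + (-(4 / m ^ 2)) * F y ^ 2 + (8 / m ^ 2 * m) * F y) - G y := by
    funext y; ring
  rw [e, op_sub, op_add, op_add, op_cmul, op_cmul, hP.const, h1]
  have : 0 ≤ 4 / m ^ 2 := by positivity
  have h3 := mul_le_mul_of_nonneg_left h2 this
  have e2 : 8 / m ^ 2 * m * m = 2 * (4 / m ^ 2 * m ^ 2) := by ring
  rw [e2]
  rw [mul_add] at h3
  linarith

lemma cheb_pt {F m : ℝ} (hm : 0 < m) :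
    1 - 4 / m ^ 2 * (F - m) ^ 2 ≤ if m / 2 ≤ F then 1 else 0 := by
  have h0 : 0 ≤ 4 / m ^ 2 * (F - m) ^ 2 := by positivity
  split_ifs with h
  · linarith
  · have h1 : m ^ 2 ≤ 4 * (F - m) ^ 2 := by nlinarith
    have h2 : 1 ≤ 4 / m ^ 2 * (F - m) ^ 2 := by
      rw [div_mul_eq_mul_div, le_div_iff₀ (by positivity)]; linarith
    linarith

end general

section perms

variable {α : Type} [Fintype α] [DecidableEq α]

lemma sum_perm_one (g : α → ℝ) (b : α) :
    (Fintype.card α : ℝ) * ∑ η : Perm α, g (η b) = Fintype.card (Perm α) * ∑ c, g c := by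
  have h : ∀ b' : α, ∑ η : Perm α, g (η b') = ∑ η : Perm α, g (η b) := fun b' =>
    Fintype.sum_equiv (Equiv.mulRight (swap b b')) _ _ fun η => by simp
  calc (Fintype.card α : ℝ) * ∑ η : Perm α, g (η b) = ∑ b' : α, ∑ η : Perm α, g (η b') := by
        simp [h]
    _ = ∑ η : Perm α, ∑ c, g c := by
        rw [sum_comm]
        exact sum_congr rfl fun η _ => Equiv.sum_comp η g
    _ = _ := by simp

lemma sum_perm_sq (hN : 2 ≤ Fintype.card α) (a β : α → ℝ) (hβ : ∑ c, β c = 0) :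
    (Fintype.card α : ℝ) * ∑ η : Perm α, (∑ b, a b * β (η b)) ^ 2 ≤
      2 * Fintype.card (Perm α) * (∑ b, a b ^ 2) * ∑ c, β c ^ 2 := by
  set N : ℝ := (Fintype.card α : ℝ) with hNdef
  have hN2 : (2 : ℝ) ≤ N := by rw [hNdef]; exact_mod_cast hN
  set T0 : ℝ := Fintype.card (Perm α) * (∑ c, β c ^ 2) / N with hT0
  have hT00 : 0 ≤ T0 := by positivity
  set T : α → α → ℝ := fun b b' => ∑ η : Perm α, β (η b) * β (η b') with hT
  have hd : ∀ b, T b b = T0 := by
    intro b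
    have := sum_perm_one (fun c => β c ^ 2) b
    rw [hT0, eq_div_iff (by positivity), ← this, mul_comm]
    simp only [hT, sq]; rfl
  have ho : ∀ b b', b' ≠ b → T b b' = -(T0 / (N - 1)) := by
    intro b b' hb
    have h1 : ∀ c, c ≠ b → T b c = T b b' := fun c hc =>
      Fintype.sum_equiv (Equiv.mulRight (swap c b')) _ _ fun η => by
        simp [swap_apply_of_ne_of_ne hc.symm hb.symm]
    have h2 : ∑ c, T b c = 0 := by
      simp only [hT]
      rw [sum_comm]
      refine sum_eq_zero fun η _ => ?_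
      rw [← mul_sum, Equiv.sum_comp η β, hβ, mul_zero]
    rw [← add_sum_erase _ _ (mem_univ b), hd,
      sum_congr rfl fun c hc => h1 c (ne_of_mem_erase hc), sum_const, card_erase_of_mem (mem_univ b),
      card_univ, nsmul_eq_mul, Nat.cast_sub (by omega), ← hNdef] at h2
    have : N - 1 ≠ 0 := by linarith
    field_simp
    push_cast at h2
    linarith
  set T1 : ℝ := T0 / (N - 1) with hT1
  have hT10 : 0 ≤ T1 := div_nonneg hT00 (by linarith)
  have hT1le : T1 ≤ T0 := div_le_self hT00 (by linarith)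
  have e : ∑ η : Perm α, (∑ b, a b * β (η b)) ^ 2 = ∑ b, ∑ b', a b * a b' * T b b' := by
    simp only [sq, sum_mul_sum]
    simp only [hT, mul_sum]
    rw [sum_comm]
    refine sum_congr rfl fun b _ => ?_
    rw [sum_comm]
    exact sum_congr rfl fun b' _ => sum_congr rfl fun η _ => by ring
  have e2 : ∀ b b', a b * a b' * T b b' =
      (if b' = b then (T0 + T1) * a b ^ 2 else 0) - T1 * (a b * a b') := by
    intro b b'
    split_ifs with hb
    · subst hb; rw [hd]; ring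
    · rw [ho b b' hb]; ring
  have e3 : ∑ b, ∑ b', a b * a b' * T b b' = (T0 + T1) * ∑ b, a b ^ 2 - T1 * (∑ b, a b) ^ 2 := by
    simp only [e2, sum_sub_distrib, sum_ite_eq', mem_univ, if_true, ← mul_sum]
    rw [sq (∑ b, a b), sum_mul]
  have hs : 0 ≤ ∑ b, a b ^ 2 := by positivity
  have e4 : 2 * Fintype.card (Perm α) * (∑ b, a b ^ 2) * ∑ c, β c ^ 2 =
      N * (2 * T0 * ∑ b, a b ^ 2) := by
    rw [hT0]; field_simp
  rw [e, e3, e4]
  refine mul_le_mul_of_nonneg_left ?_ (by linarith)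
  nlinarith [mul_nonneg hT10 (sq_nonneg (∑ b, a b)), mul_le_mul_of_nonneg_right hT1le hs]

end perms

variable {d n : ℕ} {μ : Perm (Fin d) → ℝ}

lemma one_mem_spaceX : (1 : Perm (Slot d n)) ∈ spaceX μ n := by
  simp [spaceX]

lemma card_slot : Fintype.card (Slot d n) = d * n := by simp

lemma unif_le (h : Hyp μ) (hn : 0 < n) (φ : Perm (Slot d n) → ℝ) (h0 : ∀ y, 0 ≤ φ y) :
    (∑ y ∈ spaceX μ n, φ y) / (spaceX μ n).card ≤
      2 * (∑ y, φ y) / Fintype.card (Perm (Slot d n)) := by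
  have : Nontrivial (Slot d n) := by
    rw [← Fintype.one_lt_card_iff_nontrivial, card_slot]
    nlinarith [h.two]
  have h1 : Fintype.card (Perm (Slot d n)) ≤ 2 * (spaceX μ n).card := by
    rw [← two_mul_card_alternatingGroup]
    refine Nat.mul_le_mul_left 2 ?_
    rw [← Fintype.card_coe]
    refine Fintype.card_le_of_injective (fun η => ⟨η.1, ?_⟩) fun a b hab =>
      Subtype.ext (congrArg (fun z : spaceX μ n => z.1) hab)
    simp only [spaceX, mem_filter, mem_univ, true_and]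
    exact fun _ => η.2
  have h2 : (0 : ℝ) < (spaceX μ n).card := by
    exact_mod_cast Finset.card_pos.2 ⟨1, one_mem_spaceX⟩
  have h3 : (0 : ℝ) < Fintype.card (Perm (Slot d n)) := by exact_mod_cast Fintype.card_pos
  have h4 : ∑ y ∈ spaceX μ n, φ y ≤ ∑ y, φ y :=
    sum_le_sum_of_subset_of_nonneg (subset_univ _) fun y _ _ => h0 y
  have h5 : 0 ≤ ∑ y ∈ spaceX μ n, φ y := sum_nonneg fun y _ => h0 y
  have h6 : (Fintype.card (Perm (Slot d n)) : ℝ) ≤ 2 * (spaceX μ n).card := by exact_mod_cast h1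
  rw [div_le_div_iff₀ h2 h3]
  nlinarith

lemma tvX_ge (h : Hyp μ) (hn : 0 < n) {t : ℝ} (ht : 0 ≤ t) (φ : Perm (Slot d n) → ℝ)
    (h0 : ∀ y, 0 ≤ φ y) (h1 : ∀ y, φ y ≤ 1) :
    Pt (KX μ n) t φ 1 - 2 * (∑ y, φ y) / Fintype.card (Perm (Slot d n)) ≤
      tv (heat (jumpX μ n) t 1) (spaceX μ n) := by
  have hs : ∀ ψ : Perm (Slot d n) → ℝ,
      ∑ y, ψ y * heat (jumpX μ n) t 1 y = Pt (KX μ n) t ψ 1 := fun ψ => by
    rw [op_eq_sum (Pt (KX μ n) t) ψ 1]; simp only [heatX_eq]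
  have hp : ∑ y, heat (jumpX μ n) t 1 y = 1 := by
    have := hs fun _ => 1
    rw [((markov_KX h hn).pt ht).const] at this
    simpa using this
  have := tv_ge _ hp (spaceX μ n) ⟨1, one_mem_spaceX⟩ φ h0 h1
  rw [hs] at this
  linarith [unif_le h hn φ h0]

lemma sum_wt_sel (hn : 0 < n) (i : Fin d) (f : Perm (Fin d) → ℝ) (g : Fin n → ℝ) :
    ∑ ω : Om d n, wt μ n ω * (f ω.1 * g (ω.2 i)) = (∑ σ, μ σ * f σ) * (∑ a, g a) / n := by
  have hn' : (n : ℝ) ≠ 0 := by positivity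
  have h1 : (n : ℝ) * ∑ j : Fin d → Fin n, g (j i) = (n : ℝ) ^ d * ∑ a, g a := by
    have e : ∀ j : Fin d → Fin n, g (j i) = ∑ a, if j i = a then g a else 0 := fun j => by simp
    simp only [e]
    rw [sum_comm, mul_sum, mul_sum]
    refine sum_congr rfl fun a _ => ?_
    rw [sum_sel i a (fun _ => g a) fun _ _ => rfl]
    simp
  rw [Fintype.sum_prod_type, sum_mul, sum_div]
  refine sum_congr rfl fun σ _ => ?_
  simp only [wt, ← mul_assoc, ← mul_sum]
  rw [eq_div_iff hn', mul_assoc _ _ (n : ℝ), mul_comm _ (n : ℝ), h1]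
  field_simp

/-- the chain that also records the slots of urn `i` that were never really moved -/
def updR (i : Fin d) (ω : Om d n) (z : Perm (Slot d n) × Finset (Fin n)) :
    Perm (Slot d n) × Finset (Fin n) :=
  (mv ω * z.1, if ω.1 i = i then z.2 else z.2.erase (ω.2 i))

lemma KR_card (h : Hyp μ) (hn : 0 < n) (i : Fin d) (φ : ℕ → ℝ)
    (z : Perm (Slot d n) × Finset (Fin n)) :
    Kup (wt μ n) (updR i) (fun z => φ z.2.card) z =
      φ z.2.card + (1 - urnMat μ i i) * z.2.card / n * (φ (z.2.card - 1) - φ z.2.card) := by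
  have e : ∀ ω : Om d n, φ (updR i ω z).2.card = φ z.2.card +
      (φ (z.2.card - 1) - φ z.2.card) *
        ((if ω.1 i = i then 0 else 1) * (if ω.2 i ∈ z.2 then 1 else 0)) := by
    intro ω
    simp only [updR]
    split_ifs with h1 h2 h2
    · simp
    · simp
    · rw [card_erase_of_mem h2]; simp
    · rw [erase_eq_of_notMem h2]; simp
  have e2 : ∑ σ, μ σ * (if σ i = i then 0 else 1) = 1 - urnMat μ i i := by
    rw [eq_sub_iff_add_eq, urnMat, ← sum_add_distrib]
    exact (sum_congr rfl fun σ _ => by split_ifs <;> simp).trans h.sum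
  rw [Kup_apply]
  simp only [e, mul_add, sum_add_distrib, ← sum_mul, wt_sum h hn, one_mul,
    mul_left_comm (wt μ n _) (φ (z.2.card - 1) - φ z.2.card), ← mul_sum]
  rw [sum_wt_sel hn i (fun σ => if σ i = i then 0 else 1) (fun a => if a ∈ z.2 then 1 else 0), e2]
  simp only [sum_ite_mem, univ_inter, sum_const, nsmul_eq_mul, mul_one]
  ring

lemma q_part (h : Hyp μ) (hn : 0 < n) (i : Fin d) {t : ℝ} (ht : 0 ≤ t) :
    1 - 8 / (n * Real.exp (-((1 - urnMat μ i i) * t / n))) ≤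
      tv (heat (jumpX μ n) t 1) (spaceX μ n) := by
  classical
  set q := 1 - urnMat μ i i with hq
  set m : ℝ := n * Real.exp (-(q * t / n)) with hmdef
  have hn' : (0 : ℝ) < n := by exact_mod_cast hn
  have hm : 0 < m := by positivity
  set K := Kup (wt μ n) (updR (n := n) i) with hK
  have hM : Markov K := markov_Kup (wt_nonneg h) (wt_sum h hn) _
  set z0 : Perm (Slot d n) × Finset (Fin n) := (1, univ) with hz0
  set Fx : Perm (Slot d n) → ℝ := fun η => ∑ a, if η (i, a) = (i, a) then 1 else 0 with hFx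
  set φ : Perm (Slot d n) → ℝ := fun η => if m / 2 ≤ Fx η then 1 else 0 with hφ
  set G : Perm (Slot d n) × Finset (Fin n) → ℝ :=
    fun z => if ∀ a ∈ z.2, z.1 (i, a) = (i, a) then 0 else 1 with hG
  have h1 : Pt K t (fun z => (z.2.card : ℝ)) z0 = m := by
    rw [Pt_eigen K (l := 1 - q / n) (fun z => ?_) t z0]
    · simp only [hz0, card_univ, Fintype.card_fin, hmdef]
      rw [mul_comm]; congr 2; ring
    · rw [KR_card h hn i (fun k => (k : ℝ)) z, ← hq]
      rcases Nat.eq_zero_or_pos z.2.card with h0 | h0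
      · simp [h0]
      · rw [Nat.cast_sub h0]; push_cast; ring
  have h2 : Pt K t (fun z => (z.2.card : ℝ) * (z.2.card - 1)) z0 ≤ m ^ 2 := by
    rw [Pt_eigen K (l := 1 - 2 * q / n) (fun z => ?_) t z0]
    · simp only [hz0, card_univ, Fintype.card_fin, hmdef]
      rw [mul_pow, ← Real.exp_nat_mul, show t * (1 - 2 * q / n - 1) = (2 : ℕ) * -(q * t / n) by
        push_cast; ring, mul_comm]
      exact mul_le_mul_of_nonneg_right (by nlinarith) (Real.exp_pos _).le
    · rw [KR_card h hn i (fun k => (k : ℝ) * (k - 1)) z, ← hq]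
      rcases Nat.eq_zero_or_pos z.2.card with h0 | h0
      · simp [h0]
      · rw [Nat.cast_sub h0]; push_cast; ring
  have h3 : Pt K t (fun z => (z.2.card : ℝ) ^ 2) z0 ≤ m ^ 2 + m := by
    have e : (fun z : Perm (Slot d n) × Finset (Fin n) => (z.2.card : ℝ) ^ 2) =
        fun z => (z.2.card : ℝ) * (z.2.card - 1) + z.2.card := by funext z; ring
    rw [e, op_add, h1]; linarith
  have hG0 : ∀ z, 0 ≤ G z := fun z => by simp only [hG]; split_ifs <;> norm_num
  have hG1 : ∀ z, G z ≤ 1 := fun z => by simp only [hG]; split_ifs <;> norm_num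
  have h4 : Pt K t G z0 ≤ 0 := by
    refine (hM.pt_le ht (fun z => ?_) z0).trans (by simp [hG, hz0])
    by_cases hz : ∀ a ∈ z.2, z.1 (i, a) = (i, a)
    · have : ∀ ω, G (updR i ω z) = 0 := by
        intro ω
        simp only [hG]
        rw [if_pos]
        intro a ha
        simp only [updR] at ha ⊢
        by_cases hσ : ω.1 i = i
        · rw [if_pos hσ] at ha
          rw [Perm.mul_apply, hz a ha, move_apply]
          split_ifs with h5
          · simp only at h5; rw [hσ, h5]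
          · rfl
        · rw [if_neg hσ, mem_erase] at ha
          rw [Perm.mul_apply, hz a ha.2, move_of_ne _ ha.1]
      rw [hK, Kup_apply]
      simp only [this, mul_zero, sum_const_zero]
      exact hG0 z
    · refine (hM.le_const hG1 z).trans ?_
      simp only [hG]; rw [if_neg hz]
  have h5 := cheb (hM.pt ht) z0 _ G (fun z => φ z.1) hm h1 h3 h4 fun z => by
    have h6 := cheb_pt (F := (z.2.card : ℝ)) hm
    by_cases hz : ∀ a ∈ z.2, z.1 (i, a) = (i, a)
    · have h7 : (z.2.card : ℝ) ≤ Fx z.1 := by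
        simp only [hFx]
        rw [sum_boole]
        exact_mod_cast card_le_card fun a ha => by simp [hz a ha]
      refine (sub_le_self _ (hG0 z)).trans (h6.trans ?_)
      simp only [hφ]
      split_ifs with h8 h9 h9
      · rfl
      · exact absurd (h8.trans h7) h9
      · norm_num
      · rfl
    · have h7 : G z = 1 := by simp only [hG]; rw [if_neg hz]
      have h8 : 0 ≤ φ z.1 := by simp only [hφ]; split_ifs <;> norm_num
      have h9 : 0 ≤ 4 / m ^ 2 * ((z.2.card : ℝ) - m) ^ 2 := by positivity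
      linarith
  rw [Pt_comp (K' := KX μ n) (ρ := Prod.fst) (Kup_comp _ fun _ _ => rfl) t φ z0] at h5
  have h6 := tvX_ge h hn ht φ (fun y => by simp only [hφ]; split_ifs <;> norm_num)
    (fun y => by simp only [hφ]; split_ifs <;> norm_num)
  have h7 : ∑ y, φ y ≤ 2 / m * ∑ y, Fx y := by
    rw [mul_sum]
    refine sum_le_sum fun y _ => ?_
    have : 0 ≤ Fx y := sum_nonneg fun a _ => by split_ifs <;> norm_num
    simp only [hφ]
    split_ifs with h8
    · rw [div_mul_eq_mul_div, le_div_iff₀ hm]; linarith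
    · positivity
  have hc : (0 : ℝ) < Fintype.card (Perm (Slot d n)) := by exact_mod_cast Fintype.card_pos
  have h8 : ∑ y, Fx y ≤ Fintype.card (Perm (Slot d n)) := by
    have h9 : (Fintype.card (Slot d n) : ℝ) * ∑ y, Fx y = Fintype.card (Perm (Slot d n)) * n := by
      simp only [hFx]
      rw [sum_comm, mul_sum]
      rw [sum_congr rfl fun a _ => sum_perm_one (fun c => if c = (i, a) then (1 : ℝ) else 0) (i, a)]
      simp [mul_comm]
    rw [card_slot] at h9
    have h10 : (2 : ℝ) ≤ d := by exact_mod_cast h.two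
    have h11 : 0 ≤ ∑ y, Fx y :=
      sum_nonneg fun y _ => sum_nonneg fun a _ => by split_ifs <;> norm_num
    push_cast at h9
    have h12 : (d : ℝ) * ∑ y, Fx y = Fintype.card (Perm (Slot d n)) := by
      apply mul_left_cancel₀ hn'.ne'
      linarith
    nlinarith
  have h9 : 2 * (∑ y, φ y) / Fintype.card (Perm (Slot d n)) ≤ 4 / m := by
    rw [div_le_iff₀ hc]
    have := mul_le_mul_of_nonneg_left h8 (by positivity : 0 ≤ 2 / m)
    have e : 4 / m = 2 * (2 / m) := by ring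
    rw [e]; linarith
  have e1 : 4 / m ^ 2 * m = 4 / m := by field_simp
  have e2 : 8 / m = 4 / m + 4 / m := by ring
  rw [e1] at h5
  rw [e2]
  simp only [hz0] at h5
  linarith

lemma sum_wt_urn (h : Hyp μ) (hn : 0 < n) (u : Fin d → ℝ) (c : Slot d n) :
    ∑ ω : Om d n, wt μ n ω * u (mv ω c).1 =
      u c.1 + (∑ j, urnMat μ c.1 j * u j - u c.1) / n := by
  have e : ∀ ω : Om d n, u (mv ω c).1 =
      u c.1 + (u (ω.1 c.1) - u c.1) * (if ω.2 c.1 = c.2 then 1 else 0) := by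
    intro ω
    rw [move_apply]
    by_cases h1 : c.2 = ω.2 c.1
    · rw [if_pos h1, if_pos h1.symm]; ring
    · rw [if_neg h1, if_neg (Ne.symm h1)]; ring
  have e2 : ∑ σ, μ σ * (u (σ c.1) - u c.1) = ∑ j, urnMat μ c.1 j * u j - u c.1 := by
    simp only [mul_sub, sum_sub_distrib, ← sum_mul, h.sum, one_mul, urnMat]
    congr 1
    simp only [sum_mul, ite_mul, zero_mul]
    rw [sum_comm]
    exact sum_congr rfl fun σ _ => by simp
  simp only [e, mul_add, sum_add_distrib, ← sum_mul, wt_sum h hn, one_mul]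
  rw [sum_wt_sel hn c.1 (fun σ => u (σ c.1) - u c.1) (fun a => if a = c.2 then 1 else 0), e2]
  simp

lemma sum_wt_eig (h : Hyp μ) (hn : 0 < n) {l : ℂ} {v : Fin d → ℂ}
    (hv : ∀ i, ∑ j, (urnMat μ i j : ℂ) * v j = l * v i) (c : Slot d n) :
    ∑ ω : Om d n, (wt μ n ω : ℂ) * v (mv ω c).1 = (1 + (l - 1) / n) * v c.1 := by
  have e : (1 + (l - 1) / n) * v c.1 = v c.1 + (l * v c.1 - v c.1) / (n : ℝ) := by
    push_cast; ring
  rw [e, ← hv]
  apply Complex.ext
  · simp only [Complex.re_sum, Complex.re_ofReal_mul, Complex.add_re, Complex.div_ofReal_re,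
      Complex.sub_re]
    exact sum_wt_urn h hn (fun i => (v i).re) c
  · simp only [Complex.im_sum, Complex.im_ofReal_mul, Complex.add_im, Complex.div_ofReal_im,
      Complex.sub_im]
    exact sum_wt_urn h hn (fun i => (v i).im) c

lemma g_part (h : Hyp μ) (hn : 0 < n) {l : ℂ} {v : Fin d → ℂ} (hv0 : v ≠ 0) (hv1 : ∑ i, v i = 0)
    (hv : ∀ i, ∑ j, (urnMat μ i j : ℂ) * v j = l * v i) (hl : l.re ≤ 1) {t : ℝ} (ht : 0 ≤ t) :
    1 - (16 * d ^ 2 * t + 64 * n) / (n * Real.exp (-((1 - l.re) * t / n))) ^ 2 ≤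
      tv (heat (jumpX μ n) t 1) (spaceX μ n) := by
  classical
  have hn' : (0 : ℝ) < n := by exact_mod_cast hn
  set V : ℝ := ∑ i, ‖v i‖ ^ 2 with hV
  have hle : ∀ i, ‖v i‖ ^ 2 ≤ V := fun i =>
    single_le_sum (f := fun i => ‖v i‖ ^ 2) (fun _ _ => by positivity) (mem_univ i)
  have hV0 : 0 < V := by
    obtain ⟨i, hi⟩ := Function.ne_iff.1 hv0
    exact lt_of_lt_of_le (pow_pos (norm_pos_iff.2 hi) 2) (hle i)
  set E : ℝ := Real.exp (-((1 - l.re) * t / n)) with hE
  have hE0 : 0 < E := Real.exp_pos _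
  set m : ℝ := n * E * V with hmdef
  have hm : 0 < m := by positivity
  set θ : ℂ := Complex.exp (-((t * l.im / n : ℝ) * Complex.I)) with hθ
  have hθ1 : ‖θ‖ = 1 := by
    rw [hθ, ← neg_mul, ← Complex.ofReal_neg, Complex.norm_exp_ofReal_mul_I]
  set u : Slot d n → ℂ := fun b => θ * (starRingEnd ℂ) (v b.1) with hu
  have hun : ∀ b, ‖u b‖ = ‖v b.1‖ := fun b => by simp [hu, hθ1]
  set w : Perm (Slot d n) → ℂ := fun η => ∑ b, u b * v (η b).1 with hw
  set L : ℂ := 1 + (l - 1) / n with hL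
  have heig : ∀ x, ∑ ω : Om d n, (wt μ n ω : ℂ) * w (mv ω * x) = L * w x := by
    intro x
    simp only [hw, mul_sum]
    rw [sum_comm]
    refine sum_congr rfl fun b _ => ?_
    rw [mul_left_comm, ← sum_wt_eig h hn hv, mul_sum]
    exact sum_congr rfl fun ω _ => by rw [Perm.mul_apply]; ring
  have hP : ∀ s x, Pt (KX μ n) s (fun y => (w y).re) x = (Complex.exp (s * (L - 1)) * w x).re :=
    fun s x => (Pt_ceigen (KX μ n) (l := L) (fun x => by
        rw [← heig, KX_apply, Complex.re_sum]; simp only [Complex.re_ofReal_mul])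
      (fun x => by
        rw [← heig, KX_apply, Complex.im_sum]; simp only [Complex.im_ofReal_mul]) s x).1
  have h1 : Pt (KX μ n) t (fun y => (w y).re) 1 = m := by
    have e1 : w 1 = θ * ((n * V : ℝ) : ℂ) := by
      simp only [hw, hu, Perm.one_apply, mul_assoc, ← mul_sum, Complex.conj_mul', hV]
      rw [Fintype.sum_prod_type]
      simp [mul_sum]
    have e2 : Complex.exp (t * (L - 1)) * θ = (E : ℂ) := by
      rw [hθ, ← Complex.exp_add, hE, Complex.ofReal_exp]
      congr 1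
      rw [hL]
      conv_lhs => rw [← Complex.re_add_im l]
      simp only [Complex.add_im, Complex.ofReal_im, Complex.mul_im, Complex.ofReal_re,
        Complex.I_im, Complex.I_re]
      push_cast
      ring
    rw [hP, e1, ← mul_assoc, e2, ← Complex.ofReal_mul, Complex.ofReal_re, hmdef]; ring
  have hjump : ∀ (ω : Om d n) x, ‖w (mv ω * x) - w x‖ ≤ 2 * d * V := by
    intro ω x
    have e1 : ∑ b, (if (x b).2 = ω.2 (x b).1 then 2 * V else 0) = 2 * d * V := by
      rw [Equiv.sum_comp x (fun c => if c.2 = ω.2 c.1 then 2 * V else 0), Fintype.sum_prod_type]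
      simp; ring
    rw [← e1]
    simp only [hw, ← sum_sub_distrib]
    refine norm_sum_le_of_le _ fun b _ => ?_
    rw [Perm.mul_apply]
    split_ifs with hb
    · rw [← mul_sub, norm_mul, hun]
      have h2 := norm_sub_le (v (mv ω (x b)).1) (v (x b).1)
      have h3 := mul_le_mul_of_nonneg_left h2 (norm_nonneg (v b.1))
      nlinarith [hle b.1, hle (mv ω (x b)).1, hle (x b).1,
        sq_nonneg (‖v b.1‖ - ‖v (mv ω (x b)).1‖), sq_nonneg (‖v b.1‖ - ‖v (x b).1‖)]
    · rw [move_of_ne _ hb]; simp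
  have h2 := var_le (wt_nonneg h) (wt_sum h hn) (fun ω η => mv ω * η) (fun y => (w y).re)
    (c := (2 * d * V) ^ 2) ht (fun s hs ω x => by
      change (Pt (KX μ n) s _ _ - Pt (KX μ n) s _ _) ^ 2 ≤ _
      rw [hP, hP, ← Complex.sub_re, ← mul_sub]
      refine sq_le_sq' (abs_le.1 ?_).1 (abs_le.1 ?_).2 <;>
      · refine (Complex.abs_re_le_norm _).trans ?_
        rw [norm_mul]
        refine (mul_le_of_le_one_left (norm_nonneg _) ?_).trans (hjump ω x)
        rw [Complex.norm_exp, Real.exp_le_one_iff, Complex.re_ofReal_mul, hL, add_sub_cancel_left,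
          Complex.div_natCast_re, Complex.sub_re, Complex.one_re]
        exact mul_nonpos_of_nonneg_of_nonpos hs (div_nonpos_of_nonpos_of_nonneg (by linarith) hn'.le)) 1
  change Pt (KX μ n) t _ _ ≤ (Pt (KX μ n) t _ _) ^ 2 + _ at h2
  rw [h1] at h2
  set φ : Perm (Slot d n) → ℝ := fun η => if m / 2 ≤ (w η).re then 1 else 0 with hφ
  have h5 := cheb ((markov_KX h hn).pt ht) 1 _ (fun _ => 0) φ hm h1 h2
    (((markov_KX h hn).pt ht).const 0 1).le fun η => by rw [sub_zero]; exact cheb_pt hm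
  have h6 := tvX_ge h hn ht φ (fun y => by simp only [hφ]; split_ifs <;> norm_num)
    (fun y => by simp only [hφ]; split_ifs <;> norm_num)
  have h7 : ∑ y, φ y ≤ 4 / m ^ 2 * ∑ y, (w y).re ^ 2 := by
    rw [mul_sum]
    refine sum_le_sum fun y _ => ?_
    simp only [hφ]
    split_ifs with h8
    · rw [div_mul_eq_mul_div, le_div_iff₀ (by positivity)]; nlinarith
    · positivity
  have hc : (0 : ℝ) < Fintype.card (Perm (Slot d n)) := by exact_mod_cast Fintype.card_pos
  have hd2 : (2 : ℝ) ≤ d := by exact_mod_cast h.two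
  have hsq : ∀ (a β : Slot d n → ℝ), (∀ b, |a b| ≤ ‖v b.1‖) → (∀ b, |β b| ≤ ‖v b.1‖) →
      ∑ c, β c = 0 → ∑ η : Perm (Slot d n), (∑ b, a b * β (η b)) ^ 2 ≤
        Fintype.card (Perm (Slot d n)) * (n * V ^ 2) := by
    intro a β ha hβ h0
    have hs : ∀ a : Slot d n → ℝ, (∀ b, |a b| ≤ ‖v b.1‖) → ∑ b, a b ^ 2 ≤ n * V := by
      intro a ha
      refine (sum_le_sum fun b _ => sq_le_sq' (abs_le.1 (ha b)).1 (abs_le.1 (ha b)).2).trans ?_
      rw [Fintype.sum_prod_type]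
      simp [hV, mul_sum]
    have h8 := sum_perm_sq (by rw [card_slot]; nlinarith [h.two]) a β h0
    rw [card_slot] at h8
    push_cast at h8
    have h9 : (∑ b, a b ^ 2) * ∑ c, β c ^ 2 ≤ (n * V) * (n * V) :=
      mul_le_mul (hs a ha) (hs β hβ) (by positivity) (by positivity)
    have h10 := mul_le_mul_of_nonneg_left h9 (by positivity :
      (0 : ℝ) ≤ 2 * Fintype.card (Perm (Slot d n)))
    have h11 : 0 ≤ ∑ η : Perm (Slot d n), (∑ b, a b * β (η b)) ^ 2 := by positivity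
    have h12 := mul_le_mul_of_nonneg_right (mul_le_mul_of_nonneg_right hd2 hn'.le) h11
    apply le_of_mul_le_mul_left _ (by positivity : (0 : ℝ) < 2 * n)
    nlinarith
  have h8 : ∑ y, (w y).re ^ 2 ≤ 4 * (Fintype.card (Perm (Slot d n)) * (n * V ^ 2)) := by
    have hre := hsq (fun b => (u b).re) (fun c => (v c.1).re)
      (fun b => (Complex.abs_re_le_norm _).trans (hun b).le) (fun b => Complex.abs_re_le_norm _)
      (by rw [Fintype.sum_prod_type]; simp [← mul_sum, ← Complex.re_sum, hv1])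
    have him := hsq (fun b => (u b).im) (fun c => (v c.1).im)
      (fun b => (Complex.abs_im_le_norm _).trans (hun b).le) (fun b => Complex.abs_im_le_norm _)
      (by rw [Fintype.sum_prod_type]; simp [← mul_sum, ← Complex.im_sum, hv1])
    refine le_trans (sum_le_sum fun y _ => ?_ : _ ≤ ∑ y : Perm (Slot d n),
      (2 * (∑ b, (u b).re * (v (y b).1).re) ^ 2 + 2 * (∑ b, (u b).im * (v (y b).1).im) ^ 2)) ?_
    · simp only [hw, Complex.re_sum, Complex.mul_re, sum_sub_distrib]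
      nlinarith [sq_nonneg (∑ b, (u b).re * (v (y b).1).re + ∑ b, (u b).im * (v (y b).1).im)]
    · rw [sum_add_distrib, ← mul_sum, ← mul_sum]; linarith
  have h9 : 2 * (∑ y, φ y) / Fintype.card (Perm (Slot d n)) ≤ 32 * n / (n * E) ^ 2 := by
    rw [div_le_iff₀ hc]
    have := mul_le_mul_of_nonneg_left h8 (by positivity : 0 ≤ 4 / m ^ 2)
    have e : 32 * n / (n * E) ^ 2 * Fintype.card (Perm (Slot d n)) =
        2 * (4 / m ^ 2 * (4 * (Fintype.card (Perm (Slot d n)) * (n * V ^ 2)))) := by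
      rw [hmdef]; field_simp; ring
    rw [e]; linarith
  have e1 : 4 / m ^ 2 * ((2 * d * V) ^ 2 * t) = 16 * d ^ 2 * t / (n * E) ^ 2 := by
    rw [hmdef]; field_simp; ring
  have e2 : 32 * n / (n * E) ^ 2 ≤ 64 * n / (n * E) ^ 2 := by gcongr; norm_num
  rw [e1] at h5
  rw [add_div]
  linarith

lemma ev_small {η ε : ℝ} (hη : 0 < η) (hε : ε < 1) (A B : ℝ) :
    ∀ᶠ n : ℕ in atTop, ε < 1 - (A * Real.log n + B) / (n : ℝ) ^ η := by
  have h1 : Tendsto (fun x : ℝ => Real.log x / x ^ η) atTop (nhds 0) :=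
    (isLittleO_log_rpow_atTop hη).tendsto_div_nhds_zero
  have h2 : Tendsto (fun x : ℝ => (x ^ η)⁻¹) atTop (nhds 0) :=
    (tendsto_rpow_atTop hη).inv_tendsto_atTop
  have h3 := (((h1.const_mul A).add (h2.const_mul B)).const_sub 1).comp
    tendsto_natCast_atTop_atTop
  simp only [mul_zero, add_zero, sub_zero] at h3
  filter_upwards [h3.eventually (lt_mem_nhds hε)] with n hn
  refine lt_of_lt_of_eq hn ?_
  simp only [Function.comp]; ring

lemma exp_ge {η g t : ℝ} (hn : 0 < n) (ht : g * t ≤ (1 - η) * (n * Real.log n)) :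
    (n : ℝ) ^ η ≤ n * Real.exp (-(g * t / n)) := by
  have hn' : (0 : ℝ) < n := by exact_mod_cast hn
  rw [Real.rpow_def_of_pos hn']
  conv_rhs => rw [← Real.exp_log hn', ← Real.exp_add, Real.exp_log hn']
  rw [Real.exp_le_exp]
  have : g * t / n ≤ (1 - η) * Real.log n := by rw [div_le_iff₀ hn']; linarith
  linarith

end LowX

open LowX in
theorem lowerX {d : ℕ} {μ : Perm (Fin d) → ℝ} (h : Hyp μ) {η ε : ℝ} (hη : 0 < η) (hε : ε < 1) :
    ∀ᶠ n in atTop, ∀ t, 0 ≤ t → t ≤ (1 - η) * cutTime μ n →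
      ∃ x ∈ spaceX μ n, ε < tv (heat (jumpX μ n) t x) (spaceX μ n) := by
  have hq := holdGap_pos h
  have hg := specGap_pos h
  rcases le_total (1 / (2 * specGap μ)) (1 / holdGap μ) with hc | hc
  · obtain ⟨i, hi⟩ := exists_holdGap h
    filter_upwards [ev_small hη hε 0 8, eventually_gt_atTop 0] with n h1 hn t ht htT
    refine ⟨1, one_mem_spaceX, h1.trans_le (le_trans ?_ (q_part h hn i ht))⟩
    rw [cutTime, max_eq_left hc] at htT
    have h2 : holdGap μ * t ≤ (1 - η) * (n * Real.log n) := by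
      refine (mul_le_mul_of_nonneg_left htT hq.le).trans (le_of_eq ?_)
      field_simp
    have h3 := exp_ge hn h2
    have h4 : (0 : ℝ) < (n : ℝ) ^ η := by positivity
    rw [← hi, zero_mul, zero_add]
    gcongr
  · obtain ⟨l, v, hv0, hv1, hv, hl⟩ := exists_specGap h
    filter_upwards [ev_small hη hε (8 * d ^ 2 / specGap μ) 64, eventually_gt_atTop 0]
      with n h1 hn t ht htT
    refine ⟨1, one_mem_spaceX, h1.trans_le (le_trans ?_
      (g_part h hn hv0 hv1 hv (by linarith) ht))⟩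
    have hn' : (0 : ℝ) < n := by exact_mod_cast hn
    rw [cutTime, max_eq_right hc] at htT
    have h2 : 2 * specGap μ * t ≤ (1 - η) * (n * Real.log n) := by
      refine (mul_le_mul_of_nonneg_left htT (by positivity)).trans (le_of_eq ?_)
      field_simp
    have h3 := exp_ge hn h2
    have h4 : (0 : ℝ) < (n : ℝ) ^ η := by positivity
    have h5 : 0 ≤ Real.log n := Real.log_natCast_nonneg n
    have h6 : 2 * specGap μ * t ≤ n * Real.log n := by nlinarith [mul_nonneg hn'.le h5]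
    have e1 : (n * Real.exp (-(specGap μ * t / n))) ^ 2 =
        n * (n * Real.exp (-(2 * specGap μ * t / n))) := by
      rw [mul_pow, ← Real.exp_nat_mul, show ((2 : ℕ) : ℝ) * -(specGap μ * t / n) =
        -(2 * specGap μ * t / n) by push_cast; ring]
      ring
    have h7 : 16 * d ^ 2 * t + 64 * n ≤ n * (8 * d ^ 2 / specGap μ * Real.log n + 64) := by
      have h8 : t ≤ n * Real.log n / (2 * specGap μ) := by
        rw [le_div_iff₀ (by positivity)]; linarith
      have h9 := mul_le_mul_of_nonneg_left h8 (by positivity : (0 : ℝ) ≤ 16 * d ^ 2)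
      have e : 16 * (d : ℝ) ^ 2 * (n * Real.log n / (2 * specGap μ)) =
        n * (8 * d ^ 2 / specGap μ * Real.log n) := by field_simp; ring
      linarith
    rw [← hl, e1, ← mul_div_mul_left _ ((n : ℝ) ^ η) hn'.ne']
    gcongr

end Pool.Agent.P.MP_c47a54_pr
end

-- part Pool.Agent.P.MP_c47a54_pr.Single
section

namespace Pool.Agent.P.MP_c47a54_pr

open Equiv Finset Matrix Function

variable {d n : ℕ} {μ : Perm (Fin d) → ℝ}

/-- a matrix on urns, acting on slots -/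
noncomputable def lift (n : ℕ) (A : Matrix (Fin d) (Fin d) ℝ) : Matrix (Slot d n) (Slot d n) ℝ :=
  fun v w => A v.1 w.1 / n

lemma lift_mul (hn : 0 < n) (A B : Matrix (Fin d) (Fin d) ℝ) :
    lift n A * lift n B = lift n (A * B) := by
  have : (n : ℝ) ≠ 0 := by positivity
  ext v w
  simp only [lift, mul_apply, Fintype.sum_prod_type, sum_const, card_univ, Fintype.card_fin,
    nsmul_eq_mul, sum_div]
  exact sum_congr rfl fun i _ => by field_simp

lemma lift_transpose (A : Matrix (Fin d) (Fin d) ℝ) : (lift n A)ᵀ = lift n Aᵀ := rfl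

lemma lift_sub (A B : Matrix (Fin d) (Fin d) ℝ) : lift n (A - B) = lift n A - lift n B := by
  ext v w; simp [lift, sub_div]

lemma lift_mul_diag (A : Matrix (Fin d) (Fin d) ℝ) (f : Fin d → ℝ) :
    lift n A * diagonal (fun v : Slot d n => f v.1) = lift n (A * diagonal f) := by
  ext v w; simp [lift, mul_diagonal]; ring

lemma diag_mul_lift (A : Matrix (Fin d) (Fin d) ℝ) (f : Fin d → ℝ) :
    diagonal (fun v : Slot d n => f v.1) * lift n A = lift n (diagonal f * A) := by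
  ext v w; simp [lift, diagonal_mul]; ring

lemma form_lift (A : Matrix (Fin d) (Fin d) ℝ) (u : Slot d n → ℝ) :
    u ⬝ᵥ lift n A *ᵥ u = ((fun i => ∑ j, u (i, j)) ⬝ᵥ A *ᵥ fun i => ∑ j, u (i, j)) / n := by
  simp only [dotProduct, mulVec, lift, Fintype.sum_prod_type, sum_mul, mul_sum, sum_div]
  refine sum_congr rfl fun i _ => ?_
  rw [sum_comm]
  refine sum_congr rfl fun i' _ => ?_
  rw [sum_comm]
  exact sum_congr rfl fun j _ => sum_congr rfl fun j' _ => by ring

/-- the square root of the one-ball form -/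
noncomputable def Sm (n : ℕ) (R : Matrix (Fin d) (Fin d) ℝ) : Matrix (Slot d n) (Slot d n) ℝ :=
  1 - lift n 1 + lift n R

lemma Sm_sq (hn : 0 < n) (R : Matrix (Fin d) (Fin d) ℝ) :
    (Sm n R)ᵀ * Sm n R = 1 - lift n 1 + lift n (Rᵀ * R) := by
  simp only [Sm, transpose_add, transpose_sub, transpose_one, lift_transpose, add_mul, mul_add,
    sub_mul, mul_sub, lift_mul hn, one_mul, mul_one]
  abel

lemma Sm_split (hn : 0 < n) (R : Matrix (Fin d) (Fin d) ℝ) :
    (Sm n R)ᵀ * Sm n R = (Sm n R)ᵀ * Sm n R * lift n 1 + (1 - lift n 1) := by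
  simp only [Sm_sq hn, add_mul, sub_mul, lift_mul hn, one_mul, mul_one]
  abel

lemma form_perp (hn : 0 < n) (u : Slot d n → ℝ) : u ⬝ᵥ (1 - lift n 1) *ᵥ u =
    (1 - lift n (1 : Matrix (Fin d) (Fin d) ℝ)) *ᵥ u ⬝ᵥ (1 - lift n 1) *ᵥ u := by
  rw [dot_tr]
  simp only [transpose_sub, transpose_one, lift_transpose, sub_mul, mul_sub, lift_mul hn, one_mul,
    mul_one, sub_self, sub_zero]

lemma norm_Sm (hn : 0 < n) (R : Matrix (Fin d) (Fin d) ℝ) (u : Slot d n → ℝ) :
    Sm n R *ᵥ u ⬝ᵥ Sm n R *ᵥ u = u ⬝ᵥ (1 - lift n 1) *ᵥ u +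
      ((R *ᵥ fun i => ∑ j, u (i, j)) ⬝ᵥ R *ᵥ fun i => ∑ j, u (i, j)) / n := by
  rw [dot_tr, Sm_sq hn, add_mulVec, dotProduct_add, form_lift, dot_tr]

lemma norm_slot (u : Slot d n → ℝ) : u ⬝ᵥ u = u ⬝ᵥ (1 - lift n 1) *ᵥ u +
      ((fun i => ∑ j, u (i, j)) ⬝ᵥ fun i => ∑ j, u (i, j)) / n := by
  rw [sub_mulVec, dotProduct_sub, form_lift]; simp

lemma Sm_ge (hn : 0 < n) {R : Matrix (Fin d) (Fin d) ℝ} (h : ∀ u, u ⬝ᵥ u ≤ R *ᵥ u ⬝ᵥ R *ᵥ u)
    (u : Slot d n → ℝ) : u ⬝ᵥ u ≤ Sm n R *ᵥ u ⬝ᵥ Sm n R *ᵥ u := by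
  rw [norm_Sm hn, norm_slot]
  gcongr
  exact h _

lemma Sm_le (hn : 0 < n) {R : Matrix (Fin d) (Fin d) ℝ} {κ : ℝ} (hκ : 1 ≤ κ)
    (h : ∀ u, R *ᵥ u ⬝ᵥ R *ᵥ u ≤ κ * (u ⬝ᵥ u)) (u : Slot d n → ℝ) :
    Sm n R *ᵥ u ⬝ᵥ Sm n R *ᵥ u ≤ κ * (u ⬝ᵥ u) := by
  rw [norm_Sm hn, norm_slot u, mul_add, ← mul_div_assoc]
  gcongr
  · exact le_mul_of_one_le_left (form_perp hn u ▸ dot_self_nonneg _) hκ
  · exact h _

/-- indicator that slot `v` is selected -/
def sel (x : Fin d → Fin n) (v : Slot d n) : ℝ := if v.2 = x v.1 then 1 else 0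

lemma sel_nonneg (x : Fin d → Fin n) (v : Slot d n) : 0 ≤ sel x v := by
  unfold sel; split_ifs <;> norm_num

lemma sum_sel' (v : Slot d n) (F : (Fin d → Fin n) → ℝ)
    (hF : ∀ x b, F (update x v.1 b) = F x) : (n : ℝ) * ∑ x, sel x v * F x = ∑ x, F x := by
  rw [← sum_sel v.1 v.2 F hF]
  simp only [sel, ite_mul, one_mul, zero_mul, eq_comm]

lemma sum_one_sel : ∑ _x : Fin d → Fin n, (1 : ℝ) = (n : ℝ) ^ d := by simp

lemma sum_prod_sel {ι : Type} [DecidableEq ι] (T : Finset ι) {y : ι → Slot d n}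
    (hy : Set.InjOn y T) : (n : ℝ) ^ T.card * ∑ x, ∏ a ∈ T, sel x (y a) ≤ (n : ℝ) ^ d := by
  induction T using Finset.induction_on with
  | empty => simp
  | insert a T ha ih =>
    simp only [prod_insert ha, card_insert_of_notMem ha]
    by_cases h : ∃ c ∈ T, (y c).1 = (y a).1
    · obtain ⟨c, hc, h⟩ := h
      rw [sum_eq_zero, mul_zero]
      · positivity
      intro x _
      by_cases h1 : (y a).2 = x (y a).1
      · refine mul_eq_zero_of_right _ (prod_eq_zero hc (if_neg fun h2 => ha ?_))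
        rwa [← hy (by simp [hc]) (by simp) (Prod.ext h (by rw [h1, h2, h]) : y c = y a)]
      · rw [sel, if_neg h1, zero_mul]
    · push Not at h
      rw [pow_succ, mul_assoc, sum_sel' (y a) (fun x => ∏ c ∈ T, sel x (y c))]
      · exact ih (hy.mono (by simp))
      · exact fun x b => prod_congr rfl fun c hc => by simp [sel, update_of_ne (h c hc)]

lemma sum_prod_sel' (h : Hyp μ) (hn : 0 < n) {ι : Type} [DecidableEq ι] (T : Finset ι)
    {y : ι → Slot d n} (hy : Set.InjOn y T) {C : ℝ} (hC : 0 ≤ C) :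
    ∑ ω : Om d n, wt μ n ω * ∏ a ∈ T, C * (sel ω.2 (y a) + 1 / n) ≤ (2 * C / n) ^ T.card := by
  have hn' : (0 : ℝ) < n := by exact_mod_cast hn
  have h1 : ∑ x : Fin d → Fin n, ∏ a ∈ T, (sel x (y a) + 1 / n) ≤ (2 / n) ^ T.card * n ^ d := by
    simp only [prod_add, prod_const]
    rw [sum_comm]
    refine (sum_le_sum (g := fun _ => (1 / (n : ℝ)) ^ T.card * n ^ d) fun T' hT' => ?_).trans_eq ?_
    · have hs := mem_powerset.1 hT'
      have := sum_prod_sel T' (hy.mono (by simpa using hs))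
      rw [← sum_mul, ← card_sdiff_add_card_eq_card hs, pow_add, mul_comm, mul_assoc]
      gcongr
      rwa [one_div, inv_pow, le_inv_mul_iff₀ (by positivity)]
    · rw [sum_const, card_powerset, nsmul_eq_mul, div_pow, div_pow]; push_cast; ring
  rw [Fintype.sum_prod_type]
  simp only [wt, prod_mul_distrib, prod_const, ← mul_sum, ← sum_mul, ← sum_div, h.sum]
  refine (mul_le_mul_of_nonneg_left (mul_le_mul_of_nonneg_left h1 (by positivity))
    (by positivity)).trans_eq ?_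
  rw [div_pow, div_pow, mul_pow]; field_simp

lemma one_body (h : Hyp μ) (hn : 0 < n) : ∑ ω : Om d n, wt μ n ω • (pm (mv ω) - 1) =
    (1 / n : ℝ) • (diagonal (fun v : Slot d n => urnMat μ v.1 v.1) - 1 +
      lift n (urnMat μ - diagonal fun i => urnMat μ i i)) := by
  have hn' : (0 : ℝ) < n := by exact_mod_cast hn
  ext v w
  have key : ∀ σ : Perm (Fin d), ∑ x : Fin d → Fin n, (pm (move σ x) - 1) v w =
      (n : ℝ) ^ d * (1 / n) * (((if σ v.1 = v.1 then 1 else 0) - 1) * (if v = w then 1 else 0) +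
        ((if σ v.1 = w.1 then 1 else 0) - if σ v.1 = v.1 ∧ v.1 = w.1 then 1 else 0) / n) := by
    intro σ
    by_cases h1 : σ v.1 = v.1
    · rw [sum_eq_zero]
      · simp [h1]
      intro x _
      have : move σ x v = v := by
        rw [move_apply, h1]; split_ifs with h
        · rw [← h]
        · rfl
      simp [pm, this, one_apply]
    have e : ∀ x : Fin d → Fin n, (pm (move σ x) - 1) v w =
        sel x v * ((if σ v.1 = w.1 then sel x w else 0) - if v = w then 1 else 0) := by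
      intro x
      simp only [Matrix.sub_apply, pm, one_apply, sel, move_apply]
      by_cases h2 : v.2 = x v.1
      · simp only [h2, if_true, one_mul, Prod.ext_iff]
        by_cases h3 : σ v.1 = w.1
        · simp [h3, eq_comm]
        · simp [h3]
      · simp [h2]
    have e2 : ∑ x : Fin d → Fin n, ((if σ v.1 = w.1 then sel x w else 0) - if v = w then 1 else 0) =
        (n : ℝ) ^ d * ((if σ v.1 = w.1 then 1 else 0) / n - if v = w then 1 else 0) := by
      have := sum_sel' w (fun _ => 1) fun _ _ => rfl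
      rw [sum_one_sel] at this
      simp only [mul_one] at this
      rw [sum_sub_distrib]
      split_ifs <;> simp [mul_sub, ← this] <;> field_simp
    simp only [e]
    refine mul_left_cancel₀ hn'.ne' ?_
    rw [sum_sel' v, e2]
    · simp only [h1, if_false, false_and]; field_simp; ring
    · intro x b
      by_cases h3 : σ v.1 = w.1
      · simp [sel, update_of_ne (h3 ▸ h1 : w.1 ≠ v.1)]
      · simp [h3]
  simp only [Matrix.sum_apply, Matrix.smul_apply, smul_eq_mul, Fintype.sum_prod_type, wt, ← mul_sum,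
    mv, key]
  simp only [Matrix.add_apply, Matrix.sub_apply, lift, diagonal_apply, one_apply, urnMat]
  have e3 : ∀ (σ : Perm (Fin d)) (t : ℝ), μ σ / (n : ℝ) ^ d * ((n : ℝ) ^ d * (1 / n) * t) =
      1 / n * (μ σ * t) := fun σ t => by field_simp
  simp only [e3, ← mul_sum]
  congr 1
  by_cases h1 : v = w
  · subst h1; simp [mul_sub, h.sum]
  · by_cases h2 : v.1 = w.1
    · simp [h1, h2]
    · simp [h1, h2, div_eq_mul_inv, sum_mul]

lemma one_body_le (h : Hyp μ) (hn : 0 < n) {R : Matrix (Fin d) (Fin d) ℝ} {g q : ℝ}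
    (hq : ∀ i, q ≤ 1 - urnMat μ i i) (hR : ∀ u, ∑ i, u i = 0 →
      R *ᵥ u ⬝ᵥ R *ᵥ (urnMat μ *ᵥ u - u) ≤ -g * (R *ᵥ u ⬝ᵥ R *ᵥ u))
    (u : Slot d n → ℝ) (hu : ∑ v, u v = 0) :
    u ⬝ᵥ (∑ ω : Om d n, wt μ n ω • ((Sm n R)ᵀ * Sm n R * (pm (mv ω) - 1))) *ᵥ u ≤
      u ⬝ᵥ ((-(g / n)) • ((Sm n R)ᵀ * Sm n R) + (-((q - g) / n)) • (1 - lift n 1)) *ᵥ u := by
  have hn' : (0 : ℝ) < n := by exact_mod_cast hn
  set D := diagonal fun v : Slot d n => urnMat μ v.1 v.1 with hD
  have e : (∑ ω : Om d n, wt μ n ω • ((Sm n R)ᵀ * Sm n R * (pm (mv ω) - 1))) =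
      (1 / n : ℝ) • ((1 - lift n 1)ᵀ * ((D - 1) * (1 - lift n 1)) +
        lift n (Rᵀ * (R * (urnMat μ - 1)))) := by
    simp only [← Matrix.mul_smul, ← mul_sum]
    rw [one_body h hn, Matrix.mul_smul, Sm_sq hn]
    congr 1
    simp only [hD, transpose_sub, transpose_one, lift_transpose, add_mul, mul_add, sub_mul, mul_sub,
      lift_sub, lift_mul hn, lift_mul_diag (f := fun i => urnMat μ i i),
      diag_mul_lift (f := fun i => urnMat μ i i), one_mul, mul_one, mul_assoc]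
    abel
  have h1 : u ⬝ᵥ ((1 - lift n 1)ᵀ * ((D - 1) * (1 - lift n 1))) *ᵥ u ≤
      -q * (u ⬝ᵥ (1 - lift n 1) *ᵥ u) := by
    rw [← dot_tr, ← mulVec_mulVec, form_perp hn, dotProduct, dotProduct, mul_sum]
    refine sum_le_sum fun v _ => ?_
    rw [sub_mulVec (A := D), one_mulVec, Pi.sub_apply, hD, mulVec_diagonal]
    nlinarith [hq v.1, mul_self_nonneg (((1 - lift n (1 : Matrix (Fin d) (Fin d) ℝ)) *ᵥ u) v)]
  have h2 := hR (fun i => ∑ j, u (i, j)) (by rwa [Fintype.sum_prod_type] at hu)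
  rw [e, smul_mulVec, add_mulVec, add_mulVec, smul_mulVec, smul_mulVec, dotProduct_add,
    dotProduct_smul, dotProduct_smul, dotProduct_smul, dotProduct_add, ← dot_tr (Sm n R), norm_Sm hn,
    form_lift, ← dot_tr R, ← mulVec_mulVec _ R, sub_mulVec (A := urnMat μ), one_mulVec]
  simp only [smul_eq_mul]
  have h3 := div_le_div_of_nonneg_right h2 hn'.le
  have := mul_le_mul_of_nonneg_left (add_le_add h1 h3) (by positivity : (0 : ℝ) ≤ 1 / n)
  refine this.trans_eq ?_
  ring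

lemma row_delta (ω : Om d n) (v : Slot d n) : ∑ w, |(pm (mv ω) - 1) v w| ≤ 2 * sel ω.2 v := by
  unfold sel
  split_ifs with h
  · refine (sum_le_sum fun w _ => abs_sub _ _).trans ?_
    simp [sum_add_distrib, pm, one_apply, apply_ite abs]; norm_num
  · simp [pm, move_of_ne _ h, one_apply]

lemma col_delta (ω : Om d n) (v : Slot d n) : ∑ w, |(pm (mv ω) - 1) w v| ≤ 2 * sel ω.2 v := by
  unfold sel
  split_ifs with h
  · refine (sum_le_sum fun w _ => abs_sub _ _).trans ?_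
    simp [sum_add_distrib, pm, one_apply, apply_ite abs, ← eq_symm_apply]; norm_num
  · have : ∀ w, mv ω w = v ↔ w = v := fun w => by
      conv_lhs => rw [← move_of_ne ω.1 h]
      exact (mv ω).apply_eq_iff_eq
    simp [pm, this, one_apply]

lemma rowcol (R : Matrix (Fin d) (Fin d) ℝ) : ∃ C : ℝ, 0 ≤ C ∧ ∀ n, 0 < n → ∀ (ω : Om d n) v,
    ∑ w, |((Sm n R)ᵀ * Sm n R * (pm (mv ω) - 1)) v w| ≤ C * (sel ω.2 v + 1 / n) ∧
    ∑ w, |((Sm n R)ᵀ * Sm n R * (pm (mv ω) - 1)) w v| ≤ C * (sel ω.2 v + 1 / n) := by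
  set c : ℝ := ∑ i, ∑ j, |(Rᵀ * R - 1) i j| with hc
  have hc0 : 0 ≤ c := by positivity
  have hc1 : ∀ i j, |(Rᵀ * R - 1) i j| ≤ c := fun i j =>
    (single_le_sum (f := fun j => |(Rᵀ * R - 1) i j|) (fun _ _ => abs_nonneg _) (mem_univ j)).trans
      (single_le_sum (f := fun i => ∑ j, |(Rᵀ * R - 1) i j|) (fun _ _ => by positivity) (mem_univ i))
  refine ⟨2 * (1 + c * d), by positivity, fun n hn ω v => ?_⟩
  have hn' : (0 : ℝ) < n := by exact_mod_cast hn
  have hM : ∀ a b : Slot d n, |((Sm n R)ᵀ * Sm n R) a b| ≤ (if a = b then 1 else 0) + c / n := by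
    intro a b
    rw [Sm_sq hn, show (1 - lift n 1 + lift n (Rᵀ * R)) = 1 + lift n (Rᵀ * R - 1) by
      rw [lift_sub]; abel, Matrix.add_apply]
    refine (abs_add_le _ _).trans (add_le_add (by simp [one_apply, apply_ite abs]) ?_)
    rw [lift, abs_div, abs_of_pos hn']
    gcongr
    exact hc1 _ _
  have hs : ∑ u, sel ω.2 u = d := by
    rw [Fintype.sum_prod_type]; simp [sel]
  have hv := sel_nonneg ω.2 v
  have hcd : 0 ≤ c * d := by positivity
  have hi : (0 : ℝ) ≤ 1 / n := by positivity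
  constructor
  · calc ∑ w, |((Sm n R)ᵀ * Sm n R * (pm (mv ω) - 1)) v w|
        ≤ ∑ w, ∑ u, ((if v = u then 1 else 0) + c / n) * |(pm (mv ω) - 1) u w| := by
          refine sum_le_sum fun w _ => (abs_sum_le_sum_abs _ _).trans (sum_le_sum fun u _ => ?_)
          rw [abs_mul]; gcongr; exact hM _ _
      _ ≤ ∑ u, ((if v = u then 1 else 0) + c / n) * (2 * sel ω.2 u) := by
          rw [sum_comm]
          refine sum_le_sum fun u _ => ?_
          rw [← mul_sum]; gcongr; exact row_delta ω u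
      _ = 2 * sel ω.2 v + 2 * (c * d) * (1 / n) := by
          simp only [add_mul, sum_add_distrib, ← mul_sum, hs]; simp; ring
      _ ≤ _ := by nlinarith [mul_nonneg hcd hv]
  · calc ∑ w, |((Sm n R)ᵀ * Sm n R * (pm (mv ω) - 1)) w v|
        ≤ ∑ w, ∑ u, ((if w = u then 1 else 0) + c / n) * |(pm (mv ω) - 1) u v| := by
          refine sum_le_sum fun w _ => (abs_sum_le_sum_abs _ _).trans (sum_le_sum fun u _ => ?_)
          rw [abs_mul]; gcongr; exact hM _ _
      _ = (1 + c * d) * ∑ u, |(pm (mv ω) - 1) u v| := by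
          rw [sum_comm, mul_sum]
          refine sum_congr rfl fun u _ => ?_
          rw [← sum_mul]; congr 1
          simp [sum_add_distrib]; field_simp
      _ ≤ (1 + c * d) * (2 * sel ω.2 v) := by gcongr; exact col_delta ω v
      _ ≤ _ := by nlinarith [mul_nonneg hcd hi]

end Pool.Agent.P.MP_c47a54_pr
end

-- part Pool.Agent.P.MP_c47a54_pr.High
section

namespace Pool.Agent.P.MP_c47a54_pr

open Equiv Finset

section Dir
variable {V : Type} [Fintype V] [DecidableEq V]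

/-- Dirichlet energy of the left translation by `g` -/
def Dw (w : Perm V → ℝ) (g : Perm V) : ℝ := ∑ η, (w (g * η) - w η) ^ 2

lemma Dw_nonneg (w : Perm V → ℝ) (g : Perm V) : 0 ≤ Dw w g := sum_nonneg fun _ _ => sq_nonneg _

lemma sum_left (F : Perm V → ℝ) (g : Perm V) : ∑ η, F (g * η) = ∑ η, F η :=
  sum_equiv (Equiv.mulLeft g) (by simp) fun _ _ => rfl

lemma Dw_eq (w : Perm V → ℝ) (g : Perm V) :
    Dw w g = 2 * (w ⬝ᵥ w - ∑ η, w (g * η) * w η) := by
  have h := sum_left (fun η => w η * w η) g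
  have : Dw w g = ∑ η, w (g * η) * w (g * η) + ∑ η, w η * w η - 2 * ∑ η, w (g * η) * w η := by
    rw [Dw, mul_sum, ← sum_add_distrib, ← sum_sub_distrib]
    exact sum_congr rfl fun _ _ => by ring
  rw [this, h, dotProduct]; ring

lemma Dw_one (w : Perm V → ℝ) : Dw w 1 = 0 := by simp [Dw]

lemma Dw_inv (w : Perm V → ℝ) (g : Perm V) : Dw w g⁻¹ = Dw w g := by
  rw [Dw, ← sum_left _ g]
  exact sum_congr rfl fun η _ => by simp only [inv_mul_cancel_left]; ring

lemma Dw_mul (w : Perm V → ℝ) (g g' : Perm V) : Dw w (g * g') ≤ 2 * Dw w g + 2 * Dw w g' := by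
  have h : Dw w g = ∑ η, (w (g * (g' * η)) - w (g' * η)) ^ 2 :=
    (sum_left (fun η => (w (g * η) - w η) ^ 2) g').symm
  rw [h, Dw, Dw, mul_sum, mul_sum, ← sum_add_distrib]
  refine sum_le_sum fun η _ => ?_
  rw [mul_assoc]
  nlinarith [sq_nonneg (w (g * (g' * η)) - 2 * w (g' * η) + w η)]

/-- sum over all transpositions -/
def Zw (w : Perm V → ℝ) (η : Perm V) : ℝ := ∑ x ∈ (univ : Finset V).offDiag, w (swap x.1 x.2 * η)

lemma Zw_symm (w v : Perm V → ℝ) : Zw w ⬝ᵥ v = w ⬝ᵥ Zw v := by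
  simp only [dotProduct, Zw, sum_mul, mul_sum]
  rw [sum_comm, sum_comm (s := univ)]
  refine sum_congr rfl fun x _ => ?_
  rw [← sum_left _ (swap x.1 x.2)]
  exact sum_congr rfl fun η _ => by simp only [swap_mul_self_mul]

lemma Zw_mem {k : ℕ} {w : Perm V → ℝ} (hw : w ∈ Hi V k) : Zw w ∈ Hi V k := by
  have : Zw w = ∑ x ∈ (univ : Finset V).offDiag, fun η => w (swap x.1 x.2 * η) := by
    funext η; simp [Zw]
  rw [this]
  exact Submodule.sum_mem _ fun x _ => left_mem_Hi hw _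

lemma gap_Zw {k : ℕ} (hk : k + 2 ≤ Fintype.card V) {w : Perm V → ℝ} (hw : w ∈ Hi V k) :
    Zw w ⬝ᵥ w ≤
      (Fintype.card V * (Fintype.card V - 1) - Fintype.card V * (k + 1)) * (w ⬝ᵥ w) := by
  refine le_trans (le_of_eq ?_) (gap_Hi hk hw)
  simp only [dotProduct, Zw, sum_mul]
  rw [sum_comm]

lemma Zw_par {w : Perm V → ℝ} {s : ℤˣ} (hw : ∀ y, Perm.sign y = s → w y = 0) (y : Perm V)
    (hy : Perm.sign y = -s) : Zw w y = 0 := by
  refine sum_eq_zero fun x hx => hw _ ?_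
  rw [map_mul, Perm.sign_swap (mem_offDiag.1 hx).2.2, hy]; simp

lemma dot_par {w v : Perm V → ℝ} {s : ℤˣ} (hw : ∀ y, Perm.sign y = s → w y = 0)
    (hv : ∀ y, Perm.sign y = -s → v y = 0) : w ⬝ᵥ v = 0 := by
  refine sum_eq_zero fun y _ => ?_
  rcases Int.units_eq_one_or (Perm.sign y) with h | h <;> rcases Int.units_eq_one_or s with h' | h'
  · rw [hw y (h.trans h'.symm), zero_mul]
  · rw [hv y (by rw [h, h']; simp), mul_zero]
  · rw [hv y (by rw [h, h']), mul_zero]
  · rw [hw y (h.trans h'.symm), zero_mul]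

lemma Zw_add (w v : Perm V → ℝ) (t : ℝ) : Zw (t • w + v) = t • Zw w + Zw v := by
  funext η; simp [Zw, sum_add_distrib, mul_sum]

lemma dsn_high (w : Perm V → ℝ) : 0 ≤ w ⬝ᵥ w := sum_nonneg fun _ _ => mul_self_nonneg _

lemma card_offDiag_real :
    (((univ : Finset V).offDiag.card : ℕ) : ℝ) = Fintype.card V * (Fintype.card V - 1) := by
  rw [offDiag_card, card_univ, Nat.cast_sub (Nat.le_mul_self _)]
  push_cast; ring

lemma sum_Dw_swap {k : ℕ} (hk : k + 2 ≤ Fintype.card V) {w : Perm V → ℝ} (hw : w ∈ Hi V k) :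
    2 * (Fintype.card V * (k + 1)) * (w ⬝ᵥ w) ≤
      ∑ x ∈ (univ : Finset V).offDiag, Dw w (swap x.1 x.2) := by
  have h := gap_Hi hk hw
  simp only [Dw_eq, mul_sub, sum_sub_distrib, ← mul_sum, sum_const, nsmul_eq_mul, card_offDiag_real]
  linarith

lemma sum_Dw_swap_swap {k : ℕ} (hk : k + 3 ≤ Fintype.card V) {w : Perm V → ℝ} (hw : w ∈ Hi V k)
    (hp : ∀ y, Perm.sign y = -1 → w y = 0) :
    2 * (Fintype.card V * (k + 1)) * (Fintype.card V * (Fintype.card V - 1)) * (w ⬝ᵥ w) ≤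
      ∑ x ∈ (univ : Finset V).offDiag ×ˢ (univ : Finset V).offDiag,
        Dw w (swap x.1.1 x.1.2 * swap x.2.1 x.2.2) := by
  set N : ℝ := (Fintype.card V : ℝ) with hN
  have hkN : (k : ℝ) + 3 ≤ N := by rw [hN]; exact_mod_cast hk
  have hk0 : (0 : ℝ) ≤ k := Nat.cast_nonneg _
  set θ : ℝ := N * (N - 1) - N * (k + 1) with hθ
  have hθ0 : 0 < θ := by rw [hθ]; nlinarith
  have hZ : ∀ y, Perm.sign y = -(-1) → Zw w y = 0 := Zw_par hp
  have hZZ : ∀ y, Perm.sign y = -(-(-1)) → Zw (Zw w) y = 0 := Zw_par hZ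
  have e1 : w ⬝ᵥ Zw w = 0 := dot_par hp hZ
  have e2 : Zw w ⬝ᵥ Zw (Zw w) = 0 := dot_par hZ hZZ
  have e3 : Zw (Zw w) ⬝ᵥ w = Zw w ⬝ᵥ Zw w := Zw_symm _ _
  have hg := gap_Zw (by omega : k + 2 ≤ _)
    (Submodule.add_mem _ (Submodule.smul_mem _ θ hw) (Zw_mem hw))
  rw [Zw_add] at hg
  simp only [add_dotProduct, dotProduct_add, smul_dotProduct, dotProduct_smul, smul_eq_mul,
    dotProduct_comm (Zw w) w, dotProduct_comm (Zw (Zw w)) (Zw w), e1, e2, e3] at hg
  rw [← hN, ← hθ] at hg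
  have hle : Zw w ⬝ᵥ Zw w ≤ θ ^ 2 * (w ⬝ᵥ w) := by
    refine le_of_mul_le_mul_left ?_ hθ0
    nlinarith
  have e4 : ∑ x ∈ (univ : Finset V).offDiag ×ˢ (univ : Finset V).offDiag,
      ∑ η, w (swap x.1.1 x.1.2 * swap x.2.1 x.2.2 * η) * w η = Zw w ⬝ᵥ Zw w := by
    rw [← e3, sum_comm, dotProduct]
    refine sum_congr rfl fun η _ => ?_
    rw [← sum_mul, sum_product_right]
    simp only [Zw, mul_assoc]
  simp only [Dw_eq, mul_sub, sum_sub_distrib, ← mul_sum, sum_const, nsmul_eq_mul, card_product,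
    Nat.cast_mul, card_offDiag_real, e4]
  rw [← hN]
  have h0 := dsn_high w
  have : N * (k + 1) * (N * (N - 1)) ≤ (N * (N - 1)) * (N * (N - 1)) - θ ^ 2 := by
    have : (N * (N - 1)) * (N * (N - 1)) - θ ^ 2 = N * (k + 1) * (N * (N - 1) + θ) := by
      rw [hθ]; ring
    rw [this]
    exact mul_le_mul_of_nonneg_left (by linarith) (by positivity)
  nlinarith [mul_le_mul_of_nonneg_right this h0]

lemma cyc3 {a b c : V} (hab : a ≠ b) (hbc : b ≠ c) (hac : a ≠ c) :
    swap a b * swap b c = swap b c * swap c a := by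
  ext1 v
  by_cases h1 : v = a
  · subst h1; simp [swap_apply_of_ne_of_ne hab hac]
  by_cases h2 : v = b
  · subst h2
    simp [swap_apply_of_ne_of_ne hac.symm hbc.symm, swap_apply_of_ne_of_ne hbc hab.symm]
  by_cases h3 : v = c
  · subst h3; simp [swap_apply_of_ne_of_ne hab hac]
  simp [swap_apply_of_ne_of_ne h1 h2, swap_apply_of_ne_of_ne h2 h3, swap_apply_of_ne_of_ne h3 h1]

end Dir

variable {d n : ℕ} {μ : Perm (Fin d) → ℝ}

/-- Dirichlet form of the chain -/
noncomputable def En (μ : Perm (Fin d) → ℝ) (n : ℕ) (w : Perm (Slot d n) → ℝ) : ℝ :=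
  ∑ ω, wt μ n ω * Dw w (mv ω)

lemma En_nonneg (h : Hyp μ) (w : Perm (Slot d n) → ℝ) : 0 ≤ En μ n w :=
  sum_nonneg fun ω _ => mul_nonneg (wt_nonneg h ω) (Dw_nonneg _ _)

lemma En_eq (h : Hyp μ) (hn : 0 < n) (w : Perm (Slot d n) → ℝ) :
    En μ n w = 2 * (w ⬝ᵥ w - w ⬝ᵥ KX μ n w) := by
  have e : w ⬝ᵥ KX μ n w = ∑ ω, wt μ n ω * ∑ η, w (mv ω * η) * w η := by
    simp only [dotProduct, KX_apply, mul_sum]
    rw [sum_comm]
    exact sum_congr rfl fun _ _ => sum_congr rfl fun _ _ => by ring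
  have e2 : En μ n w = 2 * ((∑ ω, wt μ n ω) * (w ⬝ᵥ w) -
      ∑ ω, wt μ n ω * ∑ η, w (mv ω * η) * w η) := by
    rw [En, sum_mul, ← sum_sub_distrib, mul_sum]
    exact sum_congr rfl fun ω _ => by rw [Dw_eq]; ring
  rw [e2, e, wt_sum h hn, one_mul]

/-- urn preserving permutations -/
def cj (u : Fin d → Perm (Fin n)) : Perm (Slot d n) := Equiv.prodCongrRight u

lemma cj_apply (u : Fin d → Perm (Fin n)) (v : Slot d n) : cj u v = (v.1, u v.1 v.2) := rfl

lemma conj_move (u : Fin d → Perm (Fin n)) (σ : Perm (Fin d)) (x : Fin d → Fin n) :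
    cj u * move σ x * (cj u)⁻¹ = move σ fun i => u i (x i) := by
  rw [mul_inv_eq_iff_eq_mul]
  ext1 v
  by_cases h : v.2 = x v.1 <;> simp [move_apply, cj_apply, h]

lemma swap_eq_cj (i : Fin d) (a b : Fin n) :
    swap ((i, a) : Slot d n) (i, b) = cj (Function.update 1 i (swap a b)) := by
  ext1 v
  obtain ⟨l, c⟩ := v
  rw [cj_apply]
  by_cases hl : l = i
  · subst hl
    by_cases h1 : c = a
    · subst h1; simp
    by_cases h2 : c = b
    · subst h2; simp
    rw [swap_apply_of_ne_of_ne (by simp [h1]) (by simp [h2])]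
    simp [swap_apply_of_ne_of_ne h1 h2]
  · rw [swap_apply_of_ne_of_ne (by simp [hl]) (by simp [hl])]
    simp [hl]

lemma sum_act (F : (Fin d → Fin n) → ℝ) (x : Fin d → Fin n) :
    (n : ℝ) ^ d * ∑ u : Fin d → Perm (Fin n), F (fun i => u i (x i)) =
      Fintype.card (Fin d → Perm (Fin n)) * ∑ y, F y := by
  have h : ∀ x' : Fin d → Fin n, ∑ u : Fin d → Perm (Fin n), F (fun i => u i (x' i)) =
      ∑ u : Fin d → Perm (Fin n), F (fun i => u i (x i)) := fun x' =>
    sum_equiv (Equiv.mulRight fun i => swap (x i) (x' i)) (by simp) fun u _ => by simp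
  calc (n : ℝ) ^ d * ∑ u : Fin d → Perm (Fin n), F (fun i => u i (x i))
      = ∑ x' : Fin d → Fin n, ∑ u : Fin d → Perm (Fin n), F (fun i => u i (x' i)) := by simp [h]
    _ = ∑ u : Fin d → Perm (Fin n), ∑ y, F y := by
      rw [sum_comm]
      exact sum_congr rfl fun u _ =>
        sum_equiv (Equiv.piCongrRight u) (by simp) fun _ _ => rfl
    _ = _ := by simp

/-- `g` is comparable with the chain -/
def Gd (μ : Perm (Fin d) → ℝ) (n : ℕ) (C : ℝ) (g : Perm (Slot d n)) : Prop :=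
  ∀ w, ∑ u : Fin d → Perm (Fin n), Dw w (cj u * g * (cj u)⁻¹) ≤
    C * (Fintype.card (Fin d → Perm (Fin n)) * En μ n w)

lemma Gd.mono (h : Hyp μ) {C C' : ℝ} {g : Perm (Slot d n)} (hg : Gd μ n C g) (hC : C ≤ C') :
    Gd μ n C' g := fun w =>
  (hg w).trans (mul_le_mul_of_nonneg_right hC (mul_nonneg (Nat.cast_nonneg _) (En_nonneg h w)))

lemma Gd.one : Gd μ n 0 1 := fun w => by simp [Dw_one]

lemma Gd.inv {C : ℝ} {g : Perm (Slot d n)} (hg : Gd μ n C g) : Gd μ n C g⁻¹ := fun w => by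
  refine le_trans (le_of_eq (sum_congr rfl fun u _ => ?_)) (hg w)
  rw [← Dw_inv]; simp [mul_assoc]

lemma Gd.mul {C C' : ℝ} {g g' : Perm (Slot d n)} (hg : Gd μ n C g) (hg' : Gd μ n C' g') :
    Gd μ n (2 * C + 2 * C') (g * g') := fun w => by
  have h : ∑ u : Fin d → Perm (Fin n), Dw w (cj u * (g * g') * (cj u)⁻¹) ≤
      2 * ∑ u : Fin d → Perm (Fin n), Dw w (cj u * g * (cj u)⁻¹) +
        2 * ∑ u : Fin d → Perm (Fin n), Dw w (cj u * g' * (cj u)⁻¹) := by
    rw [mul_sum, mul_sum, ← sum_add_distrib]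
    refine sum_le_sum fun u _ => le_trans (le_of_eq ?_) (Dw_mul w _ _)
    congr 1; group
  linarith [hg w, hg' w]

lemma Gd.move (h : Hyp μ) (hn : 0 < n) {σ : Perm (Fin d)} (hσ : μ σ ≠ 0) (x : Fin d → Fin n) :
    Gd μ n (1 / μ σ) (move σ x) := fun w => by
  have hp : 0 < μ σ := lt_of_le_of_ne (h.nonneg σ) hσ.symm
  have hnd : (0 : ℝ) < (n : ℝ) ^ d := by positivity
  simp only [conj_move]
  have h1 := sum_act (fun y => Dw w (MP_c47a54_pr.move σ y)) x
  have h2 : μ σ / (n : ℝ) ^ d * ∑ y, Dw w (MP_c47a54_pr.move σ y) ≤ En μ n w := by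
    rw [En, Fintype.sum_prod_type, mul_sum]
    exact single_le_sum (f := fun σ => ∑ y, wt μ n (σ, y) * Dw w (mv (σ, y)))
      (fun σ _ => sum_nonneg fun y _ => mul_nonneg (wt_nonneg h _) (Dw_nonneg _ _)) (mem_univ σ)
  have h3 := mul_le_mul_of_nonneg_left h2
    (Nat.cast_nonneg (α := ℝ) (Fintype.card (Fin d → Perm (Fin n))))
  rw [one_div, ← div_eq_inv_mul, le_div_iff₀ hp]
  refine le_trans (le_of_eq ?_) h3
  rw [mul_left_comm, ← h1]
  field_simp

lemma sum_le_of_Gd {ι : Type} (s : Finset ι) (g : ι → Perm (Slot d n))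
    (e : (Fin d → Perm (Fin n)) → ι ≃ ι) (he : ∀ u x, x ∈ s ↔ e u x ∈ s)
    (hg : ∀ u x, cj u * g x * (cj u)⁻¹ = g (e u x)) {C : ℝ} (hG : ∀ x ∈ s, Gd μ n C (g x))
    (w : Perm (Slot d n) → ℝ) : ∑ x ∈ s, Dw w (g x) ≤ s.card * (C * En μ n w) := by
  have hc : (0 : ℝ) < Fintype.card (Fin d → Perm (Fin n)) := by exact_mod_cast Fintype.card_pos
  refine le_of_mul_le_mul_left ?_ hc
  calc (Fintype.card (Fin d → Perm (Fin n)) : ℝ) * ∑ x ∈ s, Dw w (g x)
      = ∑ u : Fin d → Perm (Fin n), ∑ x ∈ s, Dw w (cj u * g x * (cj u)⁻¹) := by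
        rw [sum_congr rfl fun u _ => sum_equiv (e u) (he u) (g := fun x => Dw w (g x))
          fun x _ => by rw [hg]]
        simp
    _ ≤ ∑ _x ∈ s, C * (Fintype.card (Fin d → Perm (Fin n)) * En μ n w) := by
        rw [sum_comm]; exact sum_le_sum fun x hx => hG x hx w
    _ = _ := by rw [sum_const, nsmul_eq_mul]; ring

/-- three-cycles of the given type are comparable with the chain -/
def Typ (μ : Perm (Fin d) → ℝ) (i j k : Fin d) : Prop :=
  ∃ C : ℝ, ∀ n, 3 ≤ n → ∀ a b c : Slot d n, a ≠ b → b ≠ c → a ≠ c → a.1 = i → b.1 = j → c.1 = k →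
    Gd μ n C (swap a b * swap b c)

lemma Typ.cyc {i j k : Fin d} (hP : Typ μ i j k) : Typ μ j k i := by
  obtain ⟨C, hC⟩ := hP
  refine ⟨C, fun n hn a b c hab hbc hac ha hb hc => ?_⟩
  rw [← cyc3 hac.symm hab hbc.symm]
  exact hC n hn c a b hac.symm hab hbc.symm hc ha hb

lemma Typ.base (h : Hyp μ) {σ : Perm (Fin d)} (hσ : μ σ ≠ 0) {i : Fin d} (hi : σ i ≠ i) :
    Typ μ i i (σ⁻¹ i) := by
  refine ⟨2 * (1 / μ σ) + 2 * (1 / μ σ), fun n hn a b c hab _ _ ha hb hc => ?_⟩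
  obtain ⟨a1, a2⟩ := a
  obtain ⟨b1, b2⟩ := b
  obtain ⟨c1, c2⟩ := c
  simp only at ha hb hc
  subst ha hb
  have hc' : σ c1 = b1 := by simp [hc]
  have hne : c1 ≠ b1 := fun e => hi (by rw [← e, hc', e])
  set x : Fin d → Fin n := Function.update (fun _ => a2) c1 c2 with hx
  have x1 : x b1 = a2 := by simp [hx, hne.symm]
  have x2 : x c1 = c2 := by simp [hx]
  have g1 : move σ x (c1, c2) = (b1, a2) := by rw [← x2, move_sel, hc', x1]
  have g2 : move σ x (b1, b2) = (b1, b2) :=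
    move_of_ne _ (by simp only [x1]; rintro rfl; exact hab rfl)
  have e1 : swap ((b1, a2) : Slot d n) (b1, b2) =
      move σ x * swap (c1, c2) (b1, b2) * (move σ x)⁻¹ := by
    rw [← swap_apply_apply, g1, g2]
  have hG := (Gd.move h (by omega : 0 < n) hσ
    fun i => Function.update (1 : Fin d → Perm (Fin n)) b1 (swap a2 b2) i (x i)).inv.mul
      (Gd.move h (by omega : 0 < n) hσ x)
  rw [← conj_move, ← swap_eq_cj] at hG
  convert hG using 1
  rw [swap_comm (b1, b2) (c1, c2)]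
  have e2 : swap ((c1, c2) : Slot d n) (b1, b2) =
      (move σ x)⁻¹ * swap (b1, a2) (b1, b2) * move σ x := by rw [e1]; group
  rw [e2]
  simp [mul_assoc]

lemma Typ.arc (h : Hyp μ) {σ : Perm (Fin d)} (hσ : μ σ ≠ 0) {i j k : Fin d} (hP : Typ μ i j k) :
    Typ μ (σ i) j k := by
  obtain ⟨C, hC⟩ := hP
  refine ⟨2 * (2 * (1 / μ σ) + 2 * C) + 2 * (1 / μ σ), fun n hn a b c hab hbc hac ha hb hc => ?_⟩
  obtain ⟨z, hz⟩ : ∃ z : Fin n, z ∉ ({b.2, c.2} : Finset (Fin n)) := by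
    by_contra hcon
    push Not at hcon
    have h1 := card_le_card (fun z _ => hcon z : (univ : Finset (Fin n)) ⊆ {b.2, c.2})
    have h2 : ({b.2, c.2} : Finset (Fin n)).card ≤ 2 := card_le_two
    rw [card_univ, Fintype.card_fin] at h1
    omega
  simp only [mem_insert, mem_singleton, not_or] at hz
  set x : Fin d → Fin n := Function.update (fun _ => z) a.1 a.2 with hx
  have hav : ∀ v : Slot d n, a ≠ v → z ≠ v.2 → v.2 ≠ x v.1 := fun v h1 h2 => by
    by_cases hv : v.1 = a.1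
    · rw [hv, hx, Function.update_self]
      exact fun e => h1 (Prod.ext hv.symm e.symm)
    · rw [hx, Function.update_of_ne hv]; exact h2.symm
  have hb' := hav b hab hz.1
  have hc' := hav c hac hz.2
  have g1 : move σ x (i, x i) = a := by rw [move_sel, ← ha, hx, Function.update_self]
  have hG := ((Gd.move h (by omega : 0 < n) hσ x).mul (hC n hn (i, x i) b c
    (by rintro rfl; exact hb' rfl) hbc (by rintro rfl; exact hc' rfl) rfl hb hc)).mul
      (Gd.move h (by omega : 0 < n) hσ x).inv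
  convert hG using 1
  have e1 := swap_apply_apply (move σ x) (i, x i) b
  have e2 := swap_apply_apply (move σ x) b c
  rw [move_of_ne _ hb'] at e1 e2
  rw [g1] at e1
  rw [move_of_ne _ hc'] at e2
  nth_rewrite 1 [e1, e2]
  group

lemma Typ.reach (h : Hyp μ) {i j k : Fin d} (hP : Typ μ i j k) (i' : Fin d) : Typ μ i' j k := by
  have key : ∀ m : ℕ, ∀ l, (urnMat μ ^ m) i l ≠ 0 → Typ μ l j k := by
    intro m
    induction m with
    | zero =>
      intro l hl
      by_cases e : i = l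
      · exact e ▸ hP
      · simp [Matrix.one_apply, e] at hl
    | succ m ih =>
      intro l hl
      rw [pow_succ, Matrix.mul_apply] at hl
      obtain ⟨l', -, hl'⟩ := exists_ne_zero_of_sum_ne_zero hl
      obtain ⟨σ, -, hσ⟩ := exists_ne_zero_of_sum_ne_zero (right_ne_zero_of_mul hl')
      by_cases e : σ l' = l
      · rw [if_pos e] at hσ
        exact e ▸ (ih l' (left_ne_zero_of_mul hl')).arc h hσ
      · exact absurd (if_neg e) hσ
  obtain ⟨m, hm⟩ := h.irr i i'
  exact key m i' hm.ne'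

lemma exists_mover (h : Hyp μ) : ∃ σ i, μ σ ≠ 0 ∧ σ i ≠ i := by
  by_contra hcon
  push Not at hcon
  have h2 := h.two
  have key : ∀ m : ℕ, ∀ i l, (urnMat μ ^ m) i l ≠ 0 → i = l := by
    intro m
    induction m with
    | zero =>
      intro i l hl
      by_contra e
      simp [Matrix.one_apply, e] at hl
    | succ m ih =>
      intro i l hl
      rw [pow_succ, Matrix.mul_apply] at hl
      obtain ⟨l', -, hl'⟩ := exists_ne_zero_of_sum_ne_zero hl
      obtain ⟨σ, -, hσ⟩ := exists_ne_zero_of_sum_ne_zero (right_ne_zero_of_mul hl')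
      by_cases e : σ l' = l
      · rw [if_pos e] at hσ
        rw [ih i l' (left_ne_zero_of_mul hl'), ← e, hcon σ l' hσ]
      · exact absurd (if_neg e) hσ
  obtain ⟨m, hm⟩ := h.irr ⟨0, by omega⟩ ⟨1, by omega⟩
  simpa using key m _ _ hm.ne'

lemma Typ.all (h : Hyp μ) (i j k : Fin d) : Typ μ i j k := by
  obtain ⟨σ, l, hσ, hl⟩ := exists_mover h
  exact (((((Typ.base h hσ hl).reach h i).cyc.reach h j).cyc.reach h k).cyc)

lemma Gd_two (h : Hyp μ) : ∃ C : ℝ, 0 < C ∧ ∀ n, 3 ≤ n → ∀ a b c e : Slot d n, a ≠ b → c ≠ e →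
    Gd μ n C (swap a b * swap c e) := by
  choose f hf using fun t : Fin d × Fin d × Fin d => Typ.all h t.1 t.2.1 t.2.2
  have h0 : 0 ≤ ∑ t, |f t| := sum_nonneg fun _ _ => abs_nonneg _
  have h1 : ∀ n, 3 ≤ n → ∀ a b c : Slot d n, a ≠ b → b ≠ c →
      Gd μ n (∑ t, |f t|) (swap a b * swap b c) := by
    intro n hn a b c hab hbc
    by_cases hac : a = c
    · subst hac
      rw [swap_comm b a, swap_mul_self]
      exact Gd.one.mono h h0
    · exact (hf (a.1, b.1, c.1) n hn a b c hab hbc hac rfl rfl rfl).mono h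
        ((le_abs_self _).trans (single_le_sum (f := fun t => |f t|) (fun _ _ => abs_nonneg _)
          (mem_univ _)))
  refine ⟨4 * ∑ t, |f t| + 1, by linarith, fun n hn a b c e hab hce => ?_⟩
  by_cases hbc : b = c
  · subst hbc; exact (h1 n hn a b e hab hce).mono h (by linarith)
  · have := ((h1 n hn a b c hab hbc).mul (h1 n hn b c e hbc hce)).mono h
      (by linarith : _ ≤ 4 * ∑ t, |f t| + 1)
    rwa [mul_assoc, swap_mul_self_mul] at this

lemma Gd_sign (h : Hyp μ) (σ : Perm (Fin d)) : ∃ C : ℝ, ∀ n, 3 ≤ n → ∀ x : Fin d → Fin n,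
    (Perm.sign σ = 1 → Gd μ n C (move σ x)) ∧
      (Perm.sign σ = -1 → ∀ a b : Slot d n, a ≠ b → Gd μ n C (swap a b * move σ x)) := by
  obtain ⟨C2, -, h2⟩ := Gd_two h
  induction σ using Perm.swap_induction_on with
  | one => exact ⟨0, fun n _ x => ⟨fun _ => by rw [move_one]; exact Gd.one, fun e => by simp at e⟩⟩
  | swap_mul f i j hij ih =>
    obtain ⟨C, hC⟩ := ih
    refine ⟨max C (2 * C2 + 2 * C), fun n hn x => ?_⟩
    have hne : ((i, x i) : Slot d n) ≠ (j, x j) := by simp [hij]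
    rw [move_mul, move_swap, map_mul, Perm.sign_swap hij]
    refine ⟨fun e => ((hC n hn x).2 ?_ _ _ hne).mono h (le_max_left _ _), fun e a b hab => ?_⟩
    · rw [← neg_neg (Perm.sign f), ← e]; simp
    · rw [← mul_assoc]
      exact ((h2 n hn a b _ _ hab hne).mul ((hC n hn x).1 (by simpa using e))).mono h
        (le_max_right _ _)

lemma comparison (h : Hyp μ) : ∃ C : ℝ, 0 < C ∧ ∀ n k : ℕ, 3 ≤ n → k + 3 ≤ d * n →
    ∀ w ∈ Hi (Slot d n) k, (∀ y, y ∉ spaceX μ n → w y = 0) →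
      2 * (k + 1) * (w ⬝ᵥ w) ≤ (d * n) * (C * En μ n w) := by
  have hcard : ∀ n, Fintype.card (Slot d n) = d * n := fun n => by simp
  by_cases hev : ∀ σ, μ σ ≠ 0 → Perm.sign σ = 1
  · obtain ⟨C, hC, h2⟩ := Gd_two h
    refine ⟨C, hC, fun n k hn hk w hw hs => ?_⟩
    have l1 := sum_Dw_swap_swap (by rwa [hcard]) hw fun y hy => hs y (by
      simp only [spaceX, mem_filter, mem_univ, true_and]
      intro e
      rw [e hev] at hy
      simp at hy)
    have l2 := sum_le_of_Gd ((univ : Finset (Slot d n)).offDiag ×ˢ univ.offDiag)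
      (fun x => swap x.1.1 x.1.2 * swap x.2.1 x.2.2)
      (fun u => ((cj u).prodCongr (cj u)).prodCongr ((cj u).prodCongr (cj u)))
      (fun u x => by simp) (fun u x => by simp [swap_apply_apply, mul_assoc])
      (fun x hx => h2 n hn _ _ _ _ (mem_offDiag.1 (mem_product.1 hx).1).2.2
        (mem_offDiag.1 (mem_product.1 hx).2).2.2) w
    rw [card_product, Nat.cast_mul, card_offDiag_real] at l2
    rw [hcard] at l1 l2
    have l3 := l1.trans l2
    have hN : (k : ℝ) + 3 ≤ (d * n : ℕ) := by exact_mod_cast hk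
    have hk0 : (0 : ℝ) ≤ k := Nat.cast_nonneg _
    have hE := mul_nonneg hC.le (En_nonneg h w)
    rw [← Nat.cast_mul]
    generalize ((d * n : ℕ) : ℝ) = N at *
    have hM : 0 < N * (N * (N - 1)) := mul_pos (by linarith) (mul_pos (by linarith) (by linarith))
    refine le_of_mul_le_mul_left ?_ hM
    nlinarith [mul_nonneg hM.le hE]
  · push Not at hev
    obtain ⟨σ, hσ, hs⟩ := hev
    obtain ⟨C, hC⟩ := Gd_sign h σ
    have hs' := (Int.units_eq_one_or _).resolve_left hs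
    refine ⟨|2 * C + 2 * (1 / μ σ)| + 1, by positivity, fun n k hn hk w hw _ => ?_⟩
    have l1 := sum_Dw_swap (by rw [hcard]; omega) hw
    have l2 := sum_le_of_Gd (μ := μ) (C := |2 * C + 2 * (1 / μ σ)| + 1)
      (univ : Finset (Slot d n)).offDiag (fun x => swap x.1 x.2)
      (fun u => (cj u).prodCongr (cj u)) (fun u x => by simp)
      (fun u x => by simp [swap_apply_apply])
      (fun x hx => by
        have := (((hC n hn fun _ => ⟨0, by omega⟩).2 hs' _ _ (mem_offDiag.1 hx).2.2).mul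
          (Gd.move h (by omega : 0 < n) hσ fun _ => ⟨0, by omega⟩).inv).mono h
            ((le_abs_self _).trans (le_add_of_nonneg_right zero_le_one))
        rwa [mul_inv_cancel_right] at this) w
    rw [card_offDiag_real] at l2
    rw [hcard] at l1 l2
    have l3 := l1.trans l2
    have hN : (k : ℝ) + 3 ≤ (d * n : ℕ) := by exact_mod_cast hk
    have hk0 : (0 : ℝ) ≤ k := Nat.cast_nonneg _
    have hE := mul_nonneg (by positivity : 0 ≤ |2 * C + 2 * (1 / μ σ)| + 1) (En_nonneg h w)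
    rw [← Nat.cast_mul]
    generalize ((d * n : ℕ) : ℝ) = N at *
    have hM : 0 < N := by linarith
    refine le_of_mul_le_mul_left ?_ hM
    nlinarith [mul_nonneg hM.le hE]

theorem high (h : Hyp μ) : ∃ c : ℝ, 0 < c ∧ ∀ n k : ℕ, 3 ≤ n → k + 3 ≤ d * n →
    ∀ w ∈ Hi (Slot d n) k, (∀ y, y ∉ spaceX μ n → w y = 0) →
      w ⬝ᵥ KX μ n w ≤ (1 - c * k / n) * (w ⬝ᵥ w) := by
  obtain ⟨C, hC, hc⟩ := comparison h
  have hd : (0 : ℝ) < d := by have := h.two; positivity
  refine ⟨1 / (d * C), by positivity, fun n k hn hk w hw hs => ?_⟩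
  have hn0 : (0 : ℝ) < n := by positivity
  have l := hc n k hn hk w hw hs
  rw [En_eq h (by omega)] at l
  have h0 := dsn_high w
  have : 1 / (d * C) * k / n * (w ⬝ᵥ w) ≤ w ⬝ᵥ w - w ⬝ᵥ KX μ n w := by
    rw [show 1 / (d * C) * k / n * (w ⬝ᵥ w) = k * (w ⬝ᵥ w) / (d * n * C) by field_simp,
      div_le_iff₀ (by positivity)]
    nlinarith
  linarith

end Pool.Agent.P.MP_c47a54_pr
end

-- part Pool.Agent.P.MP_c47a54_pr.ProdY
section

namespace Pool.Agent.P.MP_c47a54_pr

open Filter Finset Matrix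

namespace ProdY

section prod

variable {B S : Type} [Fintype B] [DecidableEq B] [Fintype S]

lemma sum_prod (p : B → S → ℝ) : ∑ y : B → S, ∏ b, p b (y b) = ∏ b, ∑ c, p b c := by
  rw [prod_univ_sum, Fintype.piFinset_univ]

lemma prod_sq (p g : B → S → ℝ) (hp : ∀ b, ∑ c, p b c = 1) (hg : ∀ b, ∑ c, p b c * g b c = 0) :
    ∑ y : B → S, (∏ b, p b (y b)) * (∑ b, g b (y b)) ^ 2 = ∑ b, ∑ c, p b c * g b c ^ 2 := by
  have key : ∀ b b', ∑ y : B → S, (∏ e, p e (y e)) * (g b (y b) * g b' (y b')) =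
      if b' = b then ∑ c, p b c * g b c ^ 2 else 0 := by
    intro b b'
    have e : ∀ y : B → S, (∏ e, p e (y e)) * (g b (y b) * g b' (y b')) =
        ∏ e, (p e (y e) * ((if e = b then g b (y e) else 1) * if e = b' then g b' (y e) else 1)) := by
      intro y
      rw [prod_mul_distrib, prod_mul_distrib, prod_ite_eq', prod_ite_eq']
      simp
    simp only [e]
    rw [sum_prod fun e c => p e c * ((if e = b then g b c else 1) * if e = b' then g b' c else 1)]
    split_ifs with hb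
    · subst hb
      rw [prod_eq_single b']
      · simp [sq]
      · intro e _ he
        simp [he, hp]
      · simp
    · refine prod_eq_zero (mem_univ b) ?_
      simp [Ne.symm hb, hg]
  simp only [sq (∑ b, g b _), sum_mul_sum]
  simp only [mul_sum]
  rw [sum_comm]
  refine sum_congr rfl fun b _ => ?_
  rw [sum_comm]
  simp [key]

lemma prod_var (p f : B → S → ℝ) (hp : ∀ b, ∑ c, p b c = 1) :
    ∑ y : B → S, (∏ b, p b (y b)) * (∑ b, f b (y b) - ∑ b, ∑ c, p b c * f b c) ^ 2 ≤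
      ∑ b, ∑ c, p b c * f b c ^ 2 := by
  simp only [← sum_sub_distrib]
  rw [prod_sq p (fun b c => f b c - ∑ c, p b c * f b c) hp fun b => by
    simp only [mul_sub, sum_sub_distrib, ← sum_mul, hp, one_mul, sub_self]]
  refine sum_le_sum fun b _ => ?_
  set a := ∑ c, p b c * f b c with ha
  have : ∑ c, p b c * (f b c - a) ^ 2 =
      ∑ c, p b c * f b c ^ 2 - 2 * a * ∑ c, p b c * f b c + a ^ 2 * ∑ c, p b c := by
    simp only [mul_sum, ← sum_sub_distrib, ← sum_add_distrib]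
    exact sum_congr rfl fun c _ => by ring
  rw [this, ← ha, hp]
  nlinarith [sq_nonneg a]

lemma tv_prod_ge [DecidableEq S] [Nonempty S] (p f : B → S → ℝ) (h0 : ∀ b c, 0 ≤ p b c)
    (hp : ∀ b, ∑ c, p b c = 1) (hf : ∀ b, ∑ c, f b c = 0) {m V : ℝ} (hm : 0 < m)
    (h1 : ∑ b, ∑ c, p b c * f b c = m)
    (h2 : ∀ r : B → S → ℝ, (∀ b c, 0 ≤ r b c) → (∀ b, ∑ c, r b c = 1) →
      ∑ b, ∑ c, r b c * f b c ≤ m → ∑ b, ∑ c, r b c * f b c ^ 2 ≤ V) :
    1 - 8 * V / m ^ 2 ≤ tv (fun y : B → S => ∏ b, p b (y b)) univ := by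
  have hN : (0 : ℝ) < Fintype.card S := by exact_mod_cast Fintype.card_pos
  set φ : (B → S) → ℝ := fun y => if m / 2 ≤ ∑ b, f b (y b) then 1 else 0 with hφ
  have hs : ∑ y : B → S, ∏ b, p b (y b) = 1 := by rw [sum_prod]; simp [hp]
  have h3 := LowX.tv_ge _ hs univ univ_nonempty φ
    (fun y => by simp only [hφ]; split_ifs <;> norm_num)
    (fun y => by simp only [hφ]; split_ifs <;> norm_num)
  refine le_trans ?_ h3
  have h4 := prod_var p f hp
  rw [h1] at h4
  have h5 : 1 - 4 / m ^ 2 * V ≤ ∑ y, φ y * ∏ b, p b (y b) := by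
    have h6 : ∑ y : B → S, (1 - 4 / m ^ 2 * (∑ b, f b (y b) - m) ^ 2) * ∏ b, p b (y b) ≤
        ∑ y, φ y * ∏ b, p b (y b) := sum_le_sum fun y _ =>
      mul_le_mul_of_nonneg_right (LowX.cheb_pt hm) (prod_nonneg fun b _ => h0 _ _)
    refine le_trans ?_ h6
    simp only [sub_mul, one_mul, sum_sub_distrib, hs, mul_assoc, ← mul_sum]
    simp only [mul_comm _ (∏ b, p b _)]
    have := mul_le_mul_of_nonneg_left (h4.trans (h2 p h0 hp h1.le))
      (by positivity : 0 ≤ 4 / m ^ 2)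
    linarith
  have h6 : (∑ y, φ y) / ((univ : Finset (B → S)).card : ℝ) ≤ 4 / m ^ 2 * V := by
    set r : B → S → ℝ := fun _ _ => (Fintype.card S : ℝ)⁻¹ with hr
    have hr1 : ∀ b, ∑ c, r b c = 1 := fun b => by simp [hr, hN.ne']
    have hr2 : ∑ b, ∑ c, r b c * f b c = 0 := by simp [hr, ← mul_sum, hf]
    have h7 := (prod_var r f hr1).trans (h2 r (fun _ _ => by positivity) hr1 (hr2.le.trans hm.le))
    rw [hr2] at h7
    refine le_trans ?_ (mul_le_mul_of_nonneg_left h7 (by positivity))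
    rw [sum_div, mul_sum]
    refine sum_le_sum fun y _ => ?_
    have e : ∏ b, r b (y b) = (((univ : Finset (B → S)).card : ℝ))⁻¹ := by simp [hr]
    rw [e, div_eq_inv_mul, mul_left_comm]
    refine mul_le_mul_of_nonneg_left ?_ (by positivity)
    simp only [hφ, sub_zero]
    split_ifs with h8
    · rw [div_mul_eq_mul_div, le_div_iff₀ (by positivity)]; nlinarith
    · positivity
  have e : 8 * V / m ^ 2 = 4 / m ^ 2 * V + 4 / m ^ 2 * V := by ring
  rw [e]
  linarith

lemma tv_prod_le [DecidableEq S] [Nonempty S] (p : B → S → ℝ) (hp : ∀ b, ∑ c, p b c = 1) {χ : ℝ}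
    (h : ∀ b, Fintype.card S * ∑ c, (p b c - 1 / Fintype.card S) ^ 2 ≤ χ) :
    (2 * tv (fun y : B → S => ∏ b, p b (y b)) univ) ^ 2 ≤ Real.exp (Fintype.card B * χ) - 1 := by
  have gen : ∀ {T : Type} [Fintype T] [Nonempty T] (r : T → ℝ), ∑ c, r c = 1 →
      Fintype.card T * ∑ c, (r c - 1 / Fintype.card T) ^ 2 = Fintype.card T * ∑ c, r c ^ 2 - 1 := by
    intro T _ _ r hr
    have hN : (0 : ℝ) < Fintype.card T := by exact_mod_cast Fintype.card_pos
    simp only [sub_sq, sum_add_distrib, sum_sub_distrib, ← sum_mul, ← mul_sum, hr, sum_const,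
      card_univ, nsmul_eq_mul]
    field_simp
    ring
  have hs : ∑ y : B → S, ∏ b, p b (y b) = 1 := by rw [sum_prod]; simp [hp]
  have h1 := gen _ hs
  have h2 := sum_mul_sq_le_sq_mul_sq univ (fun _ : B → S => (1 : ℝ))
    fun y => |∏ b, p b (y b) - 1 / Fintype.card (B → S)|
  simp only [one_mul, one_pow, sum_const, card_univ, nsmul_eq_mul, mul_one, sq_abs] at h2
  rw [h1] at h2
  have e : 2 * tv (fun y : B → S => ∏ b, p b (y b)) univ =
      ∑ y : B → S, |∏ b, p b (y b) - 1 / Fintype.card (B → S)| := by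
    simp only [tv, mem_univ, if_true, card_univ]; ring
  rw [e]
  refine h2.trans (sub_le_sub_right ?_ 1)
  simp only [← prod_pow]
  rw [sum_prod fun b c => p b c ^ 2, Fintype.card_fun, Nat.cast_pow, ← card_univ (α := B),
    ← prod_const, ← prod_mul_distrib, ← nsmul_eq_mul, ← sum_const, Real.exp_sum]
  refine prod_le_prod (fun b _ => by positivity) fun b _ => ?_
  have := h b
  rw [gen _ (hp b)] at this
  linarith [Real.add_one_le_exp χ]

end prod

variable {d n : ℕ} {μ : Equiv.Perm (Fin d) → ℝ}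

lemma jumpBall_eq (v w : Slot d n) : jumpBall μ n v w = urnMat μ v.1 w.1 *
    (if w.1 = v.1 then (if w.2 = v.2 then 1 else 0) else 1 / (n : ℝ)) := by
  rw [jumpBall, urnMat, sum_mul]
  refine sum_congr rfl fun σ _ => ?_
  by_cases h : σ v.1 = w.1
  · rw [if_pos h, if_pos h, h]
  · rw [if_neg h, if_neg h, zero_mul]

lemma JB_apply (φ : Slot d n → ℝ) (v : Slot d n) : opM (jumpBall μ n) φ v =
    urnMat μ v.1 v.1 * (φ v - (∑ a, φ (v.1, a)) / n) +
      ∑ j, urnMat μ v.1 j * ((∑ a, φ (j, a)) / n) := by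
  rw [opM_apply, mulVec, dotProduct, Fintype.sum_prod_type]
  have e : ∀ j, ∑ a, jumpBall μ n v (j, a) * φ (j, a) =
      (if j = v.1 then urnMat μ v.1 v.1 * (φ v - (∑ a, φ (v.1, a)) / n) else 0) +
        urnMat μ v.1 j * ((∑ a, φ (j, a)) / n) := by
    intro j
    simp only [jumpBall_eq, mul_assoc, ← mul_sum]
    split_ifs with hj
    · subst hj
      simp only [ite_mul, one_mul, zero_mul, sum_ite_eq', mem_univ, if_true]
      ring
    · rw [← mul_sum]; ring
  simp only [e, sum_add_distrib, sum_ite_eq', mem_univ, if_true]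

lemma JB_fst (hn : 0 < n) (φ : Fin d → ℝ) :
    opM (jumpBall μ n) (fun c => φ c.1) = fun c => opM (urnMat μ) φ c.1 := by
  have hn' : (n : ℝ) ≠ 0 := by positivity
  funext c
  rw [JB_apply, opM_apply]
  simp [mulVec, dotProduct, hn']

lemma markov_JB (h : Hyp μ) (hn : 0 < n) : Markov (opM (jumpBall μ n)) := by
  refine ⟨fun φ ψ hle x => ?_, fun c x => ?_⟩
  · refine sum_le_sum fun y _ => mul_le_mul_of_nonneg_left (hle y) ?_
    change 0 ≤ jumpBall μ n x y
    rw [jumpBall_eq]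
    refine mul_nonneg (urn_nonneg h _ _) ?_
    split_ifs <;> positivity
  · have := congrFun (JB_fst (μ := μ) hn fun _ => c) x
    rw [this, opM_apply]
    simp [mulVec, dotProduct, ← sum_mul, urn_row h]

lemma heat_sum {S : Type} [Fintype S] [DecidableEq S] (A : Matrix S S ℝ) (s : ℝ) (x : S)
    (φ : S → ℝ) : ∑ c, heat A s x c * φ c = Pt (opM A) s φ x := by
  rw [op_eq_sum (Pt (opM A) s) φ x]
  exact sum_congr rfl fun c _ => by rw [heat_eq, mul_comm]

lemma heat_nonneg (h : Hyp μ) (hn : 0 < n) {s : ℝ} (hs : 0 ≤ s) (x c : Slot d n) :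
    0 ≤ heat (jumpBall μ n) s x c := by
  rw [heat_eq]
  exact ((markov_JB h hn).pt hs).nonneg (fun z => by split_ifs <;> norm_num) x

lemma heat_one (h : Hyp μ) (hn : 0 < n) {s : ℝ} (hs : 0 ≤ s) (x : Slot d n) :
    ∑ c, heat (jumpBall μ n) s x c = 1 := by
  have := heat_sum (jumpBall μ n) s x fun _ => 1
  rw [((markov_JB h hn).pt hs).const] at this
  simpa using this

/-- the centred indicator of a slot inside its urn -/
noncomputable def ind (y c : Slot d n) : ℝ :=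
  (if c = y then 1 else 0) - (if c.1 = y.1 then 1 / (n : ℝ) else 0)

lemma sum_ind (hn : 0 < n) (y : Slot d n) (j : Fin d) : ∑ a, ind y (j, a) = 0 := by
  have hn' : (n : ℝ) ≠ 0 := by positivity
  obtain ⟨i, b⟩ := y
  by_cases hj : j = i <;> simp [ind, hj, hn']

lemma Pt_ind (hn : 0 < n) (s : ℝ) (y x : Slot d n) :
    Pt (opM (jumpBall μ n)) s (ind y) x = Real.exp (-((1 - urnMat μ y.1 y.1) * s)) * ind y x := by
  rw [Pt_eigen _ (l := urnMat μ y.1 y.1) (fun c => ?_) s x]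
  · congr 2; ring
  · rw [JB_apply]
    simp only [sum_ind hn, zero_div, mul_zero, sum_const_zero, add_zero, sub_zero]
    by_cases hc : c.1 = y.1
    · rw [hc]
    · have : c ≠ y := fun e => hc (e ▸ rfl)
      simp [ind, hc, this]

lemma heat_ball (h : Hyp μ) (hn : 0 < n) {s : ℝ} (hs : 0 ≤ s) (x y : Slot d n) :
    heat (jumpBall μ n) s x y - 1 / (d * n) =
      Real.exp (-((1 - urnMat μ y.1 y.1) * s)) * ind y x +
        1 / n * Pt (opM (urnMat μ)) s (fun i => (if i = y.1 then 1 else 0) - 1 / d) x.1 := by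
  have e : (fun z => if z = y then (1 : ℝ) else 0) = fun z => ind y z +
      1 / n * ((if z.1 = y.1 then 1 else 0) - 1 / d) + 1 / (d * n) := by
    funext z
    simp only [ind]
    by_cases hz : z.1 = y.1
    · simp only [hz, if_true]; ring
    · simp only [hz, if_false]; ring
  rw [heat_eq, e, op_add, op_add, op_cmul, ((markov_JB h hn).pt hs).const, ← Pt_ind hn,
    Pt_comp (JB_fst hn) s (fun i => (if i = y.1 then 1 else 0) - 1 / d) x]
  ring

lemma urn_decay (h : Hyp μ) {g : ℝ} (hg : g < specGap μ) : ∃ κ : ℝ, 0 ≤ κ ∧ ∀ s, 0 ≤ s → ∀ i j,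
    Pt (opM (urnMat μ)) s (fun i => (if i = j then 1 else 0) - 1 / d) i ^ 2 ≤
      κ * Real.exp (-(2 * g * s)) := by
  obtain ⟨κ, R, h1, h2, h3⟩ := lyap h hg
  have hd : (0 : ℝ) < d := by exact_mod_cast (by linarith [h.two] : 0 < d)
  let W : Submodule ℝ (Fin d → ℝ) := LinearMap.ker (∑ i, LinearMap.proj i : (Fin d → ℝ) →ₗ[ℝ] ℝ)
  have hW : ∀ w, w ∈ W ↔ ∑ i, w i = 0 := fun w => by simp [W]
  have key : ∀ u v : Fin d → ℝ, u ⬝ᵥ (Rᵀ * R) *ᵥ v = R *ᵥ u ⬝ᵥ R *ᵥ v := fun u v => by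
    rw [← mulVec_mulVec, dotProduct_mulVec, vecMul_transpose]
  refine ⟨max κ 0, le_max_right _ _, fun s hs i j => ?_⟩
  set u : Fin d → ℝ := fun i => (if i = j then 1 else 0) - 1 / d with hu
  have h4 := decay (K := opM (urnMat μ)) (W := W) (M := Rᵀ * R) (β := g) (fun w hw => by
      rw [hW] at hw ⊢
      simp only [opM_apply, mulVec, dotProduct]
      rw [sum_comm]
      simp [← sum_mul, urn_col h, hw]) (isSymm_transpose_mul_self R) (fun w hw => by
      have := h3 w ((hW w).1 hw)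
      rw [mulVec_sub, dotProduct_sub] at this
      rw [key, key, opM_apply]
      linarith) hs (w := u) ((hW u).2 (by simp [hu, hd.ne']))
  rw [key, key] at h4
  have h5 : u ⬝ᵥ u ≤ 1 := by
    have e : u ⬝ᵥ u = 1 - 1 / d := by
      have : ∀ i, u i * u i = (if i = j then 1 - 2 / (d : ℝ) else 0) + 1 / d ^ 2 := by
        intro i
        simp only [hu]
        split_ifs <;> ring
      simp only [dotProduct, this, sum_add_distrib, sum_ite_eq', mem_univ, if_true, sum_const,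
        card_univ, Fintype.card_fin, nsmul_eq_mul]
      field_simp
      ring
    rw [e]
    have : 0 ≤ 1 / (d : ℝ) := by positivity
    linarith
  have h6 : R *ᵥ u ⬝ᵥ R *ᵥ u ≤ max κ 0 := by
    refine (h2 u).trans ((mul_le_mul_of_nonneg_right (le_max_left κ 0) ?_).trans ?_)
    · exact sum_nonneg fun _ _ => mul_self_nonneg _
    · exact mul_le_of_le_one_right (le_max_right _ _) h5
  have h7 : Pt (opM (urnMat μ)) s u i ^ 2 ≤ Pt (opM (urnMat μ)) s u ⬝ᵥ Pt (opM (urnMat μ)) s u := by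
    rw [sq]
    exact single_le_sum (f := fun i => Pt (opM (urnMat μ)) s u i * Pt (opM (urnMat μ)) s u i)
      (fun _ _ => mul_self_nonneg _) (mem_univ i)
  refine h7.trans ((h1 _).trans (h4.trans ?_))
  rw [mul_comm]
  exact mul_le_mul_of_nonneg_right h6 (Real.exp_pos _).le

lemma chi_ball (h : Hyp μ) (hn : 0 < n) {s κ g : ℝ} (hs : 0 ≤ s)
    (hκ : ∀ i j, Pt (opM (urnMat μ)) s (fun i => (if i = j then 1 else 0) - 1 / d) i ^ 2 ≤
      κ * Real.exp (-(2 * g * s))) (x : Slot d n) :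
    ∑ y, (heat (jumpBall μ n) s x y - 1 / (d * n)) ^ 2 ≤
      4 * Real.exp (-(2 * holdGap μ * s)) + 2 * d * κ * Real.exp (-(2 * g * s)) / n := by
  have hn' : (0 : ℝ) < n := by exact_mod_cast hn
  have hn1 : (1 : ℝ) ≤ n := by exact_mod_cast hn
  have h1 : ∀ y, (heat (jumpBall μ n) s x y - 1 / (d * n)) ^ 2 ≤
      2 * Real.exp (-(2 * holdGap μ * s)) *
        ((if x = y then 1 else 0) + if x.1 = y.1 then 1 / (n : ℝ) else 0) +
        2 * κ * Real.exp (-(2 * g * s)) / n ^ 2 := by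
    intro y
    rw [heat_ball h hn hs]
    have a1 : Real.exp (-((1 - urnMat μ y.1 y.1) * s)) ^ 2 ≤ Real.exp (-(2 * holdGap μ * s)) := by
      rw [← Real.exp_nat_mul, Real.exp_le_exp]
      have := mul_le_mul_of_nonneg_right (holdGap_le (μ := μ) y.1) hs
      push_cast
      linarith
    have a2 : ind y x ^ 2 ≤ (if x = y then 1 else 0) + if x.1 = y.1 then 1 / (n : ℝ) else 0 := by
      have b1 : 0 < 1 / (n : ℝ) := by positivity
      have b2 : 1 / (n : ℝ) ≤ 1 := by rw [div_le_one hn']; exact hn1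
      simp only [ind]
      split_ifs <;> nlinarith
    have a3 := mul_le_mul a1 a2 (sq_nonneg _) (Real.exp_pos _).le
    have a4 := mul_le_mul_of_nonneg_left (hκ x.1 y.1) (by positivity : 0 ≤ (1 / (n : ℝ)) ^ 2)
    rw [← mul_pow] at a3 a4
    have e : 2 * κ * Real.exp (-(2 * g * s)) / n ^ 2 =
        2 * ((1 / (n : ℝ)) ^ 2 * (κ * Real.exp (-(2 * g * s)))) := by ring
    rw [e]
    nlinarith [sq_nonneg (Real.exp (-((1 - urnMat μ y.1 y.1) * s)) * ind y x -
      1 / n * Pt (opM (urnMat μ)) s (fun i => (if i = y.1 then 1 else 0) - 1 / d) x.1)]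
  refine (sum_le_sum fun y _ => h1 y).trans (le_of_eq ?_)
  have e : ∑ y : Slot d n, (if x.1 = y.1 then 1 / (n : ℝ) else 0) = 1 := by
    rw [Fintype.sum_prod_type, sum_comm]
    simp [hn'.ne']
  rw [sum_add_distrib, ← mul_sum, sum_add_distrib, e]
  simp only [sum_ite_eq, mem_univ, if_true, sum_const, card_univ, LowX.card_slot, nsmul_eq_mul]
  push_cast
  field_simp
  ring

lemma q_part (h : Hyp μ) (hn : 2 ≤ n) (i : Fin d) {t : ℝ} (ht : 0 ≤ t)
    (h2 : 2 ≤ n * Real.exp (-((1 - urnMat μ i i) * t / n))) :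
    1 - 48 / (n * Real.exp (-((1 - urnMat μ i i) * t / n))) ≤ tv (heatY μ n t id) univ := by
  have hn0 : 0 < n := by omega
  have hn' : (2 : ℝ) ≤ n := by exact_mod_cast hn
  have : Nonempty (Slot d n) := ⟨(i, ⟨0, hn0⟩)⟩
  have hs : 0 ≤ t / n := by positivity
  set E := Real.exp (-((1 - urnMat μ i i) * t / n)) with hE
  have hE0 : 0 < E := Real.exp_pos _
  have hsum : ∀ c : ℝ, ∑ b : Slot d n, (if b.1 = i then c else 0) = n * c := fun c => by
    rw [Fintype.sum_prod_type, sum_comm]; simp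
  have h3 := tv_prod_ge (fun b c => heat (jumpBall μ n) (t / n) b c)
    (fun b c => if b.1 = i then ind b c else 0) (heat_nonneg h hn0 hs) (heat_one h hn0 hs)
    (fun b => by
      split_ifs
      · rw [Fintype.sum_prod_type]; simp [sum_ind hn0]
      · simp) (m := (n - 1) * E) (V := (n - 1) * E + 2) (by nlinarith) (by
      have e : ∀ b : Slot d n, ∑ c, heat (jumpBall μ n) (t / n) b c *
          (if b.1 = i then ind b c else 0) = if b.1 = i then E * (1 - 1 / n) else 0 := by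
        intro b
        split_ifs with hb
        · rw [heat_sum, Pt_ind hn0, hb, hE, mul_div_assoc]
          simp [ind]
        · simp
      simp only [e, hsum]
      field_simp) (fun r r0 r1 r2 => by
      have e : ∀ b : Slot d n, ∑ c, r b c * (if b.1 = i then ind b c else 0) ^ 2 ≤
          ∑ c, r b c * (if b.1 = i then ind b c else 0) + if b.1 = i then 2 / (n : ℝ) else 0 := by
        intro b
        split_ifs with hb
        · rw [← one_mul (2 / (n : ℝ)), ← r1 b, sum_mul, ← sum_add_distrib]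
          refine sum_le_sum fun c _ => ?_
          rw [← mul_add]
          refine mul_le_mul_of_nonneg_left ?_ (r0 _ _)
          have b1 : 0 < 1 / (n : ℝ) := by positivity
          have b2 : 1 / (n : ℝ) ≤ 1 := by rw [div_le_one (by linarith)]; linarith
          have b3 : 2 / (n : ℝ) = 2 * (1 / n) := by ring
          simp only [ind, b3]
          split_ifs <;> nlinarith
        · simp
      refine (sum_le_sum fun b _ => e b).trans ?_
      rw [sum_add_distrib, hsum]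
      have : (n : ℝ) * (2 / n) = 2 := by field_simp
      linarith)
  refine le_trans (sub_le_sub_left ?_ 1) h3
  have h4 : n * E ≤ 2 * ((n - 1) * E) := by nlinarith
  have h5 : 0 < (n - 1) * E := by nlinarith
  rw [div_le_div_iff₀ (by positivity) (by positivity)]
  nlinarith

lemma g_part (h : Hyp μ) (hn : 0 < n) {l : ℂ} {v : Fin d → ℂ} (hv0 : v ≠ 0) (hv1 : ∑ i, v i = 0)
    (hv : ∀ i, ∑ j, (urnMat μ i j : ℂ) * v j = l * v i) {t : ℝ} (ht : 0 ≤ t) :
    1 - 8 / (n * Real.exp (-(2 * (1 - l.re) * t / n))) ≤ tv (heatY μ n t id) univ := by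
  have hn' : (0 : ℝ) < n := by exact_mod_cast hn
  have : Nonempty (Slot d n) := ⟨(⟨0, by linarith [h.two]⟩, ⟨0, hn⟩)⟩
  have hs : 0 ≤ t / n := by positivity
  set V : ℝ := ∑ i, ‖v i‖ ^ 2 with hV
  have hle : ∀ i, ‖v i‖ ^ 2 ≤ V := fun i =>
    single_le_sum (f := fun i => ‖v i‖ ^ 2) (fun _ _ => by positivity) (mem_univ i)
  have hV0 : 0 < V := by
    obtain ⟨i, hi⟩ := Function.ne_iff.1 hv0
    exact lt_of_lt_of_le (pow_pos (norm_pos_iff.2 hi) 2) (hle i)
  set E : ℝ := Real.exp (-((1 - l.re) * (t / n))) with hE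
  have hE0 : 0 < E := Real.exp_pos _
  set θ : ℂ := Complex.exp (-((t / n * l.im : ℝ) * Complex.I)) with hθ
  have hθ1 : ‖θ‖ = 1 := by
    rw [hθ, ← neg_mul, ← Complex.ofReal_neg, Complex.norm_exp_ofReal_mul_I]
  have e2 : Complex.exp ((t / n : ℝ) * (l - 1)) * θ = (E : ℂ) := by
    rw [hθ, ← Complex.exp_add, hE, Complex.ofReal_exp]
    congr 1
    conv_lhs => rw [← Complex.re_add_im l]
    simp only [Complex.add_im, Complex.ofReal_im, Complex.mul_im, Complex.ofReal_re,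
      Complex.I_im, Complex.I_re]
    push_cast
    ring
  have hsum : ∀ c : ℝ, ∑ b : Slot d n, c * ‖v b.1‖ ^ 2 = n * c * V := fun c => by
    rw [Fintype.sum_prod_type, sum_comm]
    simp [hV, mul_sum, mul_assoc]
  have heig : ∀ (a : ℂ) i, ∑ j, (urnMat μ i j : ℂ) * (a * v j) = l * (a * v i) := fun a i => by
    rw [mul_left_comm, ← hv, mul_sum]
    exact sum_congr rfl fun j _ => by ring
  have h3 := tv_prod_ge (fun b c => heat (jumpBall μ n) (t / n) b c)
    (fun b c => (θ * (starRingEnd ℂ) (v b.1) * v c.1).re) (heat_nonneg h hn hs) (heat_one h hn hs)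
    (fun b => by
      rw [← Complex.re_sum, ← mul_sum, Fintype.sum_prod_type, sum_comm]
      simp [hv1]) (m := n * E * V) (V := n * V * V) (by positivity) (by
      rw [← hsum]
      refine sum_congr rfl fun b _ => ?_
      rw [heat_sum, (Pt_ceigen (opM (jumpBall μ n)) (l := l)
        (v := fun c => θ * (starRingEnd ℂ) (v b.1) * v c.1) (fun c => ?_) (fun c => ?_) _ b).1]
      · rw [mul_assoc θ, ← mul_assoc, e2, Complex.conj_mul', ← Complex.ofReal_pow,
          ← Complex.ofReal_mul, Complex.ofReal_re]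
      · rw [JB_fst hn fun i => (θ * (starRingEnd ℂ) (v b.1) * v i).re, ← heig, Complex.re_sum]
        simp only [Complex.re_ofReal_mul]
        rfl
      · rw [JB_fst hn fun i => (θ * (starRingEnd ℂ) (v b.1) * v i).im, ← heig, Complex.im_sum]
        simp only [Complex.im_ofReal_mul]
        rfl) (fun r r0 r1 _ => by
      rw [← hsum]
      refine sum_le_sum fun b _ => ?_
      rw [← one_mul (V * _), ← r1 b, sum_mul]
      refine sum_le_sum fun c _ => mul_le_mul_of_nonneg_left ?_ (r0 _ _)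
      have a1 := Complex.abs_re_le_norm (θ * (starRingEnd ℂ) (v b.1) * v c.1)
      rw [norm_mul, norm_mul, hθ1, one_mul, Complex.norm_conj] at a1
      refine (sq_le_sq' (abs_le.1 a1).1 (abs_le.1 a1).2).trans ?_
      rw [mul_pow, mul_comm]
      exact mul_le_mul_of_nonneg_right (hle _) (sq_nonneg _))
  refine le_trans (le_of_eq ?_) h3
  have e : Real.exp (-(2 * (1 - l.re) * t / n)) = E ^ 2 := by
    rw [hE, ← Real.exp_nat_mul]
    congr 1
    push_cast
    ring
  rw [e]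
  field_simp

end ProdY

variable {d : ℕ} {μ : Equiv.Perm (Fin d) → ℝ}

open ProdY in
theorem upperY (h : Hyp μ) {η ε : ℝ} (hη : 0 < η) (hε : 0 < ε) :
    ∀ᶠ n in atTop, ∀ x, tv (heatY μ n ((1 + η) * cutTime μ n) x) Finset.univ ≤ ε := by
  have hq := holdGap_pos h
  have hγ := specGap_pos h
  set g := specGap μ * ((1 + η / 2) / (1 + η)) with hg
  obtain ⟨κ, hκ0, hκ⟩ := urn_decay h (g := g) (mul_lt_of_lt_one_right hγ (by
    rw [div_lt_one (by positivity)]; linarith))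
  have h1 : Tendsto (fun n : ℕ => Real.exp ((4 * d ^ 2 + 2 * d ^ 3 * κ) * ((n : ℝ) ^ (η / 2))⁻¹) - 1)
      atTop (nhds (Real.exp ((4 * d ^ 2 + 2 * d ^ 3 * κ) * 0) - 1)) :=
    ((((tendsto_rpow_atTop (half_pos hη)).comp
      tendsto_natCast_atTop_atTop).inv_tendsto_atTop.const_mul _).rexp).sub_const 1
  simp only [mul_zero, Real.exp_zero, sub_self] at h1
  filter_upwards [h1.eventually (gt_mem_nhds (by positivity : 0 < (2 * ε) ^ 2)),
    eventually_gt_atTop 0] with n h2 hn x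
  have hn' : (0 : ℝ) < n := by exact_mod_cast hn
  have : Nonempty (Slot d n) := ⟨(⟨0, by linarith [h.two]⟩, ⟨0, hn⟩)⟩
  have hL : 0 ≤ Real.log n := Real.log_natCast_nonneg n
  set s := (1 + η) * cutTime μ n / n with hs
  set c := max (1 / holdGap μ) (1 / (2 * specGap μ)) with hc
  have es : s = (1 + η) * Real.log n * c := by rw [hs, cutTime]; field_simp; rfl
  have hc1 : 1 ≤ holdGap μ * c := by
    rw [← div_le_iff₀' hq]; exact le_max_left _ _
  have hc2 : 1 ≤ 2 * specGap μ * c := by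
    rw [← div_le_iff₀' (by positivity)]; exact le_max_right _ _
  have hs0 : 0 ≤ s := by
    have : 0 ≤ c := le_max_of_le_left (by positivity)
    rw [es]; positivity
  have h3 := tv_prod_le (fun b c => heat (jumpBall μ n) s (x b) c) (fun b => heat_one h hn hs0 _)
    (χ := d * n * (4 * Real.exp (-(2 * holdGap μ * s)) + 2 * d * κ * Real.exp (-(2 * g * s)) / n))
    (fun b => by
      rw [LowX.card_slot]
      push_cast
      exact mul_le_mul_of_nonneg_left (chi_ball h hn hs0 (hκ s hs0) _) (by positivity))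
  have e0 : ((n : ℝ) ^ (η / 2))⁻¹ = Real.exp (-(Real.log n * (η / 2))) := by
    rw [Real.rpow_def_of_pos hn', Real.exp_neg]
  have a1 : (n : ℝ) ^ 2 * Real.exp (-(2 * holdGap μ * s)) ≤ ((n : ℝ) ^ (η / 2))⁻¹ := by
    rw [e0]
    conv_lhs => rw [← Real.exp_log hn', ← Real.exp_nat_mul, ← Real.exp_add]
    rw [Real.exp_le_exp, es]
    have := mul_le_mul_of_nonneg_left hc1 (by positivity : 0 ≤ (1 + η) * Real.log n)
    push_cast
    nlinarith [mul_nonneg hL hη.le]
  have a2 : (n : ℝ) * Real.exp (-(2 * g * s)) ≤ ((n : ℝ) ^ (η / 2))⁻¹ := by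
    rw [e0]
    conv_lhs => rw [← Real.exp_log hn', ← Real.exp_add]
    rw [Real.exp_le_exp]
    have e : 2 * g * s = (1 + η / 2) * Real.log n * (2 * specGap μ * c) := by
      rw [es, hg]; field_simp
    have := mul_le_mul_of_nonneg_left hc2 (by positivity : 0 ≤ (1 + η / 2) * Real.log n)
    rw [e]
    linarith
  have h4 : (Fintype.card (Slot d n) : ℝ) * (d * n * (4 * Real.exp (-(2 * holdGap μ * s)) +
      2 * d * κ * Real.exp (-(2 * g * s)) / n)) ≤
      (4 * d ^ 2 + 2 * d ^ 3 * κ) * ((n : ℝ) ^ (η / 2))⁻¹ := by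
    rw [LowX.card_slot]
    push_cast
    have b1 := mul_le_mul_of_nonneg_left a1 (by positivity : (0 : ℝ) ≤ 4 * d ^ 2)
    have b2 := mul_le_mul_of_nonneg_left a2 (by positivity : (0 : ℝ) ≤ 2 * d ^ 3 * κ)
    refine le_trans (le_of_eq ?_) ((add_le_add b1 b2).trans (le_of_eq (add_mul _ _ _).symm))
    field_simp
  have h5 := (h3.trans (sub_le_sub_right (Real.exp_le_exp.2 h4) 1)).trans h2.le
  have h6 := le_of_sq_le_sq h5 (by positivity)
  change tv (fun y : Slot d n → Slot d n => ∏ b, heat (jumpBall μ n) s (x b) (y b)) univ ≤ ε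
  linarith

open ProdY in
theorem lowerY (h : Hyp μ) {η ε : ℝ} (hη : 0 < η) (hε : ε < 1) :
    ∀ᶠ n in atTop, ∀ t, 0 ≤ t → t ≤ (1 - η) * cutTime μ n →
      ∃ x, ε < tv (heatY μ n t x) Finset.univ := by
  have hq := holdGap_pos h
  have hg := specGap_pos h
  rcases le_total (1 / (2 * specGap μ)) (1 / holdGap μ) with hc | hc
  · obtain ⟨i, hi⟩ := exists_holdGap h
    filter_upwards [LowX.ev_small hη hε 0 48, eventually_ge_atTop 2,
      ((tendsto_rpow_atTop hη).comp tendsto_natCast_atTop_atTop).eventually_ge_atTop 2]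
      with n h1 hn h0 t ht htT
    rw [cutTime, max_eq_left hc] at htT
    have h2 : holdGap μ * t ≤ (1 - η) * (n * Real.log n) := by
      refine (mul_le_mul_of_nonneg_left htT hq.le).trans (le_of_eq ?_)
      field_simp
    have h3 := LowX.exp_ge (by omega) h2
    rw [hi] at h3
    refine ⟨id, h1.trans_le (le_trans ?_ (q_part h hn i ht (le_trans h0 h3)))⟩
    have h4 : (0 : ℝ) < (n : ℝ) ^ η := by positivity
    rw [zero_mul, zero_add]
    gcongr
  · obtain ⟨l, v, hv0, hv1, hv, hl⟩ := exists_specGap h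
    filter_upwards [LowX.ev_small hη hε 0 8, eventually_gt_atTop 0] with n h1 hn t ht htT
    refine ⟨id, h1.trans_le (le_trans ?_ (g_part h hn hv0 hv1 hv ht))⟩
    rw [cutTime, max_eq_right hc] at htT
    have h2 : 2 * specGap μ * t ≤ (1 - η) * (n * Real.log n) := by
      refine (mul_le_mul_of_nonneg_left htT (by positivity)).trans (le_of_eq ?_)
      field_simp
    have h3 := LowX.exp_ge hn h2
    have h4 : (0 : ℝ) < (n : ℝ) ^ η := by positivity
    rw [← hl, zero_mul, zero_add]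
    gcongr

end Pool.Agent.P.MP_c47a54_pr
end

-- part Pool.Agent.P.MP_c47a54_pr.Tuple
section

namespace Pool.Agent.P.MP_c47a54_pr

open Equiv Finset Matrix Module WithLp
open Function hiding swap
open scoped RealInnerProductSpace

section
variable {E : Type} [NormedAddCommGroup E] [InnerProductSpace ℝ E] [FiniteDimensional ℝ E]

lemma split_bound {W' W : Submodule ℝ E} (h : W' ≤ W) (l : E →ₗ[ℝ] ℝ) {a b : ℝ} (ha : 0 ≤ a)
    (hb : 0 ≤ b) (h1 : ∀ φ ∈ W', l φ ^ 2 ≤ a * ‖φ‖ ^ 2)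
    (h2 : ∀ φ ∈ W'ᗮ ⊓ W, l φ ^ 2 ≤ b * ‖φ‖ ^ 2) : ∀ φ ∈ W, l φ ^ 2 ≤ (a + b) * ‖φ‖ ^ 2 := by
  intro φ hφ
  obtain ⟨x, hx, y, hy, rfl⟩ := W'.exists_add_mem_mem_orthogonal φ
  have hy' : y ∈ W := by simpa using W.sub_mem hφ (h hx)
  have e : ‖x + y‖ ^ 2 = ‖x‖ ^ 2 + ‖y‖ ^ 2 := by
    rw [norm_add_sq_real, Submodule.inner_right_of_mem_orthogonal hx hy]; ring
  have a1 := h1 x hx
  have a2 := h2 y ⟨hy, hy'⟩
  have a3 : l x * l y ≤ (a * ‖y‖ ^ 2 + b * ‖x‖ ^ 2) / 2 := by
    refine le_trans (le_abs_self _) (abs_le_of_sq_le_sq ?_ (by positivity))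
    have := mul_le_mul a1 a2 (sq_nonneg _) (by positivity)
    nlinarith [sq_nonneg (a * ‖y‖ ^ 2 - b * ‖x‖ ^ 2)]
  rw [e, map_add]
  nlinarith

lemma hs_step {Y I : Type} [Fintype Y] [Fintype I] {W' W : Submodule ℝ E} (h : W' ≤ W)
    (l : Y → E →ₗ[ℝ] ℝ) {H' : Y → ℝ} (h0 : ∀ y, 0 ≤ H' y)
    (h1 : ∀ y, ∀ φ ∈ W', l y φ ^ 2 ≤ H' y * ‖φ‖ ^ 2) {r : ℝ} (hr0 : 0 ≤ r)
    (hr : ∀ φ ∈ W, ∑ y, l y φ ^ 2 ≤ r * ‖φ‖ ^ 2) (f : E →ₗ[ℝ] (I → ℝ))
    (hf : ∀ φ ∈ W, f φ = 0 → φ ∈ W') : ∃ H : Y → ℝ, (∀ y, 0 ≤ H y) ∧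
      (∀ y, ∀ φ ∈ W, l y φ ^ 2 ≤ H y * ‖φ‖ ^ 2) ∧ ∑ y, H y ≤ ∑ y, H' y + Fintype.card I * r := by
  set C := W'ᗮ ⊓ W with hC
  set e := stdOrthonormalBasis ℝ C with he
  have hd : finrank ℝ C ≤ Fintype.card I := by
    rw [← finrank_fintype_fun_eq_card ℝ]
    refine LinearMap.finrank_le_finrank_of_injective (f := f ∘ₗ C.subtype) ?_
    rw [injective_iff_map_eq_zero]
    intro x hx
    exact Subtype.ext (inner_self_eq_zero.1
      (Submodule.inner_right_of_mem_orthogonal (hf _ x.2.2 hx) x.2.1))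
  refine ⟨fun y => H' y + ∑ i, l y (e i) ^ 2, fun y => add_nonneg (h0 y) (by positivity),
    fun y => split_bound h (l y) (h0 y) (by positivity) (h1 y) fun φ hφ => ?_, ?_⟩
  · have e1 : l y φ = ∑ i, l y (e i) * ⟪e i, (⟨φ, hφ⟩ : C)⟫ := by
      have := congrArg (fun x : C => l y x) (e.sum_repr' ⟨φ, hφ⟩)
      simp only [Submodule.coe_sum, Submodule.coe_smul, map_sum, map_smul, smul_eq_mul] at this
      rw [← this]
      exact sum_congr rfl fun _ _ => mul_comm _ _
    have e2 : ∑ i, ⟪e i, (⟨φ, hφ⟩ : C)⟫ ^ 2 = ‖φ‖ ^ 2 := e.sum_sq_inner_right ⟨φ, hφ⟩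
    rw [e1, ← e2]
    exact sum_mul_sq_le_sq_mul_sq _ _ _
  · rw [sum_add_distrib, sum_comm]
    gcongr
    refine (sum_le_sum (g := fun _ => r) fun i _ => ?_).trans ?_
    · have := hr _ (e i).2.2
      rwa [← Submodule.coe_norm, e.orthonormal.1 i, one_pow, mul_one] at this
    · rw [sum_const, card_univ, Fintype.card_fin, nsmul_eq_mul]
      gcongr

end

variable {d n : ℕ} {μ : Perm (Fin d) → ℝ} {ι : Type} [Fintype ι] [DecidableEq ι]

/-- the motion of the balls indexed by `ι` -/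
noncomputable def KT (μ : Perm (Fin d) → ℝ) (n : ℕ) (ι : Type) [Fintype ι] [DecidableEq ι] :
    Op (ι → Slot d n) := Kup (wt μ n) fun ω y a => mv ω (y a)

/-- invariance under the transpositions inside an urn that avoid `Z` -/
def Inv (Z : Finset (Slot d n)) (ψ : (ι → Slot d n) → ℝ) : Prop :=
  ∀ i (a b : Fin n), (i, a) ∉ Z → (i, b) ∉ Z → ∀ y, ψ (fun c => swap (i, a) (i, b) (y c)) = ψ y

/-- the filtration of the functions of injective tuples with zero marginals -/
def GG (d n : ℕ) (ι : Type) [Fintype ι] [DecidableEq ι] (j : ℕ) :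
    Submodule ℝ ((ι → Slot d n) → ℝ) where
  carrier := {φ | (∀ y, ¬Injective y → φ y = 0) ∧ (∀ a y, ∑ v, φ (update y a v) = 0) ∧
    ∀ Z : Finset (Slot d n), Z.card < j → ∀ ψ, Inv Z ψ → φ ⬝ᵥ ψ = 0}
  add_mem' := fun ha hb => ⟨fun y hy => by simp [ha.1 y hy, hb.1 y hy],
    fun a y => by simp [sum_add_distrib, ha.2.1 a y, hb.2.1 a y],
    fun Z hZ ψ hψ => by simp [ha.2.2 Z hZ ψ hψ, hb.2.2 Z hZ ψ hψ]⟩
  zero_mem' := ⟨fun _ _ => rfl, by simp, by simp⟩
  smul_mem' := fun c φ ha => ⟨fun y hy => by simp [ha.1 y hy],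
    fun a y => by simp [← mul_sum, ha.2.1 a y], fun Z hZ ψ hψ => by simp [ha.2.2 Z hZ ψ hψ]⟩

lemma swap_fst (i : Fin d) (a b : Fin n) (v : Slot d n) : (swap (i, a) (i, b) v).1 = v.1 := by
  rw [swap_apply_def]; split_ifs with h1 h2
  · rw [h1]
  · rw [h2]
  · rfl

lemma swap_slot (i : Fin d) (a b : Fin n) (v : Slot d n) :
    swap (i, a) (i, b) v = (v.1, if v.1 = i then swap a b v.2 else v.2) := by
  obtain ⟨i', c⟩ := v
  by_cases h : i' = i
  · subst h
    simp only [swap_apply_def, Prod.mk.injEq, true_and, if_true]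
    split_ifs <;> rfl
  · simp [swap_apply_def, h]

lemma move_conj (σ : Perm (Fin d)) (x : Fin d → Fin n) (i : Fin d) (a b : Fin n) :
    move σ (update x i (swap a b (x i))) * swap (i, a) (i, b) = swap (i, a) (i, b) * move σ x := by
  have e : ∀ j, update x i (swap a b (x i)) j = if j = i then swap a b (x j) else x j := fun j => by
    by_cases h : j = i
    · subst h; simp
    · simp [h]
  ext1 v
  simp only [Perm.mul_apply, move_apply, swap_slot, e]
  by_cases h : v.2 = x v.1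
  · simp [h]
  · rw [if_neg h, if_neg]
    split_ifs
    · simpa using h
    · exact h

lemma KT_mem {j : ℕ} (φ : (ι → Slot d n) → ℝ) (h : φ ∈ GG d n ι j) :
    KT μ n ι φ ∈ GG d n ι j := by
  refine ⟨fun y hy => sum_eq_zero fun ω _ => ?_, fun a y => ?_, fun Z hZ ψ hψ => ?_⟩
  · exact mul_eq_zero_of_right _ (h.1 _ fun h' => hy (Injective.of_comp (f := mv ω) h'))
  · simp only [KT, Kup_apply]
    rw [sum_comm]
    refine sum_eq_zero fun ω _ => ?_
    rw [← mul_sum, ← mul_zero (wt μ n ω), ← h.2.1 a fun c => mv ω (y c),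
      ← Equiv.sum_comp (mv ω) fun v => φ (update (fun c => mv ω (y c)) a v)]
    exact congrArg _ (sum_congr rfl fun v _ => congrArg φ (comp_update (mv ω) y a v))
  · rw [← h.2.2 Z hZ (fun y => ∑ ω, wt μ n ω * ψ fun c => (mv ω)⁻¹ (y c))]
    · simp only [KT, Kup_apply, dotProduct, sum_mul, mul_sum]
      rw [sum_comm, sum_comm (f := fun y ω => φ y * _)]
      refine sum_congr rfl fun ω _ => ?_
      refine Fintype.sum_equiv (Equiv.piCongrRight fun _ => mv ω) _ _ fun y => ?_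
      have : (fun c => (mv ω)⁻¹ ((piCongrRight fun _ => mv ω) y c)) = y := by funext c; simp
      rw [this, mul_left_comm, mul_assoc]
      rfl
    · intro i a b ha hb y
      refine Fintype.sum_bijective (fun ω : Om d n => (ω.1, update ω.2 i (swap a b (ω.2 i))))
        (Involutive.bijective fun ω => by simp) _ _ fun ω => ?_
      rw [← hψ i a b ha hb fun c => (mv (ω.1, update ω.2 i (swap a b (ω.2 i))))⁻¹ (y c)]
      refine congrArg (wt μ n ω * ψ ·) (funext fun c => ?_)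
      have := congrArg (fun g => g⁻¹ (y c)) (move_conj ω.1 ω.2 i a b)
      simpa using this.symm

lemma GG_pattern {j : ℕ} {φ : (ι → Slot d n) → ℝ} (h : φ ∈ GG d n ι j) (A : Finset ι)
    (hA : A.card < j) : tn A 1 (lift n 1) *ᵥ φ = 0 := by
  funext y
  rw [mulVec, dotProduct_comm]
  refine h.2.2 (A.image y) (card_image_le.trans_lt hA) _ fun i a b ha hb z => ?_
  simp only [tn_apply, lift]
  refine congrArg₂ _ (prod_congr rfl fun c hc => ?_) (prod_congr rfl fun c _ => by rw [swap_fst])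
  have : swap (i, a) (i, b) (y c) = y c := swap_apply_of_ne_of_ne
    (fun e => ha (e ▸ mem_image_of_mem y hc)) (fun e => hb (e ▸ mem_image_of_mem y hc))
  simp only [one_apply]
  conv_lhs => rw [← this]
  simp only [EmbeddingLike.apply_eq_iff_eq]

lemma GG_top {φ : (ι → Slot d n) → ℝ} (h : φ ∈ GG d n ι (Fintype.card ι + 1)) : φ = 0 := by
  funext y
  have := h.2.2 (univ.image y) (Nat.lt_succ_of_le card_image_le) (fun z => if z = y then 1 else 0)
    fun i a b ha hb z => ?_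
  · simpa [dotProduct] using this
  · have e : ∀ c, swap (i, a) (i, b) (y c) = y c := fun c => swap_apply_of_ne_of_ne
      (fun e => ha (e ▸ mem_image_of_mem y (mem_univ c)))
      (fun e => hb (e ▸ mem_image_of_mem y (mem_univ c)))
    simp only [funext_iff, swap_apply_eq_iff, e]

lemma Inv.eq {Z : Finset (Slot d n)} {ψ : (ι → Slot d n) → ℝ} (h : Inv Z ψ) {z : ι → Slot d n}
    (hz : Injective z) (m : ℕ) : ∀ y : ι → Slot d n, (univ.filter fun c => y c ≠ z c).card = m →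
      Injective y → (∀ c, (y c).1 = (z c).1) → (∀ c, y c ∈ Z ∨ z c ∈ Z → y c = z c) → ψ y = ψ z := by
  induction m using Nat.strong_induction_on with
  | _ m ih =>
    intro y hm hy h1 h2
    by_cases hyz : y = z
    · rw [hyz]
    obtain ⟨a, ha⟩ := Function.ne_iff.1 hyz
    have e : z a = ((y a).1, (z a).2) := Prod.ext (h1 a).symm rfl
    have hya : y a ∉ Z := fun h => ha (h2 a (Or.inl h))
    have hza : z a ∉ Z := fun h => ha (h2 a (Or.inr h))
    rw [← h (y a).1 (y a).2 (z a).2 hya (e ▸ hza) y, ← e]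
    have key : ∀ c, y c = z c → swap (y a) (z a) (y c) = z c := fun c hc => by
      rw [← hc]
      exact swap_apply_of_ne_of_ne (fun e => ha (hy e ▸ hc)) fun e => ha (hz (hc ▸ e) ▸ hc)
    have hlt : (univ.filter fun c => swap (y a) (z a) (y c) ≠ z c).card < m := by
      refine hm ▸ card_lt_card ⟨fun c => ?_, fun hs => ?_⟩
      · simpa using fun h1 h2 => h1 (key c h2)
      · simpa using hs (mem_filter.2 ⟨mem_univ a, ha⟩)
    refine ih _ hlt _ rfl ((Equiv.swap _ _).injective.comp hy) (fun c => ?_)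
      fun c hc => key c (h2 c (hc.imp_left fun hc => ?_))
    · rw [← h1 c]; conv_lhs => rw [e]
      exact swap_fst _ _ _ _
    · rw [swap_apply_def] at hc
      split_ifs at hc
      · exact absurd hc hza
      · exact absurd hc hya
      · exact hc

/-- the orbit data of a tuple -/
noncomputable def cls (Z : Finset (Slot d n)) (y : ι → Slot d n) : (Z → Option ι) × (ι → Fin d) :=
  (fun z => if h : ∃ c, y c = z then some h.choose else none, fun c => (y c).1)

lemma cls_eq {Z : Finset (Slot d n)} {y z : ι → Slot d n} (hy : Injective y)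
    (h : cls Z y = cls Z z) {c : ι} (hc : y c ∈ Z) : y c = z c := by
  have h1 := congrFun (congrArg Prod.fst h) ⟨y c, hc⟩
  have h2 : ∃ c', y c' = y c := ⟨c, rfl⟩
  simp only [cls, dif_pos h2] at h1
  split_ifs at h1 with h3
  rw [hy h2.choose_spec, Option.some_inj] at h1
  conv_rhs => rw [h1, h3.choose_spec]

lemma GG_step {j : ℕ} {φ : (ι → Slot d n) → ℝ} (h : φ ∈ GG d n ι j)
    (h0 : ∀ Z : Finset (Slot d n), Z.card = j → ∀ q, ∑ y with cls Z y = q, φ y = 0) :
    φ ∈ GG d n ι (j + 1) := by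
  refine ⟨h.1, h.2.1, fun Z hZ ψ hψ => ?_⟩
  rcases (Nat.lt_succ_iff.1 hZ).lt_or_eq with hZ | hZ
  · exact h.2.2 Z hZ ψ hψ
  rw [dotProduct, ← sum_fiberwise (s := univ) (g := cls Z)]
  refine sum_eq_zero fun q _ => ?_
  by_cases hq : ∃ z, Injective z ∧ cls Z z = q
  · obtain ⟨z, hz, rfl⟩ := hq
    rw [← zero_mul (ψ z), ← h0 Z hZ (cls Z z), sum_mul]
    refine sum_congr rfl fun y hy => ?_
    have hy := (mem_filter.1 hy).2
    by_cases hi : Injective y
    · rw [hψ.eq hz _ y rfl hi (congrFun (congrArg Prod.snd hy)) fun c hc =>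
        hc.elim (cls_eq hi hy) fun hc => (cls_eq hz hy.symm hc).symm]
    · simp [h.1 y hi]
  · exact sum_eq_zero fun y hy => by
      rw [h.1 y fun hi => hq ⟨y, hi, (mem_filter.1 hy).2⟩, zero_mul]

lemma GG_mono (j : ℕ) : GG d n ι (j + 1) ≤ GG d n ι j := fun _ h =>
  ⟨h.1, h.2.1, fun Z hZ => h.2.2 Z (by omega)⟩

/-- Hilbert-Schmidt bound from decay rates on the filtration -/
theorem hs_bound (P : Op (ι → Slot d n)) {r : ℕ → ℝ} (hr0 : ∀ j, 0 ≤ r j)
    (hr : ∀ j, ∀ φ ∈ GG d n ι j, P φ ⬝ᵥ P φ ≤ r j * (φ ⬝ᵥ φ)) :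
    ∃ H : (ι → Slot d n) → ℝ, (∀ y, 0 ≤ H y) ∧
      (∀ y, ∀ φ ∈ GG d n ι 0, P φ y ^ 2 ≤ H y * (φ ⬝ᵥ φ)) ∧
      ∑ y, H y ≤ ∑ j ∈ range (Fintype.card ι + 1),
        ((d * n).choose j * (Fintype.card ι + 1) ^ j * d ^ Fintype.card ι : ℕ) * r j := by
  set k := Fintype.card ι with hk
  set L := (WithLp.linearEquiv 2 ℝ ((ι → Slot d n) → ℝ)).toLinearMap with hL
  have nn : ∀ φ : EuclideanSpace ℝ (ι → Slot d n), ‖φ‖ ^ 2 = φ.ofLp ⬝ᵥ φ.ofLp := fun φ => by
    rw [EuclideanSpace.real_norm_sq_eq]; simp [dotProduct, sq]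
  set l : (ι → Slot d n) → EuclideanSpace ℝ (ι → Slot d n) →ₗ[ℝ] ℝ :=
    fun y => LinearMap.proj y ∘ₗ P.toLinearMap ∘ₗ L with hl
  have key : ∀ j ≤ k + 1, ∃ H : (ι → Slot d n) → ℝ, (∀ y, 0 ≤ H y) ∧
      (∀ y, ∀ φ ∈ (GG d n ι j).comap L, l y φ ^ 2 ≤ H y * ‖φ‖ ^ 2) ∧
      ∑ y, H y ≤ ∑ j ∈ Ico j (k + 1), ((d * n).choose j * (k + 1) ^ j * d ^ k : ℕ) * r j := by
    intro j hj
    induction hj using Nat.decreasingInduction with
    | self =>
      refine ⟨0, fun _ => le_rfl, fun y φ hφ => ?_, by simp⟩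
      have : L φ = 0 := GG_top hφ
      simp [hl, this]
    | of_succ j hj ih =>
      obtain ⟨H', h0, h1, h2⟩ := ih
      obtain ⟨H, a0, a1, a2⟩ := hs_step (Submodule.comap_mono (GG_mono j)) l h0 h1 (hr0 j)
        (fun φ hφ => by rw [nn]; simpa [dotProduct, sq, hl, hL] using hr j _ hφ)
        (I := Σ Z : powersetCard j (univ : Finset (Slot d n)), (Z.1 → Option ι) × (ι → Fin d))
        (LinearMap.pi fun q => (∑ y with cls q.1.1 y = q.2, LinearMap.proj y) ∘ₗ L)
        fun φ hφ hf => GG_step hφ fun Z hZ q => by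
          simpa using congrFun hf ⟨⟨Z, by simpa using hZ⟩, q⟩
      refine ⟨H, a0, a1, a2.trans ?_⟩
      rw [sum_eq_sum_Ico_succ_bot hj, add_comm]
      refine add_le_add (le_of_eq ?_) h2
      congr 2
      rw [Fintype.card_sigma, sum_congr rfl (g := fun _ => (k + 1) ^ j * d ^ k)]
      · simp [mul_assoc]
      · intro Z _
        simp [(mem_powersetCard.1 Z.2).2, hk]
  obtain ⟨H, h0, h1, h2⟩ := key 0 (by omega)
  refine ⟨H, h0, fun y φ hφ => ?_, by rwa [range_eq_Ico]⟩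
  have := h1 y (toLp 2 φ) hφ
  rwa [nn] at this

/-- decay on the filtration -/
theorem tuple_decay (h : Hyp μ) {R : Matrix (Fin d) (Fin d) ℝ} {g q κ : ℝ} (hκ : 1 ≤ κ)
    (hq : ∀ i, q ≤ 1 - urnMat μ i i) (hgq : g ≤ q) (h1 : ∀ u, u ⬝ᵥ u ≤ R *ᵥ u ⬝ᵥ R *ᵥ u)
    (h2 : ∀ u, R *ᵥ u ⬝ᵥ R *ᵥ u ≤ κ * (u ⬝ᵥ u)) (hR : ∀ u, ∑ i, u i = 0 →
      R *ᵥ u ⬝ᵥ R *ᵥ (urnMat μ *ᵥ u - u) ≤ -g * (R *ᵥ u ⬝ᵥ R *ᵥ u)) :
    ∃ b : ℝ, 0 < b ∧ ∀ n k : ℕ, 0 < n → k * b ≤ n → ∀ t, 0 ≤ t → ∀ j, ∀ φ ∈ GG d n (Fin k) j,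
      Pt (KT μ n (Fin k)) t φ ⬝ᵥ Pt (KT μ n (Fin k)) t φ ≤ κ ^ k *
        Real.exp (-(2 * ((g * k + (q - g) * j) / n - (k * b / n) ^ 2) * t)) * (φ ⬝ᵥ φ) := by
  obtain ⟨C, hC, hrc⟩ := rowcol R
  refine ⟨2 * C + 1, by positivity, fun n k hn hk t ht j φ hφ => ?_⟩
  have hn' : (0 : ℝ) < n := by exact_mod_cast hn
  have : Nonempty (Slot d n) := ⟨(⟨0, by have := h.two; omega⟩, ⟨0, hn⟩)⟩
  have e : ∀ ψ : (Fin k → Slot d n) → ℝ, ψ ⬝ᵥ ten (fun _ => (Sm n R)ᵀ * Sm n R) *ᵥ ψ =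
      tn univ (Sm n R) 1 *ᵥ ψ ⬝ᵥ tn univ (Sm n R) 1 *ᵥ ψ := fun ψ => by
    rw [dot_tr, tn_transpose, tn_mul]; simp [tn]
  have hd := decay (K := KT μ n (Fin k)) KT_mem (M := ten fun _ => (Sm n R)ᵀ * Sm n R)
    (β := (g * k + (q - g) * j) / n - (k * (2 * C + 1) / n) ^ 2)
    (by rw [IsSymm, ← tn_same ∅, tn_transpose, transpose_mul, transpose_transpose])
    (fun w hw => ?_) ht hφ
  · rw [e, e] at hd
    refine (norm_tn_ge (Sm_ge hn h1) univ _).trans (hd.trans ?_)
    have := norm_tn_le (by linarith) (Sm_le hn hκ h2) univ φ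
    rw [card_univ, Fintype.card_fin] at this
    rw [mul_comm (κ ^ k), mul_assoc _ (κ ^ k)]
    gcongr
  · have := main_form (ι := Fin k) (wt_nonneg h) mv (lift_transpose 1 |>.trans (by simp))
      (lift_mul hn 1 1 |>.trans (by simp)) (Sm_split hn R) (Sm_ge hn h1) (α := g / n)
      (β := (q - g) / n) (b := (2 * C + 1) / n) (by have := sub_nonneg.2 hgq; positivity)
      (by positivity) (by rwa [Fintype.card_fin, ← mul_div_assoc, div_le_one hn'])
      (one_body_le h hn hq hR) (fun ω v => (hrc n hn ω v).1) (fun ω v => (hrc n hn ω v).2)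
      (fun T y hy => (sum_prod_sel' h hn T hy hC).trans (by gcongr; linarith))
      (fun y hy => by_contra fun hi => hy (hw.1 y hi)) hw.2.1 (GG_pattern hw)
    refine this.trans_eq ?_
    rw [Fintype.card_fin]; ring

end Pool.Agent.P.MP_c47a54_pr
end
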