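import Pool.Agent.K.MP_c47a54_pr.C3
import Pool.Agent.K.MP_c47a54_pr.C2
import Pool.Agent.K.MP_c47a54_pr.C0

namespace Pool.Agent.P.MP_c47a54_pr

open Equiv Finset Matrix Module WithLp Filter
open scoped RealInnerProductSpace

variable {d n : ℕ} {μ : Perm (Fin d) → ℝ}

lemma mem_spaceX {y : Perm (Slot d n)} :
    y ∈ spaceX μ n ↔ (∀ σ, μ σ ≠ 0 → Perm.sign σ = 1) → Perm.sign y = 1 := by simp [spaceX]

lemma mv_mul_mem {ω : Om d n} (h : wt μ n ω ≠ 0) (y : Perm (Slot d n)) :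
    mv ω * y ∈ spaceX μ n ↔ y ∈ spaceX μ n := by
  simp only [mem_spaceX]
  refine forall_congr' fun h1 => ?_
  rw [map_mul, sign_move, h1 ω.1 fun e => h (by simp [wt, e]), one_mul]

lemma Pt_mul_left {s : Perm (Slot d n) → ℝ} (hs : ∀ ω y, wt μ n ω ≠ 0 → s (mv ω * y) = s y)
    (f : Perm (Slot d n) → ℝ) (t : ℝ) (x : Perm (Slot d n)) :
    Pt (KX μ n) t (fun y => s y * f y) x = s x * Pt (KX μ n) t f x := by
  have h1 : ∀ f : Perm (Slot d n) → ℝ, KX μ n (fun y => s y * f y) = fun y => s y * KX μ n f y := by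
    intro f
    funext y
    simp only [KX_apply, mul_sum]
    refine sum_congr rfl fun ω _ => ?_
    by_cases h : wt μ n ω = 0
    · simp [h]
    · rw [hs ω y h]; ring
  have h2 : ∀ (k : ℕ) (f : Perm (Slot d n) → ℝ),
      (KX μ n ^ k) (fun y => s y * f y) = fun y => s y * (KX μ n ^ k) f y := by
    intro k
    induction k with
    | zero => intro f; rfl
    | succ k ih => intro f; rw [pow_succ_apply, h1, ih, pow_succ_apply]
  refine (hasSum_Pt_apply _ t _ x).unique ?_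
  simp only [h2, mul_left_comm (poi t _)]
  exact (hasSum_Pt_apply _ t f x).mul_left _

lemma tv_le (h : Hyp μ) (hn : 0 < n) {t ε : ℝ} (ht : 0 ≤ t) {x : Perm (Slot d n)}
    (hx : x ∈ spaceX μ n) (hF : ∀ F : Perm (Slot d n) → ℝ, (∀ y, |F y| ≤ 1) →
      (∀ y, y ∉ spaceX μ n → F y = 0) → ∑ y, F y = 0 → Pt (KX μ n) t F x ≤ ε) :
    tv (heat (jumpX μ n) t x) (spaceX μ n) ≤ ε := by
  set A := spaceX μ n with hA
  set p := heat (jumpX μ n) t x with hp
  have hc : (0 : ℝ) < A.card := by exact_mod_cast card_pos.2 ⟨x, hx⟩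
  have e1 : ∀ F : Perm (Slot d n) → ℝ, Pt (KX μ n) t F x = ∑ y, F y * p y := fun F => by
    rw [op_eq_sum]; simp only [hp, heatX_eq]
  have e2 : ∀ y, y ∉ A → p y = 0 := fun y hy => by
    have := Pt_mul_left (μ := μ) (s := fun y => if y ∈ A then 0 else 1)
      (fun ω y h => by simp only [hA, mv_mul_mem h]) (fun z => if z = y then 1 else 0) t x
    rw [if_pos hx, zero_mul] at this
    rw [hp, heatX_eq]
    refine Eq.trans (congrArg (fun f => Pt (KX μ n) t f x) (funext fun z => ?_)) this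
    by_cases hz : z = y <;> simp [hz, hy]
  have e3 : ∑ y ∈ A, p y = 1 := by
    rw [← ((markov_KX h hn).pt ht).const 1 x, e1, sum_subset (subset_univ A) fun y _ => e2 y]
    simp
  set G : Perm (Slot d n) → ℝ := fun y => if 1 / (A.card : ℝ) ≤ p y then 1 else -1 with hG
  have hG1 : ∀ y, |G y| = 1 := fun y => by simp only [hG]; split_ifs <;> simp
  set m := (∑ y ∈ A, G y) / A.card with hm
  have hm1 : |m| ≤ 1 := by
    rw [hm, abs_div, abs_of_pos hc, div_le_one hc]
    exact (abs_sum_le_sum_abs _ _).trans (by simp [hG1])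
  refine le_trans (le_of_eq ?_) (hF (fun y => if y ∈ A then (G y - m) / 2 else 0) (fun y => ?_)
    (fun y hy => if_neg hy) ?_)
  · rw [e1, tv, ← sum_subset (subset_univ A) fun y _ hy => by simp [hy, e2 y hy]]
    simp only [ite_mul, zero_mul, sum_ite_mem, univ_inter]
    have : ∑ y ∈ A, (G y - m) / 2 * p y = 1 / 2 * ∑ y ∈ A, G y * (p y - 1 / A.card) := by
      simp only [div_mul_eq_mul_div, sub_mul, mul_sub, ← sum_div, sum_sub_distrib, ← mul_sum, e3,
        ← sum_mul, hm]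
      ring
    rw [this]
    refine congrArg _ (sum_congr rfl fun y hy => ?_)
    simp only [if_pos hy, hG]
    split_ifs with h1
    · rw [abs_of_nonneg (by linarith), one_mul]
    · rw [abs_of_neg (by linarith)]; ring
  · split_ifs
    · rw [abs_div, abs_two, div_le_one two_pos]
      linarith [abs_sub (G y) m, hG1 y]
    · simp
  · simp only [sum_ite_mem, univ_inter, ← sum_div, sum_sub_distrib, sum_const, nsmul_eq_mul, hm]
    field_simp; ring

lemma core {k : ℕ} (hk : 2 * k + 2 ≤ d * n) {t β E e1 e2 Λ : ℝ} (ht : 0 ≤ t) (h1 : 0 ≤ e1)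
    (h2 : 0 ≤ e2) (hE : 0 ≤ E) (hΛ : 0 ≤ Λ)
    (hlo : ∀ x, ∀ w ∈ (HiE (Slot d n) k)ᗮ, ev μ t x (w - Q (rho _) univ w) ^ 2 ≤ E * ‖w‖ ^ 2)
    (hhi : ∀ w ∈ Hi (Slot d n) k, (∀ y, y ∉ spaceX μ n → w y = 0) →
      w ⬝ᵥ KX μ n w ≤ (1 - β) * (w ⬝ᵥ w))
    (a1 : E * (d * n).factorial ≤ e1 ^ 2) (a2 : Λ * Real.exp (-(2 * β * t)) ≤ e2 ^ 2)
    {F ν : Perm (Slot d n) → ℝ} (F1 : ∀ y, |F y| ≤ 1) (F2 : ∀ y, y ∉ spaceX μ n → F y = 0)
    (F3 : ∑ y, F y = 0) (n1 : ∀ y, 0 ≤ ν y) (n2 : ∑ y, ν y ≤ 1)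
    (n3 : ∀ y, ν y ≤ Λ / (d * n).factorial) :
    ∑ y, ν y * Pt (KX μ n) t F y ≤ 2 * e1 + 2 * e2 := by
  classical
  obtain ⟨a, ha, lo, hl, e⟩ := (HiE (Slot d n) k).exists_add_mem_mem_orthogonal (toLp 2 F)
  have hN : (0 : ℝ) < (d * n).factorial := by positivity
  have nF : ‖a‖ ^ 2 + ‖lo‖ ^ 2 ≤ (d * n).factorial := by
    have : ‖a + lo‖ ^ 2 = ‖a‖ ^ 2 + ‖lo‖ ^ 2 := by
      rw [norm_add_sq_real, Submodule.inner_right_of_mem_orthogonal ha hl]; ring
    rw [← this, ← e, norm_sq_EP]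
    refine (sum_le_sum (g := fun _ => (1 : ℝ)) fun y _ => abs_le_one_iff_mul_self_le_one.1 (F1 y)).trans ?_
    simp [Fintype.card_perm]
  have eF : ∀ y, F y = a y + lo y := fun y => congrArg (fun w : EP (Slot d n) => w y) e
  have hQ : Q (rho _) univ lo = 0 := by
    have h0 : Q (rho _) univ (toLp 2 F : EP (Slot d n)) = 0 := by
      ext η
      have : Gam (univ : Finset (Slot d n)) = univ := by ext; simp [mem_Gam]
      rw [← Equiv.sum_comp (Equiv.mulLeft η) F] at F3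
      rw [Q_rho_apply, this]
      exact mul_eq_zero_of_right _ F3
    rwa [e, map_add, Q_univ_Hi (by rw [card_slot]; omega) ha, zero_add] at h0
  have b1 : ∀ y, |Pt (KX μ n) t lo.ofLp y| ≤ e1 := fun y => by
    have := hlo y lo hl
    rw [hQ, sub_zero, ev_apply] at this
    refine abs_le_of_sq_le_sq (this.trans (le_trans ?_ a1)) h1
    gcongr
    linarith [sq_nonneg ‖a‖]
  set s : Perm (Slot d n) → ℝ :=
    fun y => if ∀ σ, μ σ ≠ 0 → Perm.sign σ = 1 then sg y else 0 with hs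
  have s1 : ∀ y, |s y| ≤ 1 := fun y => by simp only [hs]; split_ifs <;> simp [abs_sg]
  have s2 : ∀ ω y, wt μ n ω ≠ 0 → s (mv ω * y) = s y := fun ω y h => by
    simp only [hs]
    split_ifs with h1
    · rw [sg, map_mul, sign_move, h1 ω.1 fun e => h (by simp [wt, e]), one_mul, sg]
    · rfl
  set hi : Perm (Slot d n) → ℝ := fun y => a y - s y * lo y with hhi'
  set W : Submodule ℝ (Perm (Slot d n) → ℝ) := Hi (Slot d n) k ⊓
    ⨅ y : {y // y ∉ spaceX μ n}, LinearMap.ker (LinearMap.proj y.1) with hW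
  have mW : ∀ w, w ∈ W ↔ w ∈ Hi (Slot d n) k ∧ ∀ y, y ∉ spaceX μ n → w y = 0 := fun w => by
    simp [hW]
  have iW : ∀ w ∈ W, KX μ n w ∈ W := fun w hw => by
    rw [mW] at *
    refine ⟨?_, fun y hy => sum_eq_zero fun ω _ => ?_⟩
    · have : KX μ n w = ∑ ω, wt μ n ω • fun y => w (mv ω * y) := by funext y; simp [KX_apply]
      rw [this]
      exact Submodule.sum_mem _ fun ω _ => Submodule.smul_mem _ _ (left_mem_Hi hw.1 _)
    · by_cases h : wt μ n ω = 0
      · simp [h]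
      · rw [hw.2 _ (by rwa [mv_mul_mem h]), mul_zero]
  have hiW : hi ∈ W := by
    refine (mW _).2 ⟨(Hi _ k).sub_mem ha ?_, fun y hy => ?_⟩
    · simp only [hs]
      split_ifs
      · exact sg_mul_mem (by rwa [card_slot]) hl
      · simp only [zero_mul]; exact (Hi _ k).zero_mem
    · have h0 := F2 y hy
      rw [mem_spaceX, Classical.not_imp] at hy
      have : sg y = -1 := by simp [sg, (Int.units_eq_one_or _).resolve_left hy.2]
      simp only [hhi', hs, if_pos hy.1, this]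
      linarith [eF y]
  have b2 := decay iW (M := 1) isSymm_one (β := β)
    (fun w hw => by simpa using hhi w ((mW w).1 hw).1 ((mW w).1 hw).2) ht hiW
  simp only [one_mulVec] at b2
  have b3 : hi ⬝ᵥ hi ≤ 2 * (d * n).factorial := by
    refine le_trans ?_ (mul_le_mul_of_nonneg_left nF two_pos.le)
    rw [norm_sq_EP, norm_sq_EP, dotProduct, dotProduct, dotProduct, ← sum_add_distrib, mul_sum]
    refine sum_le_sum fun y _ => ?_
    have := mul_le_mul_of_nonneg_right (abs_le_one_iff_mul_self_le_one.1 (s1 y))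
      (mul_self_nonneg (lo y))
    simp only [hhi']
    nlinarith [sq_nonneg (a y + s y * lo y)]
  have b4 : ∑ y, ν y * Pt (KX μ n) t hi y ≤ 2 * e2 := by
    refine le_trans (le_abs_self _) (abs_le_of_sq_le_sq ?_ (by positivity))
    refine (sum_mul_sq_le_sq_mul_sq _ _ _).trans ?_
    have c1 : ∑ y, ν y ^ 2 ≤ Λ / (d * n).factorial := by
      refine (sum_le_sum (g := fun y => Λ / (d * n).factorial * ν y) fun y _ => ?_).trans ?_
      · rw [sq]; exact mul_le_mul_of_nonneg_right (n3 y) (n1 y)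
      · rw [← mul_sum]; exact mul_le_of_le_one_right (by positivity) n2
    have c2 : ∑ y, Pt (KX μ n) t hi y ^ 2 ≤ Real.exp (-(2 * β * t)) * (2 * (d * n).factorial) := by
      simp only [sq]
      exact b2.trans (by gcongr)
    refine (mul_le_mul c1 c2 (by positivity) (by positivity)).trans ?_
    have : Λ / (d * n).factorial * (Real.exp (-(2 * β * t)) * (2 * (d * n).factorial)) =
        2 * (Λ * Real.exp (-(2 * β * t))) := by field_simp
    rw [this]
    nlinarith [sq_nonneg e2]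
  have e4 : ∀ y, Pt (KX μ n) t F y ≤ 2 * e1 + Pt (KX μ n) t hi y := fun y => by
    have : F = fun y => (lo y + s y * lo y) + hi y := funext fun y => by
      simp only [hhi', eF]; ring
    rw [this, op_add, op_add, Pt_mul_left s2]
    have := mul_le_mul (s1 y) (b1 y) (abs_nonneg _) one_pos.le
    rw [← abs_mul] at this
    linarith [le_abs_self (Pt (KX μ n) t lo.ofLp y), b1 y,
      le_abs_self (s y * Pt (KX μ n) t lo.ofLp y)]
  refine (sum_le_sum fun y _ => mul_le_mul_of_nonneg_left (e4 y) (n1 y)).trans ?_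
  simp only [mul_add, sum_add_distrib, ← sum_mul]
  nlinarith

lemma tail (h : Hyp μ) (hn : 0 < n) {t a : ℝ} (ht : 0 ≤ t) (ha : 0 ≤ a) (s : ℕ)
    {Ψ : Perm (Slot d n) → ℝ} (h1 : ∀ y, |Ψ y| ≤ 1) (h2 : ∀ y, (KX μ n ^ s) Ψ y ≤ a)
    (x : Perm (Slot d n)) : Pt (KX μ n) t Ψ x ≤ a + 2 ^ s * Real.exp (-(t / 2)) := by
  have hM := markov_KX h hn
  have hs : HasSum (fun k => if k ∈ range s then poi t k else 0) (∑ k ∈ range s, poi t k) := by
    rw [← sum_ite_of_true (s := range s) (p := fun k => k ∈ range s) (fun _ h => h) _ fun _ => 0]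
    exact hasSum_sum_of_ne_finset_zero fun k hk => if_neg hk
  refine (hasSum_le (fun k => ?_) (hasSum_Pt_apply _ t Ψ x)
    (((hasSum_poi t).mul_right a).add hs)).trans (by linarith [poi_tail ht s])
  have p0 := poi_nonneg ht k
  split_ifs with hk
  · have := (hM.pow k).le_const (fun y => (abs_le.1 (h1 y)).2) x
    nlinarith [mul_nonneg p0 ha]
  · obtain ⟨j, rfl⟩ := Nat.exists_eq_add_of_le' (not_lt.1 fun h => hk (mem_range.2 h))
    rw [pow_add_apply, add_zero]
    exact mul_le_mul_of_nonneg_left ((hM.pow j).le_const h2 x) p0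

lemma term_le {N k j : ℕ} {D x L κ g q τ θ B : ℝ} (hD : 1 ≤ D) (hN : (N : ℝ) = D * Real.exp L)
    (hL : 0 ≤ L) (hκ : 0 ≤ κ) (hj : j ≤ k) (hk : 1 ≤ k) (h1 : 1 + 2 * θ ≤ 2 * τ * g)
    (h2 : 2 + 2 * θ ≤ 2 * τ * q) (h3 : 2 * τ * B ≤ θ) (hx : x ≤ D ^ k) (hx0 : 0 ≤ x) :
    (N.choose k : ℝ) * ((N.choose j * (k + 1) ^ j * x) * (κ ^ k *
      Real.exp (-(2 * (g * k + (q - g) * j - k * B) * (τ * L))))) ≤
      (D ^ 3 * Real.exp 2 * κ * Real.exp (-(θ * L))) ^ k := by
  have hk' : (1 : ℝ) ≤ k := by exact_mod_cast hk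
  have hj' : (j : ℝ) ≤ k := by exact_mod_cast hj
  have hj0 : (0 : ℝ) ≤ j := by positivity
  have a1 : (N.choose k : ℝ) ≤ D ^ k * Real.exp (k * L) := by
    rw [Real.exp_nat_mul, ← mul_pow, ← hN]; exact_mod_cast Nat.choose_le_pow N k
  have a2 : (N.choose j : ℝ) * (k + 1) ^ j ≤ D ^ k * Real.exp (j * L) * Real.exp (k * 2) := by
    have b1 : (N.choose j : ℝ) ≤ (N : ℝ) ^ j / j.factorial := Nat.choose_le_pow_div j N
    have b2 := Real.pow_div_factorial_le_exp ((k : ℝ) + 1) (by positivity) j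
    calc (N.choose j : ℝ) * (k + 1) ^ j ≤ (N : ℝ) ^ j / j.factorial * (k + 1) ^ j := by gcongr
      _ = D ^ j * Real.exp (j * L) * ((k + 1) ^ j / j.factorial) := by
          rw [hN, mul_pow, Real.exp_nat_mul]; ring
      _ ≤ _ := by
          gcongr
          exact b2.trans (Real.exp_le_exp.2 (by linarith))
  calc _ ≤ (D ^ k * Real.exp (k * L)) * ((D ^ k * Real.exp (j * L) * Real.exp (k * 2) * D ^ k) *
        (κ ^ k * Real.exp (-(2 * (g * k + (q - g) * j - k * B) * (τ * L))))) := by gcongr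
    _ = (D ^ 3 * Real.exp 2 * κ) ^ k * Real.exp (k * L + j * L +
          -(2 * (g * k + (q - g) * j - k * B) * (τ * L))) := by
        rw [Real.exp_add, Real.exp_add, Real.exp_nat_mul 2]; ring
    _ ≤ (D ^ 3 * Real.exp 2 * κ) ^ k * Real.exp (k * -(θ * L)) := by
        gcongr
        have c1 := mul_le_mul_of_nonneg_left h1 (sub_nonneg.2 hj')
        have c2 := mul_le_mul_of_nonneg_left h2 hj0
        have c3 := mul_le_mul_of_nonneg_left h3 (by linarith : (0 : ℝ) ≤ k)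
        have : (k + j - 2 * (g * k + (q - g) * j - k * B) * τ + k * θ) * L ≤ 0 :=
          mul_nonpos_of_nonpos_of_nonneg (by linarith) hL
        linarith
    _ = _ := by rw [Real.exp_nat_mul, ← mul_pow]

lemma tendsto_log_nat : Tendsto (fun n : ℕ => Real.log n) atTop atTop :=
  Real.tendsto_log_atTop.comp tendsto_natCast_atTop_atTop

lemma low_final (h : Hyp μ) {τ : ℝ} (h1 : 1 < 2 * τ * specGap μ) (h2 : 1 < τ * holdGap μ) :
    ∃ δ : ℝ, 0 < δ ∧ ∀ e : ℝ, 0 < e → ∀ᶠ n : ℕ in atTop, ∀ k : ℕ, (k : ℝ) ≤ δ * n → k ≤ d * n →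
      ∃ E : ℝ, 0 ≤ E ∧ E * (d * n).factorial ≤ e ∧ ∀ x, ∀ w ∈ (HiE (Slot d n) k)ᗮ,
        ev μ (τ * (n * Real.log n)) x (w - Q (rho _) univ w) ^ 2 ≤ E * ‖w‖ ^ 2 := by
  have hq := holdGap_pos h
  have hγ := specGap_pos h
  have hτ : 0 < τ := by by_contra hc; nlinarith
  obtain ⟨θ, hθ, t1, t2⟩ : ∃ θ : ℝ, 0 < θ ∧ 1 + 2 * θ < 2 * τ * specGap μ ∧
      2 + 2 * θ ≤ 2 * τ * holdGap μ :=
    ⟨min ((2 * τ * specGap μ - 1) / 4) (τ * holdGap μ - 1), lt_min (by linarith) (by linarith),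
      by linarith [min_le_left ((2 * τ * specGap μ - 1) / 4) (τ * holdGap μ - 1)],
      by linarith [min_le_right ((2 * τ * specGap μ - 1) / 4) (τ * holdGap μ - 1)]⟩
  set g := (1 + 2 * θ) / (2 * τ) with hg
  have g1 : 1 + 2 * θ = 2 * τ * g := by rw [hg]; field_simp
  obtain ⟨κ0, R, r1, r2, r3⟩ := lyap h (g := g) (by nlinarith)
  set κ := max κ0 1 with hκ
  have hκ1 : 1 ≤ κ := le_max_right _ _
  obtain ⟨b, hb, hd⟩ := tuple_decay h hκ1 holdGap_le (by nlinarith : g ≤ holdGap μ) r1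
    (fun u => (r2 u).trans (mul_le_mul_of_nonneg_right (le_max_left _ _) (dot_self_nonneg u))) r3
  refine ⟨min (1 / b) (θ / (2 * τ * b ^ 2)), by positivity, fun e he => ?_⟩
  have hρ : Tendsto (fun n : ℕ => 2 * ((d : ℝ) ^ 3 * Real.exp 2 * κ * Real.exp (-(θ * Real.log n))))
      atTop (nhds (2 * ((d : ℝ) ^ 3 * Real.exp 2 * κ * 0))) :=
    ((Real.tendsto_exp_neg_atTop_nhds_zero.comp
      (tendsto_log_nat.const_mul_atTop hθ)).const_mul _).const_mul _
  filter_upwards [hρ.eventually_le_const (u := min (1 / 2) (e / 2)) (by simp; positivity),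
    eventually_gt_atTop 0] with n hn1 hn k hk hkN
  set ρ := 2 * ((d : ℝ) ^ 3 * Real.exp 2 * κ * Real.exp (-(θ * Real.log n))) with hρd
  have hn' : (0 : ℝ) < n := by exact_mod_cast hn
  have hL := Real.log_natCast_nonneg n
  have ρ0 : 0 ≤ ρ := by positivity
  have ρ1 := hn1.trans (min_le_left _ _)
  have hF : (0 : ℝ) < (d * n).factorial := by positivity
  obtain ⟨l0, l1⟩ : (0 ≤ ∑ m ∈ range k, ρ ^ (m + 1) / (d * n).factorial) ∧ ∀ x,
      ∀ w ∈ (HiE (Slot d n) k)ᗮ, ev μ (τ * (n * Real.log n)) x (w - Q (rho _) univ w) ^ 2 ≤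
        (∑ m ∈ range k, ρ ^ (m + 1) / (d * n).factorial) * ‖w‖ ^ 2 := by
    refine ⟨by positivity, fun x => (low_bound _ x k hkN fun m hm => ?_).2⟩
    have hm' : ((m + 1 : ℕ) : ℝ) ≤ k := by exact_mod_cast hm
    have b1 : ((m + 1 : ℕ) : ℝ) * b ≤ n := by
      have := (hm'.trans hk).trans (mul_le_mul_of_nonneg_right (min_le_left _ _) hn'.le)
      rwa [one_div, inv_mul_eq_div, le_div_iff₀ hb] at this
    have b2 : 2 * τ * (((m + 1 : ℕ) : ℝ) * b ^ 2 / n) ≤ θ := by
      have := (hm'.trans hk).trans (mul_le_mul_of_nonneg_right (min_le_right _ _) hn'.le)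
      rw [div_mul_eq_mul_div, le_div_iff₀ (by positivity)] at this
      rw [← mul_div_assoc, div_le_iff₀ hn']; linarith
    obtain ⟨H, H0, H1, H2⟩ := hs_bound _ (fun j => by positivity)
      (hd n (m + 1) hn b1 (τ * (n * Real.log n)) (by positivity))
    refine ⟨H, H0, H1, ?_⟩
    have e1 : ((d * n).factorial : ℝ) = (d * n).choose (m + 1) *
        ((m + 1).factorial * (d * n - (m + 1)).factorial) := by
      rw [← mul_assoc]
      exact_mod_cast (Nat.choose_mul_factorial_mul_factorial (by omega)).symm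
    rw [div_le_div_iff₀ (by positivity) hF, e1, ← mul_assoc]
    gcongr
    rw [Fintype.card_fin] at H2
    refine (mul_le_mul_of_nonneg_right H2 (by positivity)).trans ?_
    rw [mul_comm, mul_sum]
    refine (sum_le_sum (g := fun _ => (ρ / 2) ^ (m + 1)) fun j hj => ?_).trans ?_
    · have := term_le (N := d * n) (k := m + 1) (j := j) (D := d) (x := (d : ℝ) ^ (m + 1))
        (L := Real.log n) (κ := κ) (q := holdGap μ) (by exact_mod_cast h.two.trans' one_le_two)
        (by rw [Real.exp_log hn']; push_cast; rfl) hL (by linarith)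
        (Nat.lt_succ_iff.1 (mem_range.1 hj)) (by omega) g1.le t2 b2 le_rfl (by positivity)
      rw [hρd, mul_div_cancel_left₀ _ two_ne_zero]
      refine le_trans (le_of_eq ?_) this
      push_cast
      congr 5
      field_simp
    · rw [sum_const, card_range, nsmul_eq_mul, div_pow, ← mul_div_assoc,
        div_le_iff₀ (by positivity), mul_comm]
      gcongr
      exact_mod_cast Nat.lt_two_pow_self (n := m + 1)
  refine ⟨_, l0, ?_, l1⟩
  rw [← sum_div, div_mul_cancel₀ _ hF.ne']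
  have : ∑ m ∈ range k, ρ ^ (m + 1) ≤ ρ * 2 := by
    simp only [pow_succ', ← mul_sum]
    gcongr
    exact (sum_le_sum fun m _ => pow_le_pow_left₀ ρ0 ρ1 m).trans (sum_geometric_two_le k)
  linarith [hn1.trans (min_le_right _ _)]

theorem upperX (h : Hyp μ) {η ε : ℝ} (hη : 0 < η) (hε : 0 < ε) : ∀ᶠ n in atTop,
    ∀ x ∈ spaceX μ n, tv (heat (jumpX μ n) ((1 + η) * cutTime μ n) x) (spaceX μ n) ≤ ε := by
  have hq := holdGap_pos h
  have hγ := specGap_pos h
  set c := max (1 / holdGap μ) (1 / (2 * specGap μ)) with hc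
  have c1 : 1 ≤ c * holdGap μ := (div_le_iff₀ hq).1 (le_max_left _ _)
  have c2 : 1 ≤ c * (2 * specGap μ) := (div_le_iff₀ (by positivity)).1 (le_max_right _ _)
  have c0 : 0 < c := lt_max_of_lt_left (by positivity)
  set τ := (1 + η / 2) * c with hτ
  have τ0 : 0 < τ := by positivity
  obtain ⟨δ0, hδ0, hlo⟩ := low_final h (τ := τ) (by rw [hτ]; nlinarith) (by rw [hτ]; nlinarith)
  set δ := min δ0 (1 / 2) with hδd
  have hδ : 0 < δ := lt_min hδ0 (by norm_num)
  obtain ⟨a, ha, hhi⟩ := high h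
  obtain ⟨W, hW⟩ := marking h (δ := a * δ * τ / 2) (ε := ε / 4) (by positivity) (by positivity)
  have T1 : Tendsto (fun n : ℕ => Real.exp (-(a * δ * τ / 2 * Real.log n))) atTop (nhds 0) :=
    Real.tendsto_exp_neg_atTop_nhds_zero.comp (tendsto_log_nat.const_mul_atTop (by positivity))
  have T2 : Tendsto (fun n : ℕ => Real.exp (-(η * c / 8 * Real.log n))) atTop (nhds 0) :=
    Real.tendsto_exp_neg_atTop_nhds_zero.comp (tendsto_log_nat.const_mul_atTop (by positivity))
  filter_upwards [hlo ((ε / 8) ^ 2) (by positivity), hW, eventually_ge_atTop 3,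
    T1.eventually_le_const (u := (ε / 8) ^ 2) (by positivity),
    T2.eventually_le_const (u := ε / 4) (by positivity),
    (tendsto_log_nat.const_mul_atTop (by positivity : 0 < η * c / 8)).eventually_ge_atTop W,
    (tendsto_natCast_atTop_atTop (R := ℝ).const_mul_atTop hδ).eventually_ge_atTop 2]
    with n h1 h2 h3 h4 h5 h6 h7 x hx
  have hn : 0 < n := by omega
  have hn' : (3 : ℝ) ≤ n := by exact_mod_cast h3
  have hL := Real.log_natCast_nonneg n
  have hM := markov_KX h hn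
  set k := ⌊δ * n⌋₊ with hk
  have k1 : (k : ℝ) ≤ δ * n := Nat.floor_le (by positivity)
  have k2 : δ * n / 2 ≤ k := by linarith [Nat.lt_floor_add_one (δ * n)]
  have k3 : 2 * k ≤ n := by
    have : δ * n ≤ 1 / 2 * n := by gcongr; exact min_le_right _ _
    exact_mod_cast (by linarith : 2 * (k : ℝ) ≤ n)
  have k4 : 2 * n ≤ d * n := Nat.mul_le_mul_right n h.two
  obtain ⟨E, E0, E1, E2⟩ := h1 k (k1.trans (by gcongr; exact min_le_left _ _)) (by omega)
  refine tv_le h hn (by rw [cutTime]; positivity) hx fun F F1 F2 F3 => ?_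
  have e : (1 + η) * cutTime μ n = η / 2 * c * (n * Real.log n) + τ * (n * Real.log n) := by
    rw [cutTime, hτ]; ring
  have t0 : 0 ≤ τ * (n * Real.log n) := by positivity
  rw [e, Pt_add, mul_apply_eq_comp]
  refine (tail h hn (by positivity) (a := 3 * ε / 4) (by positivity) (W * n)
    ((hM.pt t0).abs_le F1) (fun y => ?_) x).trans ?_
  · obtain ⟨ν, n1, n2, n3, n4⟩ := h2 y
    have := core (by omega) t0 (by positivity) (by positivity) E0 (Real.exp_pos _).le E2
      (hhi n k h3 (by omega)) E1 (le_trans ?_ h4) F1 F2 F3 n1 n2 n3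
    · linarith [(abs_le.1 (n4 _ ((hM.pt t0).abs_le F1))).2]
    rw [← Real.exp_add, Real.exp_le_exp]
    have e2 : 2 * (a * k / n) * (τ * (n * Real.log n)) = 2 * k * (a * τ * Real.log n) := by
      field_simp
    have p : 0 ≤ a * τ * Real.log n := by positivity
    rw [e2]
    nlinarith [mul_le_mul_of_nonneg_right k2 p, mul_nonneg hδ.le p]
  · have : (2 : ℝ) ^ (W * n) * Real.exp (-(η / 2 * c * (n * Real.log n) / 2)) ≤
        Real.exp (-(η * c / 8 * Real.log n)) := by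
      have b1 : (2 : ℝ) ^ (W * n) ≤ Real.exp (W * n) := by
        rw [← Nat.cast_mul, ← Real.exp_one_pow]
        exact pow_le_pow_left₀ two_pos.le (by linarith [Real.add_one_le_exp 1]) _
      refine (mul_le_mul_of_nonneg_right b1 (Real.exp_pos _).le).trans ?_
      rw [← Real.exp_add, Real.exp_le_exp]
      have p : 0 ≤ η * c / 8 * Real.log n := by positivity
      nlinarith [mul_le_mul_of_nonneg_right h6 (by linarith : (0 : ℝ) ≤ n)]
    linarith

end Pool.Agent.P.MP_c47a54_pr
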